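import Pool.Agent.W_bec814_h98.Defs

/-!
# Basic lemmas on horocyclic data
-/

set_option autoImplicit false

namespace Pool.Agent.W_bec814_h98

lemma ht_mul (v w : VV) (i : Fin 3) : ht (v * w) i = ht v i + ht w i := by
  fin_cases i <;> simp [ht] <;> ring

lemma ht_one (i : Fin 3) : ht 1 i = 0 := by
  fin_cases i <;> simp [ht]

lemma ht_inv (v : VV) (i : Fin 3) : ht v⁻¹ i = - ht v i := by
  fin_cases i <;> simp [ht] <;> ring

lemma ht_sum (v : VV) : ht v 0 + ht v 1 + ht v 2 = 0 := by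
  simp [ht]

/-- an element of `ℤ²` with prescribed heights -/
def vec (a b : ℤ) : VV := Multiplicative.ofAdd (a, b)

lemma ht_vec (a b : ℤ) : ht (vec a b) = ![a, b, -a - b] := rfl

variable {N : Type} [Group N] (D : Horo N)

lemma mem_M {h : Fin 3 → ℤ} {x : N} : x ∈ D.M h ↔ ∀ i, x ∈ D.F i (h i) := by
  simp [Horo.M, Subgroup.mem_iInf]

lemma F_anti (i : Fin 3) {h k : ℤ} (hk : h ≤ k) : D.F i k ≤ D.F i h := by
  obtain ⟨n, rfl⟩ := Int.le.dest hk
  clear hk
  induction n with
  | zero => simp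
  | succ n ih =>
    refine le_trans ?_ ih
    have := D.anti i (h + n)
    push_cast
    rwa [← add_assoc]

lemma M_anti {h k : Fin 3 → ℤ} (hk : ∀ i, h i ≤ k i) : D.M k ≤ D.M h := by
  intro x hx
  rw [mem_M] at hx ⊢
  exact fun i => F_anti D i (hk i) (hx i)

/-- the action shifts the subgroups `M h` -/
lemma act_mem_M (v : VV) {h : Fin 3 → ℤ} {x : N} :
    D.act v x ∈ D.M (fun i => h i + ht v i) ↔ x ∈ D.M h := by
  rw [mem_M, mem_M]
  exact forall_congr' fun i => D.equiv v i (h i) x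

lemma M_triv {h : Fin 3 → ℤ} (hs : 0 ≤ h 0 + h 1 + h 2) {x : N} (hx : x ∈ D.M h) : x = 1 := by
  have hx' : x ∈ D.M (fun i => ![h 0 - (h 0 + h 1 + h 2), h 1, h 2] i) := by
    refine M_anti D (fun i => ?_) hx
    fin_cases i <;> simp <;> linarith
  rw [mem_M] at hx'
  exact D.triv _ (by simp; ring) x hx'

lemma indep_le {h : Fin 3 → ℤ} (hs : h 0 + h 1 + h 2 ≤ 0) (y : Fin 3 → N) :
    ∃ x, ∀ i, (y i)⁻¹ * x ∈ D.F i (h i) := by
  obtain ⟨x, hx⟩ := D.indep (fun i => ![h 0 - (h 0 + h 1 + h 2), h 1, h 2] i) (by simp; ring) y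
  refine ⟨x, fun i => F_anti D i ?_ (hx i)⟩
  fin_cases i <;> simp <;> linarith

/-- the basic splitting -/
lemma M_split {h u w : Fin 3 → ℤ} (hu : ∀ i, 0 ≤ u i) (hw : ∀ i, 0 ≤ w i)
    (hd : ∀ i, u i = 0 ∨ w i = 0)
    (hs : (h 0 + u 0 + w 0) + (h 1 + u 1 + w 1) + (h 2 + u 2 + w 2) ≤ 0) {x : N}
    (hx : x ∈ D.M h) :
    ∃ a ∈ D.M (fun i => h i + u i), ∃ b ∈ D.M (fun i => h i + w i), x = a * b := by
  classical
  obtain ⟨a, ha⟩ := indep_le D (h := fun i => h i + u i + w i) hs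
    (fun i => if w i = 0 then 1 else x)
  have hx' := (mem_M D).1 hx
  have h1 : ∀ i, a ∈ D.F i (h i + u i) := by
    intro i
    have hai := ha i
    by_cases hwi : w i = 0
    · simpa [hwi] using hai
    · have hui : u i = 0 := (hd i).resolve_right hwi
      simp only [hwi, if_false] at hai
      have h2 : x⁻¹ * a ∈ D.F i (h i + u i) := by
        refine F_anti D i ?_ hai
        have := hw i
        linarith
      have h3 : x ∈ D.F i (h i + u i) := by
        rw [hui, add_zero]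
        exact hx' i
      simpa using mul_mem h3 h2
  refine ⟨a, (mem_M D).2 h1, a⁻¹ * x, (mem_M D).2 fun i => ?_, by group⟩
  have hai := ha i
  by_cases hwi : w i = 0
  · have h3 : a ∈ D.F i (h i) := by
      refine F_anti D i ?_ (h1 i)
      have := hu i
      linarith
    show a⁻¹ * x ∈ D.F i (h i + w i)
    rw [hwi, add_zero]
    exact mul_mem (inv_mem h3) (hx' i)
  · simp only [hwi, if_false] at hai
    have hui : u i = 0 := (hd i).resolve_right hwi
    have h2 : x⁻¹ * a ∈ D.F i (h i + w i) := by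
      rw [hui, add_zero] at hai
      exact hai
    have := inv_mem h2
    simpa using this

end Pool.Agent.W_bec814_h98
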