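import Pool.Agent.W_bec814_h98.Basic

/-!
# Finiteness, generation and labels (Card1)
-/

set_option autoImplicit false

namespace Pool.Agent.W_bec814_h98

variable {N : Type} [Group N] (D : Horo N)

private lemma shift_eq (h : Fin 3 → ℤ) (hs : h 0 + h 1 + h 2 = -1) :
    (fun i => (![0, 0, -1] : Fin 3 → ℤ) i + ht (vec (h 0) (h 1)) i) = h := by
  funext i
  rw [ht_vec]
  fin_cases i <;> simp <;> linarith

/-- For sum of `h` equal to `-1` the subgroup `M h` is in bijection with `A` (apply `act v`, `v = vec (h 0) (h 1)`). -/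
theorem M_equiv_A (h : Fin 3 → ℤ) (hs : h 0 + h 1 + h 2 = -1) :
    ∃ e : D.A ≃ D.M h, ∀ x, (e x : N) = D.act (vec (h 0) (h 1)) x := by
  have key : ∀ x : N, D.act (vec (h 0) (h 1)) x ∈ D.M h ↔ x ∈ D.A := by
    intro x
    have h1 := act_mem_M D (vec (h 0) (h 1)) (h := ![0, 0, -1]) (x := x)
    rw [shift_eq h hs] at h1
    exact h1
  refine ⟨⟨fun x => ⟨D.act (vec (h 0) (h 1)) x, (key x).2 x.2⟩,
    fun y => ⟨(D.act (vec (h 0) (h 1))).symm y, (key _).1 (by simp)⟩, ?_, ?_⟩, fun x => rfl⟩
  · intro x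
    ext
    simp
  · intro y
    ext
    simp

private lemma split01 {h : Fin 3 → ℤ} (hs : h 0 + h 1 + h 2 ≤ -2) {x : N} (hx : x ∈ D.M h) :
    ∃ a ∈ D.M (fun i => h i + (![1, 0, 0] : Fin 3 → ℤ) i),
      ∃ b ∈ D.M (fun i => h i + (![0, 1, 0] : Fin 3 → ℤ) i), x = a * b := by
  refine M_split D (u := ![1, 0, 0]) (w := ![0, 1, 0]) ?_ ?_ ?_ ?_ hx
  · intro i; fin_cases i <;> simp
  · intro i; fin_cases i <;> simp
  · intro i; fin_cases i <;> simp
  · simp; linarith

/-- PROOF. Induction on `n = - (sum of h)`: `M h` is trivial for `n ≤ 0` (`M_triv`), in bijection with `A` for `n = 1`,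
and for `n ≥ 2` the set `M h` is the product of `M (h + e_0)` and `M (h + e_1)` (`M_split`). -/
theorem M_finite (hA : Finite D.A) (h : Fin 3 → ℤ) : Finite (D.M h) := by
  have main : ∀ (n : ℕ) (h : Fin 3 → ℤ), -(n : ℤ) ≤ h 0 + h 1 + h 2 → Finite (D.M h) := by
    intro n
    induction n with
    | zero =>
      intro h hs
      have hsub : Subsingleton (D.M h) := by
        refine ⟨fun x y => ?_⟩
        have hx := M_triv D (by simpa using hs) x.2
        have hy := M_triv D (by simpa using hs) y.2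
        exact Subtype.ext (hx.trans hy.symm)
      infer_instance
    | succ n ih =>
      intro h hs
      push_cast at hs
      by_cases h1 : -(n : ℤ) ≤ h 0 + h 1 + h 2
      · exact ih h h1
      · have hs' : h 0 + h 1 + h 2 = -(n : ℤ) - 1 := by linarith [not_le.1 h1]
        by_cases hn : n = 0
        · subst hn
          obtain ⟨e, -⟩ := M_equiv_A D h (by simpa using hs')
          exact Finite.of_equiv _ e
        · have hn1 : (1 : ℤ) ≤ n := by exact_mod_cast Nat.one_le_iff_ne_zero.2 hn
          have f1 : Finite (D.M (fun i => h i + (![1, 0, 0] : Fin 3 → ℤ) i)) :=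
            ih _ (by simp; linarith)
          have f2 : Finite (D.M (fun i => h i + (![0, 1, 0] : Fin 3 → ℤ) i)) :=
            ih _ (by simp; linarith)
          have hsub : (D.M h : Set N) ⊆ Set.image2 (fun a b => a * b)
              (D.M (fun i => h i + (![1, 0, 0] : Fin 3 → ℤ) i) : Set N)
              (D.M (fun i => h i + (![0, 1, 0] : Fin 3 → ℤ) i) : Set N) := by
            intro x hx
            obtain ⟨a, ha, b, hb, rfl⟩ := split01 D (by linarith) hx
            exact ⟨a, ha, b, hb, rfl⟩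
          have hf1 : (D.M (fun i => h i + (![1, 0, 0] : Fin 3 → ℤ) i) : Set N).Finite := f1
          have hf2 : (D.M (fun i => h i + (![0, 1, 0] : Fin 3 → ℤ) i) : Set N).Finite := f2
          exact (hf1.image2 _ hf2).subset hsub
  refine main (h 0 + h 1 + h 2).natAbs h ?_
  have := neg_abs_le (h 0 + h 1 + h 2)
  rwa [Int.natCast_natAbs]

/-- PROOF. `M h ≤ C` for all `h`, by induction on `n = - (sum of h)` with `M_split` (`n ≥ 2`), `M_triv` (`n ≤ 0`);
every `x` is in some `M h` (`exh`). -/
theorem gen_top (C : Subgroup N)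
    (hC : ∀ k : Fin 3 → ℤ, k 0 + k 1 + k 2 = -1 → D.M k ≤ C) : C = ⊤ := by
  have main : ∀ (n : ℕ) (h : Fin 3 → ℤ), -(n : ℤ) ≤ h 0 + h 1 + h 2 → D.M h ≤ C := by
    intro n
    induction n with
    | zero =>
      intro h hs x hx
      rw [M_triv D (by simpa using hs) hx]
      exact one_mem C
    | succ n ih =>
      intro h hs
      push_cast at hs
      by_cases h1 : -(n : ℤ) ≤ h 0 + h 1 + h 2
      · exact ih h h1
      · have hs' : h 0 + h 1 + h 2 = -(n : ℤ) - 1 := by linarith [not_le.1 h1]
        by_cases hn : n = 0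
        · subst hn
          exact hC h (by simpa using hs')
        · have hn1 : (1 : ℤ) ≤ n := by exact_mod_cast Nat.one_le_iff_ne_zero.2 hn
          intro x hx
          obtain ⟨a, ha, b, hb, rfl⟩ := split01 D (by linarith) hx
          exact mul_mem (ih _ (by simp; linarith) ha) (ih _ (by simp; linarith) hb)
  rw [eq_top_iff]
  intro x _
  choose h hh using fun i => D.exh i x
  refine main (h 0 + h 1 + h 2).natAbs h ?_ ((mem_M D).2 hh)
  have := neg_abs_le (h 0 + h 1 + h 2)
  rwa [Int.natCast_natAbs]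

end Pool.Agent.W_bec814_h98
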