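import Pool.Agent.W_bec814_h98.Card1

/-!
# Finiteness, generation and labels (Card2)
-/

set_option autoImplicit false

namespace Pool.Agent.W_bec814_h98

variable {N : Type} [Group N] (D : Horo N)

/-- LABELS. The cosets of `F i (h + 1)` in `F i h` are labelled by `Fin q`, `q = |A|`, the trivial one by `0`.
PROOF. Let `k` be heights with `k i = h` and sum `-1`. For `x ∈ F i h` there is exactly one `m ∈ M k` with
`x⁻¹ * m ∈ F i (h + 1)`: existence by `indep_le` at the heights `k + e_i` (sum `0`) with `y i = x` and `y j = 1` for `j ≠ i`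
(then `m ∈ F j (k j)` and `m ∈ F i h`); uniqueness: `m⁻¹ * m' ∈ M (k + e_i)` is `1` (`M_triv`). Compose with a
bijection `M k ≃ A ≃ Fin q` mapping `1` to `0` (`M_equiv_A`). Outside `F i h` the label is `0`, say. -/
theorem exists_label (q : ℕ) [NeZero q] (hq : Nat.card D.A = q) (i : Fin 3) (h : ℤ) :
    ∃ e : N → Fin q, (∀ x ∈ D.F i h, ∀ y ∈ D.F i h, (e x = e y ↔ x⁻¹ * y ∈ D.F i (h + 1))) ∧
      (∀ c, ∃ x ∈ D.F i h, e x = c) ∧ e 1 = 0 := by
  classical
  set k : Fin 3 → ℤ := fun j => if j = i then h else if j = i + 1 then -1 - h else 0 with hk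
  have hki : k i = h := by simp [hk]
  have hsum : k 0 + k 1 + k 2 = -1 := by
    fin_cases i <;> simp [hk]
  set k' : Fin 3 → ℤ := fun j => k j + if j = i then 1 else 0 with hk'
  have hsum' : k' 0 + k' 1 + k' 2 = 0 := by
    have h1 : k' 0 + k' 1 + k' 2 = (k 0 + k 1 + k 2) +
        ((if (0 : Fin 3) = i then 1 else 0) + (if (1 : Fin 3) = i then 1 else 0) +
          (if (2 : Fin 3) = i then 1 else 0)) := by
      simp only [hk']
      ring
    rw [h1, hsum]
    fin_cases i <;> simp
  have hk'i : k' i = h + 1 := by simp [hk', hki]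
  -- the labels
  have hMF : ∀ m : D.M k, (m : N) ∈ D.F i h := fun m => by
    have := (mem_M D).1 m.2 i
    rwa [hki] at this
  have key : ∀ x ∈ D.F i h, ∃ m : D.M k, x⁻¹ * (m : N) ∈ D.F i (h + 1) := by
    intro x hx
    obtain ⟨m, hm⟩ := indep_le D (h := k') (le_of_eq hsum') (fun j => if j = i then x else 1)
    have hmi : x⁻¹ * m ∈ D.F i (h + 1) := by
      have := hm i
      rw [hk'i] at this
      simpa using this
    refine ⟨⟨m, (mem_M D).2 fun j => ?_⟩, hmi⟩
    by_cases hj : j = i
    · subst hj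
      rw [hki]
      have := mul_mem hx (D.anti j h hmi)
      simpa using this
    · have := hm j
      simpa [hk', hj] using this
  have uniq : ∀ m m' : D.M k, (m : N)⁻¹ * (m' : N) ∈ D.F i (h + 1) → m = m' := by
    intro m m' hmm
    have h2 : (m : N)⁻¹ * (m' : N) ∈ D.M k' := by
      rw [mem_M]
      intro j
      by_cases hj : j = i
      · subst hj
        rwa [hk'i]
      · have h3 := (mem_M D).1 (mul_mem (inv_mem m.2) m'.2) j
        simpa [hk', hj] using h3
    have h4 := M_triv D (le_of_eq hsum'.symm) h2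
    exact Subtype.ext (inv_mul_eq_one.1 h4)
  obtain ⟨e0, -⟩ := M_equiv_A D k hsum
  have hcard : Nat.card (D.M k) = q := by
    rw [← hq]
    exact (Nat.card_congr e0).symm
  have hfin : Finite (D.M k) := Nat.finite_of_card_ne_zero (by rw [hcard]; exact NeZero.ne q)
  have g0 : D.M k ≃ Fin q := (Finite.equivFin (D.M k)).trans (finCongr hcard)
  set g : D.M k ≃ Fin q := g0.trans (Equiv.swap (g0 1) 0) with hg
  have hg1 : g 1 = 0 := by simp [hg]
  have : Nonempty (D.M k) := ⟨1⟩
  choose! mm hmm using key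
  refine ⟨fun x => if x ∈ D.F i h then g (mm x) else 0, ?_, ?_, ?_⟩
  · intro x hx y hy
    have hex : (fun x => if x ∈ D.F i h then g (mm x) else 0) x = g (mm x) := by simp [hx]
    have hey : (fun x => if x ∈ D.F i h then g (mm x) else 0) y = g (mm y) := by simp [hy]
    simp only [hx, hy, if_true]
    rw [g.injective.eq_iff]
    constructor
    · intro hxy
      have h5 := hmm x hx
      have h6 := hmm y hy
      rw [hxy] at h5
      have h7 := mul_mem h5 (inv_mem h6)
      have h8 : x⁻¹ * (mm y : N) * (y⁻¹ * (mm y : N))⁻¹ = x⁻¹ * y := by group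
      rwa [h8] at h7
    · intro hxy
      apply uniq
      have h7 := mul_mem (mul_mem (inv_mem (hmm x hx)) hxy) (hmm y hy)
      have h8 : (x⁻¹ * (mm x : N))⁻¹ * (x⁻¹ * y) * (y⁻¹ * (mm y : N)) =
          (mm x : N)⁻¹ * (mm y : N) := by group
      rwa [h8] at h7
  · intro c
    refine ⟨(g.symm c : D.M k), hMF _, ?_⟩
    have h9 : mm ((g.symm c : D.M k) : N) = g.symm c :=
      (uniq _ _ (hmm _ (hMF (g.symm c)))).symm
    simp only [hMF (g.symm c), if_true, h9, Equiv.apply_symm_apply]
  · have h10 : mm (1 : N) = 1 := by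
      have h11 := hmm 1 (one_mem _)
      exact (uniq 1 (mm 1) (by simpa using h11)).symm
    simp only [one_mem, if_true, h10, hg1]

end Pool.Agent.W_bec814_h98
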