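import Pool.Agent.W_bec814_h98.Card1

/-!
# The standard generating set of the semidirect product
-/

set_option autoImplicit false

namespace Pool.Agent.W_bec814_h98

variable {N : Type} [Group N] (D : Horo N)

/-- the finite set of small elements of `ℤ²` -/
def small (u : VV) : Prop := |(Multiplicative.toAdd u).1| ≤ 1 ∧ |(Multiplicative.toAdd u).2| ≤ 1

private lemma Cay_small_finite : {u : VV | small u}.Finite := by
  have h1 : (((Set.Icc (-1 : ℤ) 1) ×ˢ (Set.Icc (-1 : ℤ) 1)) : Set (ℤ × ℤ)).Finite :=
    (Set.finite_Icc _ _).prod (Set.finite_Icc _ _)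
  refine (h1.preimage (f := fun u : VV => Multiplicative.toAdd u)
    (Multiplicative.toAdd.injective.injOn)).subset ?_
  intro u hu
  simp only [Set.mem_preimage, Set.mem_prod, Set.mem_Icc]
  exact ⟨abs_le.1 hu.1, abs_le.1 hu.2⟩

private lemma Cay_small_inv {u : VV} (hu : small u) : small u⁻¹ := by
  unfold small at hu ⊢
  rw [toAdd_inv, Prod.fst_neg, Prod.snd_neg, abs_neg, abs_neg]
  exact hu

private lemma Cay_small_one : small (1 : VV) := by
  unfold small
  simp

/-- PROOF. `S = {g | small g.right ∧ g.left ∈ M (min 0 (ht g.right))}`. It is finite (`small` is finite, `M h` is finite by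
`M_finite`). Membership of `a⁻¹ * b`: `(a⁻¹ * b).right = a.right⁻¹ * b.right` and
`(a⁻¹ * b).left = act a.right⁻¹ (a.left⁻¹ * b.left)`; `act_mem_M` with `v = a.right⁻¹` turns the condition into
`a.left⁻¹ * b.left ∈ M (ht a.right + min 0 (ht b.right - ht a.right)) = M (min (ht a.right) (ht b.right))`.
GENERATION: `(1, u)` with `u` small is in `S`, so all `(1, v)` are generated; for `u = vec 1 0` (heights `1, 0, -1`) and `x ∈ A`
the element `(x, u)` is in `S`, so `(x, 1)` is generated; conjugating by `(1, v)` we get `inl x` for `x ∈ M k`, sum of `k` `-1`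
(`M_equiv_A`), and `gen_top` (for the comap under `inl`) gives all of `inl N`. SYMMETRIC: from the membership rule
with `a⁻¹ * b` replaced by `b⁻¹ * a` (`g = 1⁻¹ * g`, `g⁻¹ = g⁻¹ * 1`). -/
theorem exists_gens (hA : Finite D.A) :
    ∃ S : Finset D.Gam, Subgroup.closure (S : Set D.Gam) = ⊤ ∧ (∀ g ∈ S, g⁻¹ ∈ S) ∧
      ∀ a b : D.Gam, a⁻¹ * b ∈ S ↔ (small (a.right⁻¹ * b.right) ∧
        a.left⁻¹ * b.left ∈ D.M (fun i => min (ht a.right i) (ht b.right i))) := by
  classical
  have hfin : {g : D.Gam | small g.right ∧ g.left ∈ D.M (fun i => min 0 (ht g.right i))}.Finite := by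
    have h1 : (⋃ u ∈ {u : VV | small u}, (fun x : N => (⟨x, u⟩ : D.Gam)) ''
        (D.M (fun i => min 0 (ht u i)) : Set N)).Finite := by
      refine Cay_small_finite.biUnion fun u _ => Set.Finite.image _ ?_
      have := M_finite D hA (fun i => min 0 (ht u i))
      exact Set.toFinite _
    refine h1.subset ?_
    rintro ⟨x, u⟩ ⟨hu, hx⟩
    exact Set.mem_biUnion (show u ∈ {u : VV | small u} from hu) ⟨x, hx, rfl⟩
  set S : Finset D.Gam := hfin.toFinset with hS
  have hmem : ∀ g : D.Gam, g ∈ S ↔ small g.right ∧ g.left ∈ D.M (fun i => min 0 (ht g.right i)) :=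
    fun g => by rw [hS, Set.Finite.mem_toFinset, Set.mem_ofPred_eq]
  have hrule : ∀ a b : D.Gam, a⁻¹ * b ∈ S ↔ (small (a.right⁻¹ * b.right) ∧
      a.left⁻¹ * b.left ∈ D.M (fun i => min (ht a.right i) (ht b.right i))) := by
    intro a b
    rw [hmem]
    have e1 : (a⁻¹ * b).right = a.right⁻¹ * b.right := rfl
    have e2 : (a⁻¹ * b).left = D.act a.right⁻¹ (a.left⁻¹ * b.left) := by
      rw [SemidirectProduct.mul_left, SemidirectProduct.inv_left, SemidirectProduct.inv_right,
        map_mul]
    rw [e1, e2, ← act_mem_M D a.right⁻¹ (h := fun i => min (ht a.right i) (ht b.right i))]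
    have e3 : (fun i => min 0 (ht (a.right⁻¹ * b.right) i)) =
        fun i => min (ht a.right i) (ht b.right i) + ht a.right⁻¹ i := by
      funext i
      rw [ht_mul, ht_inv]
      rcases le_total (ht a.right i) (ht b.right i) with h | h
      · rw [min_eq_left h, min_eq_left (by linarith)]
        ring
      · rw [min_eq_right h, min_eq_right (by linarith)]
        ring
    rw [e3]
  refine ⟨S, ?_, ?_, hrule⟩
  · -- generation
    set H : Subgroup D.Gam := Subgroup.closure (S : Set D.Gam) with hH
    have hsub : ∀ g ∈ S, g ∈ H := fun g hg => Subgroup.subset_closure hg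
    have hinr0 : ∀ u : VV, small u → (SemidirectProduct.inr u : D.Gam) ∈ H := by
      intro u hu
      refine hsub _ ((hmem _).2 ⟨?_, ?_⟩)
      · rw [SemidirectProduct.right_inr]
        exact hu
      · rw [SemidirectProduct.left_inr]
        exact one_mem _
    have hinr : ∀ v : VV, (SemidirectProduct.inr v : D.Gam) ∈ H := by
      intro v
      have e : v = (vec 1 0) ^ (Multiplicative.toAdd v).1 * (vec 0 1) ^ (Multiplicative.toAdd v).2 := by
        apply Multiplicative.toAdd.injective
        rw [toAdd_mul, toAdd_zpow, toAdd_zpow]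
        simp [vec, Prod.ext_iff]
      rw [e, map_mul, map_zpow, map_zpow]
      refine mul_mem (zpow_mem (hinr0 _ ?_) _) (zpow_mem (hinr0 _ ?_) _)
      · simp [small, vec]
      · simp [small, vec]
    have hA' : ∀ x ∈ D.A, (SemidirectProduct.inl x : D.Gam) ∈ H := by
      intro x hx
      have h1 : (⟨x, vec 1 0⟩ : D.Gam) ∈ H := by
        refine hsub _ ((hmem _).2 ⟨?_, ?_⟩)
        · simp [small, vec]
        · have e : (fun i => min 0 (ht (vec 1 0) i)) = ![0, 0, -1] := by
            funext i
            fin_cases i <;> simp [ht_vec]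
          show x ∈ D.M (fun i => min 0 (ht (vec 1 0) i))
          rw [e]
          exact hx
      have h2 : (SemidirectProduct.inl x : D.Gam) =
          ⟨x, vec 1 0⟩ * (SemidirectProduct.inr (vec 1 0))⁻¹ := by
        rw [eq_mul_inv_iff_mul_eq]
        exact (SemidirectProduct.mk_eq_inl_mul_inr (vec 1 0) x).symm
      rw [h2]
      exact mul_mem h1 (inv_mem (hinr _))
    have hM : ∀ k : Fin 3 → ℤ, k 0 + k 1 + k 2 = -1 →
        D.M k ≤ H.comap (SemidirectProduct.inl : N →* D.Gam) := by
      intro k hk x hx
      obtain ⟨e, he⟩ := M_equiv_A D k hk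
      obtain ⟨a, ha⟩ := e.surjective ⟨x, hx⟩
      have h1 : x = D.act (vec (k 0) (k 1)) a := by
        rw [← he a, ha]
      rw [Subgroup.mem_comap, h1, SemidirectProduct.inl_aut]
      exact mul_mem (mul_mem (hinr _) (hA' _ a.2)) (hinr _)
    have htop := gen_top D _ hM
    rw [eq_top_iff]
    intro g _
    rw [← SemidirectProduct.inl_left_mul_inr_right g]
    refine mul_mem ?_ (hinr _)
    have : g.left ∈ H.comap (SemidirectProduct.inl : N →* D.Gam) := by
      rw [htop]
      exact Subgroup.mem_top _
    exact this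
  · -- symmetry
    intro g hg
    have h1 : (1 : D.Gam)⁻¹ * g ∈ S := by simpa using hg
    have h2 : g⁻¹ * 1 ∈ S := by
      rw [hrule] at h1 ⊢
      obtain ⟨h3, h4⟩ := h1
      constructor
      · have h5 := Cay_small_inv h3
        simpa using h5
      · have h5 := inv_mem h4
        have e : (fun i => min (ht g.right i) (ht (1 : D.Gam).right i)) =
            fun i => min (ht (1 : D.Gam).right i) (ht g.right i) := by
          funext i
          exact min_comm _ _
        rw [e]
        simpa using h5
    simpa using h2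

end Pool.Agent.W_bec814_h98
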