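import Pool.Agent.W_bec814_h98.Defs

/-!
# A criterion for finite presentability
-/

set_option autoImplicit false

namespace Pool.Agent.W_bec814_h98

/-- Let `g : ι → G` (`ι` finite) generate `G`, let `rels` be a finite set of words which are trivial in `G`, and
suppose that every solution of `rels` in any group `L` extends to a homomorphism of `G`. Then `G` is finitely
presented.
PROOF. Transport along `ι ≃ Fin n`. `φ = FreeGroup.lift g`; `ker φ ≥ normalClosure rels` is clear. Conversely apply the
hypothesis to `L = FreeGroup ι ⧸ normalClosure rels` and the quotient map `ψ`: it is `Φ.comp φ` (they agree on the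
generators), so `ker φ ≤ ker ψ = normalClosure rels`. -/
theorem finPres_of {G : Type} [Group G] {ι : Type} [Finite ι] (g : ι → G)
    (hg : Subgroup.closure (Set.range g) = ⊤) (rels : Set (FreeGroup ι)) (hfin : rels.Finite)
    (hrel : ∀ r ∈ rels, FreeGroup.lift g r = 1)
    (hext : ∀ (L : Type) [Group L] (ψ : FreeGroup ι →* L), (∀ r ∈ rels, ψ r = 1) →
      ∃ Φ : G →* L, ∀ i, Φ (g i) = ψ (FreeGroup.of i)) : FinPres G := by
  classical
  obtain ⟨n, ⟨e⟩⟩ := Finite.exists_equiv_fin ι
  have hker : (FreeGroup.lift g).ker = Subgroup.normalClosure rels := by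
    apply le_antisymm
    · obtain ⟨Φ, hΦ⟩ := hext (FreeGroup ι ⧸ Subgroup.normalClosure rels)
        (QuotientGroup.mk' (Subgroup.normalClosure rels)) (by
          intro r hr
          rw [QuotientGroup.mk'_apply, QuotientGroup.eq_one_iff]
          exact Subgroup.subset_normalClosure hr)
      have hcomp : Φ.comp (FreeGroup.lift g) = QuotientGroup.mk' (Subgroup.normalClosure rels) := by
        apply FreeGroup.ext_hom
        intro i
        rw [MonoidHom.comp_apply, FreeGroup.lift_apply_of]
        exact hΦ i
      intro x hx
      rw [MonoidHom.mem_ker] at hx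
      have h1 : (QuotientGroup.mk' (Subgroup.normalClosure rels)) x = 1 := by
        rw [← hcomp, MonoidHom.comp_apply, hx, map_one]
      rwa [QuotientGroup.mk'_apply, QuotientGroup.eq_one_iff] at h1
    · apply Subgroup.normalClosure_le_normal
      intro r hr
      exact hrel r hr
  have hsurj : Function.Surjective (FreeGroup.lift g) := by
    rw [← MonoidHom.range_eq_top, FreeGroup.range_lift_eq_closure]
    exact hg
  let E : FreeGroup (Fin n) ≃* FreeGroup ι := FreeGroup.freeGroupCongr e.symm
  have hf2 : (E.symm '' rels).Finite := hfin.image _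
  refine ⟨n, (FreeGroup.lift g).comp E.toMonoidHom, hf2.toFinset, ?_, ?_⟩
  · exact hsurj.comp E.surjective
  · rw [Set.Finite.coe_toFinset]
    have h2 : ((FreeGroup.lift g).comp E.toMonoidHom).ker = (FreeGroup.lift g).ker.comap E.toMonoidHom := by
      rfl
    rw [h2, hker]
    have h3 : Subgroup.comap E.toMonoidHom (Subgroup.normalClosure rels)
        = Subgroup.map E.symm.toMonoidHom (Subgroup.normalClosure rels) := by
      exact Subgroup.comap_equiv_eq_map_symm E _
    rw [h3]
    exact Subgroup.map_normalClosure rels E.symm.toMonoidHom E.symm.surjective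

end Pool.Agent.W_bec814_h98
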