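import Mathlib

/-!
# Horocyclic data (MP_bec814_al)

A group `N` with an action of `ℤ²` and three filtrations by subgroups, indexed by heights in `ℤ`, such
that `N` is the product of the three coset spaces at heights with sum `0`.
-/

set_option autoImplicit false

namespace Pool.Agent.W_bec814_h98

/-- the acting group `ℤ²`, written multiplicatively -/
abbrev VV : Type := Multiplicative (ℤ × ℤ)

/-- the three heights of an element of `ℤ²`; their sum is `0` -/
def ht (v : VV) : Fin 3 → ℤ := ![(Multiplicative.toAdd v).1, (Multiplicative.toAdd v).2,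
  -(Multiplicative.toAdd v).1 - (Multiplicative.toAdd v).2]

/-- horocyclic data on the group `N`: an action of `ℤ²` and three filtrations -/
structure Horo (N : Type) [Group N] where
  /-- the action of `ℤ²` -/
  act : VV →* MulAut N
  /-- the filtrations -/
  F : Fin 3 → ℤ → Subgroup N
  anti : ∀ i h, F i (h + 1) ≤ F i h
  exh : ∀ i x, ∃ h, x ∈ F i h
  equiv : ∀ (v : VV) i h x, act v x ∈ F i (h + ht v i) ↔ x ∈ F i h
  triv : ∀ h : Fin 3 → ℤ, h 0 + h 1 + h 2 = 0 → ∀ x, (∀ i, x ∈ F i (h i)) → x = 1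
  indep : ∀ h : Fin 3 → ℤ, h 0 + h 1 + h 2 = 0 → ∀ y : Fin 3 → N, ∃ x, ∀ i, (y i)⁻¹ * x ∈ F i (h i)

variable {N : Type} [Group N]

/-- the intersection of the three filtrations at the heights `h` -/
def Horo.M (D : Horo N) (h : Fin 3 → ℤ) : Subgroup N := ⨅ i, D.F i (h i)

/-- the semidirect product with `ℤ²` -/
abbrev Horo.Gam (D : Horo N) : Type := N ⋊[D.act] VV

/-- the basic subgroup: heights `0, 0, -1` -/
def Horo.A (D : Horo N) : Subgroup N := D.M ![0, 0, -1]

/-- finite presentability, as in the frozen statement -/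
def FinPres (G : Type) [Group G] : Prop :=
  ∃ (n : ℕ) (φ : FreeGroup (Fin n) →* G) (R : Finset (FreeGroup (Fin n))),
    Function.Surjective φ ∧ φ.ker = Subgroup.normalClosure (R : Set (FreeGroup (Fin n)))

/-- the word length of `g` with respect to the finite set `S` -/
noncomputable def wlen {G : Type} [Group G] (S : Finset G) (g : G) : ℕ :=
  sInf {m : ℕ | ∃ l : List G, l.length = m ∧ (∀ x ∈ l, x ∈ S ∨ x⁻¹ ∈ S) ∧ l.prod = g}

/-- quasi-isometric, as in the frozen statement: for some finite generating sets there is a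
quasi-isometry between the word metrics -/
def QIso (G H : Type) [Group G] [Group H] : Prop :=
  ∃ (S : Finset G) (T : Finset H),
    Subgroup.closure (S : Set G) = ⊤ ∧ Subgroup.closure (T : Set H) = ⊤ ∧
    ∃ (f : G → H) (K C : ℕ),
      (∀ a b : G, wlen T ((f a)⁻¹ * f b) ≤ K * wlen S (a⁻¹ * b) + C ∧
        wlen S (a⁻¹ * b) ≤ K * wlen T ((f a)⁻¹ * f b) + C) ∧
      ∀ h : H, ∃ a : G, wlen T ((f a)⁻¹ * h) ≤ C

end Pool.Agent.W_bec814_h98
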