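import Pool.Agent.W_bec814_h98.U3

/-!
# Large derived length (Der1)
-/

set_option autoImplicit false

namespace Pool.Agent.W_bec814_h98

/-- The elementary matrices.
PROOF. `1 + r E_(j k)` satisfies `UT m famR`; use `UT_unit`. -/
theorem exists_elem {m : ℕ} {j k : Fin m} (hjk : j < k) {r : KK} (hr : r ∈ RR) :
    ∃ g : NN m, ((g : (Matrix (Fin m) (Fin m) KK)ˣ) : Matrix (Fin m) (Fin m) KK) =
      1 + Matrix.single j k r := by
  have hUT : UT m famR (1 + Matrix.single j k r) := by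
    refine ⟨?_, ?_, ?_⟩
    · intro i
      rw [Matrix.add_apply, Matrix.one_apply_eq, Matrix.single_apply_of_ne, add_zero]
      rintro ⟨h1, h2⟩
      exact hjk.ne (h1.trans h2.symm)
    · intro i i' h
      rw [Matrix.add_apply, Matrix.one_apply_ne h.ne', Matrix.single_apply_of_ne, add_zero]
      rintro ⟨h1, h2⟩
      rw [← h1, ← h2] at h
      exact lt_asymm h hjk
    · intro i i' h
      rw [Matrix.add_apply, Matrix.one_apply_ne h.ne, zero_add]
      show _ ∈ RR
      by_cases h1 : j = i ∧ k = i'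
      · rw [← h1.1, ← h1.2, Matrix.single_apply_same]
        exact hr
      · rw [Matrix.single_apply_of_ne]
        · exact RR.zero_mem
        · exact h1
  obtain ⟨g, hg⟩ := UT_unit hUT
  refine ⟨⟨g, ?_⟩, hg⟩
  show UT m famR (g : Matrix (Fin m) (Fin m) KK)
  rw [hg]
  exact hUT

/-- `g` is the elementary matrix with entry `r` at `(j, k)` -/
def IsEl (m : ℕ) (j k : Fin m) (r : KK) (g : NN m) : Prop :=
  ((g : (Matrix (Fin m) (Fin m) KK)ˣ) : Matrix (Fin m) (Fin m) KK) = 1 + Matrix.single j k r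

/-- PROOF. `(1 + r E_(j k)) (1 + s E_(j k)) = 1 + (r + s) E_(j k)`; commutator formula for matrix units. -/
theorem IsEl_comm {m : ℕ} {j k l : Fin m} (hjk : j < k) (hkl : k < l) {r s : KK} {g g' : NN m}
    (h : IsEl m j k r g) (h' : IsEl m k l s g') : IsEl m j l (r * s) (g * g' * g⁻¹ * g'⁻¹) := by
  have hjl : j ≠ l := (hjk.trans hkl).ne
  have hk : k ≠ l := hkl.ne
  have e1 : ((g * g' : NN m) : (Matrix (Fin m) (Fin m) KK)ˣ) =
      (g : (Matrix (Fin m) (Fin m) KK)ˣ) * (g' : (Matrix (Fin m) (Fin m) KK)ˣ) := rfl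
  have key : (((g : (Matrix (Fin m) (Fin m) KK)ˣ) * (g' : (Matrix (Fin m) (Fin m) KK)ˣ) :
      (Matrix (Fin m) (Fin m) KK)ˣ) : Matrix (Fin m) (Fin m) KK) =
      (1 + Matrix.single j l (r * s)) *
      (((g' : (Matrix (Fin m) (Fin m) KK)ˣ) * (g : (Matrix (Fin m) (Fin m) KK)ˣ) :
      (Matrix (Fin m) (Fin m) KK)ˣ) : Matrix (Fin m) (Fin m) KK) := by
    rw [Units.val_mul, Units.val_mul, h, h']
    have z1 : Matrix.single k l s * Matrix.single j k r = 0 :=
      Matrix.single_mul_single_of_ne _ _ _ _ hjl.symm _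
    have z2 : Matrix.single j l (r * s) * Matrix.single k l s = 0 :=
      Matrix.single_mul_single_of_ne _ _ _ _ hk.symm _
    have z3 : Matrix.single j l (r * s) * Matrix.single j k r = 0 :=
      Matrix.single_mul_single_of_ne _ _ _ _ hjl.symm _
    have z4 : Matrix.single j k r * Matrix.single k l s = Matrix.single j l (r * s) :=
      Matrix.single_mul_single_same _ _ _ _ _
    simp only [add_mul, mul_add, one_mul, mul_one, z1, z2, z3, z4, add_zero]
    abel
  show (((g * g' * g⁻¹ * g'⁻¹ : NN m) : (Matrix (Fin m) (Fin m) KK)ˣ) :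
    Matrix (Fin m) (Fin m) KK) = 1 + Matrix.single j l (r * s)
  have e2 : ((g * g' * g⁻¹ * g'⁻¹ : NN m) : (Matrix (Fin m) (Fin m) KK)ˣ) =
      ((g : (Matrix (Fin m) (Fin m) KK)ˣ) * (g' : (Matrix (Fin m) (Fin m) KK)ˣ)) *
      ((g' : (Matrix (Fin m) (Fin m) KK)ˣ) * (g : (Matrix (Fin m) (Fin m) KK)ˣ))⁻¹ := by
    show (g : (Matrix (Fin m) (Fin m) KK)ˣ) * (g' : (Matrix (Fin m) (Fin m) KK)ˣ) *
      (g : (Matrix (Fin m) (Fin m) KK)ˣ)⁻¹ * (g' : (Matrix (Fin m) (Fin m) KK)ˣ)⁻¹ = _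
    rw [mul_inv_rev]
    group
  rw [e2, Units.val_mul, key, mul_assoc, Units.mul_inv, mul_one]

end Pool.Agent.W_bec814_h98
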