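import Pool.Agent.W_bec814_h98.RingT

/-!
# Counting
-/

set_option autoImplicit false

namespace Pool.Agent.W_bec814_h98

/-- the elements of order at least `0` at `T = 0`, `T = 1` and of degree less than `W` -/
noncomputable def LL (W : ℕ) : AddSubgroup KK := AF 0 0 ⊓ AF 1 0 ⊓ AF 2 (-(W : ℤ))

private theorem RingF_mem (W : ℕ) (r : KK) : r ∈ LL W ↔
    ∃ p ∈ Polynomial.degreeLT (ZMod 2) W, algebraMap (Polynomial (ZMod 2)) KK p = r := by
  constructor
  · rintro ⟨⟨h0, h1⟩, h2⟩
    obtain ⟨p, hp⟩ := pol_of h0 h1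
    refine ⟨p, ?_, hp⟩
    rw [Polynomial.mem_degreeLT]
    have h3 : r = 0 ∨ r.intDegree < -(-(W : ℤ)) := h2.2
    rw [neg_neg] at h3
    by_cases hp0 : p = 0
    · rw [hp0, Polynomial.degree_zero]
      exact WithBot.bot_lt_coe _
    · rcases h3 with h3 | h3
      · exfalso
        apply hp0
        have h4 : algebraMap (Polynomial (ZMod 2)) KK p = 0 := by rw [← h3]; exact hp
        exact (FaithfulSMul.algebraMap_eq_zero_iff _ _).1 h4
      · have h4 : r = algebraMap (Polynomial (ZMod 2)) KK p := hp.symm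
        rw [h4, RatFunc.intDegree_polynomial] at h3
        rw [Polynomial.degree_eq_natDegree hp0]
        exact_mod_cast h3
  · rintro ⟨p, hp, rfl⟩
    have hPl : algebraMap (Polynomial (ZMod 2)) KK p ∈ Pl := ⟨p, rfl⟩
    refine ⟨⟨?_, ?_⟩, ?_⟩
    · refine ⟨0, ?_⟩
      simpa using hPl
    · refine ⟨0, ?_⟩
      simpa using hPl
    · refine ⟨⟨0, 0, by simpa using hPl⟩, ?_⟩
      by_cases hp0 : p = 0
      · left
        rw [hp0, map_zero]
      · right
        rw [neg_neg, RatFunc.intDegree_polynomial]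
        rw [Polynomial.mem_degreeLT, Polynomial.degree_eq_natDegree hp0] at hp
        exact_mod_cast hp

/-- PROOF. `LL W` consists of the polynomials of degree less than `W` (`pol_of`, `RatFunc.intDegree_polynomial`), and
`Polynomial.degreeLT (ZMod 2) W` is isomorphic to `Fin W → ZMod 2`. -/
theorem card_LL (W : ℕ) : Nat.card (LL W) = 2 ^ W := by
  have hinj : Function.Injective (algebraMap (Polynomial (ZMod 2)) KK) :=
    FaithfulSMul.algebraMap_injective _ _
  let f : Polynomial.degreeLT (ZMod 2) W → LL W := fun p =>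
    ⟨algebraMap (Polynomial (ZMod 2)) KK p.1, (RingF_mem W _).2 ⟨p.1, p.2, rfl⟩⟩
  have hf : Function.Bijective f := by
    constructor
    · intro p p' h
      exact Subtype.ext (hinj (congrArg Subtype.val h))
    · rintro ⟨r, hr⟩
      obtain ⟨p, hp, hpr⟩ := (RingF_mem W r).1 hr
      exact ⟨⟨p, hp⟩, Subtype.ext hpr⟩
  rw [← Nat.card_congr (Equiv.ofBijective f hf),
    Nat.card_congr (Polynomial.degreeLTEquiv (ZMod 2) W).toEquiv, Nat.card_fun, Nat.card_zmod,
    Nat.card_fin]

/-- PROOF. It contains all powers of `tt`, which are different. -/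
theorem RR_infinite : Infinite RR := by
  have hmem : ∀ n : ℕ, tt ^ n ∈ RR := fun n => ⟨0, 0, by simpa using Pl.pow_mem tt_mem n⟩
  refine Infinite.of_injective (fun n : ℕ => (⟨tt ^ n, hmem n⟩ : RR)) ?_
  intro m n h
  have h1 : tt ^ m = tt ^ n := congrArg Subtype.val h
  have h2 : algebraMap (Polynomial (ZMod 2)) KK (Polynomial.X ^ m) =
      algebraMap (Polynomial (ZMod 2)) KK (Polynomial.X ^ n) := by
    rw [map_pow, map_pow, RatFunc.algebraMap_X]
    exact h1
  have h3 := FaithfulSMul.algebraMap_injective (Polynomial (ZMod 2)) KK h2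
  have h4 := congrArg Polynomial.natDegree h3
  rwa [Polynomial.natDegree_X_pow, Polynomial.natDegree_X_pow] at h4

end Pool.Agent.W_bec814_h98
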