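import Pool.Agent.W_bec814_h98.Der1
import Pool.Agent.W_bec814_h98.RingF

/-!
# Large derived length (Der2)
-/

set_option autoImplicit false

namespace Pool.Agent.W_bec814_h98

/-- PROOF. `R` is infinite (`RR_infinite`) and `K` has finite index: two elementary matrices with entries `r ≠ s` at
`(j, k)` are in the same coset of `K`; the quotient is the elementary matrix with entry `r - s` (or `s - r`). -/
theorem exists_el_mem {m : ℕ} (K : Subgroup (UHoro m).Gam) (hK : K.FiniteIndex) {j k : Fin m} (hjk : j < k) :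
    ∃ r : KK, r ≠ 0 ∧ ∃ g : NN m, IsEl m j k r g ∧ (SemidirectProduct.inl g : (UHoro m).Gam) ∈ K := by
  classical
  haveI := hK
  haveI : Infinite RR := RR_infinite
  choose G hG using fun r : RR => exists_elem (m := m) hjk r.2
  haveI : Finite ((UHoro m).Gam ⧸ K) := Subgroup.finite_quotient_of_finiteIndex
  obtain ⟨r, s, hrs, hq⟩ := Finite.exists_ne_map_eq_of_infinite
    (fun r : RR => (QuotientGroup.mk (SemidirectProduct.inl (G r) : (UHoro m).Gam) :
      (UHoro m).Gam ⧸ K))
  have h1 : (SemidirectProduct.inl (G r) : (UHoro m).Gam)⁻¹ *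
      (SemidirectProduct.inl (G s) : (UHoro m).Gam) ∈ K := QuotientGroup.eq.mp hq
  refine ⟨(s : KK) - r, ?_, (G r)⁻¹ * G s, ?_, ?_⟩
  · intro h0
    exact hrs (Subtype.ext (sub_eq_zero.mp h0).symm)
  · unfold IsEl
    have h2 : (((G r : NN m) : (Matrix (Fin m) (Fin m) KK)ˣ) : Matrix (Fin m) (Fin m) KK) *
        ((((G r)⁻¹ * G s : NN m) : (Matrix (Fin m) (Fin m) KK)ˣ) : Matrix (Fin m) (Fin m) KK) =
        (((G r : NN m) : (Matrix (Fin m) (Fin m) KK)ˣ) : Matrix (Fin m) (Fin m) KK) *
          (1 + Matrix.single j k ((s : KK) - r)) := by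
      rw [← Units.val_mul]
      have e1 : ((G r : NN m) : (Matrix (Fin m) (Fin m) KK)ˣ) *
          (((G r)⁻¹ * G s : NN m) : (Matrix (Fin m) (Fin m) KK)ˣ) =
          ((G s : NN m) : (Matrix (Fin m) (Fin m) KK)ˣ) := by
        rw [← Subgroup.coe_mul, mul_inv_cancel_left]
      rw [e1, hG, hG]
      rw [mul_add, mul_one, add_mul, one_mul,
        Matrix.single_mul_single_of_ne _ _ _ _ hjk.ne', add_zero, add_assoc,
        ← Matrix.single_add]
      congr 2
      ring
    exact ((G r : NN m) : (Matrix (Fin m) (Fin m) KK)ˣ).isUnit.mul_left_cancel h2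
  · rw [map_mul, map_inv]
    exact h1

/-- PROOF. By induction on `n`: for all `j < k` with `k = j + 2 ^ n` the image of `derivedSeries K n` in the whole group
contains `inl g` with `g` elementary at `(j, k)` with a non-zero entry: `n = 0` is `exists_el_mem`, the step is `IsEl_comm` with
the index `j + 2 ^ n` between. For `m > 2 ^ n` take `j = 0`, `k = 2 ^ n`: `derivedSeries K n` is not trivial. -/
theorem derived_ne (m n : ℕ) (hm : 2 ^ n < m) (K : Subgroup (UHoro m).Gam) (hK : K.FiniteIndex) :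
    derivedSeries K n ≠ ⊥ := by
  have key : ∀ n : ℕ, ∀ j k : Fin m, j < k → (k : ℕ) = j + 2 ^ n →
      ∃ r : KK, r ≠ 0 ∧ ∃ g : NN m, IsEl m j k r g ∧ ∃ z ∈ derivedSeries K n,
        ((z : K) : (UHoro m).Gam) = SemidirectProduct.inl g := by
    intro n
    induction n with
    | zero =>
      intro j k hjk _
      obtain ⟨r, hr, g, hg, hgK⟩ := exists_el_mem K hK hjk
      exact ⟨r, hr, g, hg, ⟨_, hgK⟩, by rw [derivedSeries_zero]; exact Subgroup.mem_top _, rfl⟩
    | succ n ih =>
      intro j k hjk hk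
      have h2 : (j : ℕ) + 2 ^ n < m := by
        have := k.isLt
        rw [hk, pow_succ] at this
        have h3 : 0 < 2 ^ n := by positivity
        omega
      have hp : 0 < 2 ^ n := by positivity
      set l : Fin m := ⟨(j : ℕ) + 2 ^ n, h2⟩ with hl
      have hjl : j < l := by
        rw [Fin.lt_def, hl]
        show (j : ℕ) < (j : ℕ) + 2 ^ n
        omega
      have hlk : l < k := by
        rw [Fin.lt_def, hl, hk, pow_succ]
        show (j : ℕ) + 2 ^ n < _
        omega
      obtain ⟨r, hr, g, hg, z, hz, hzg⟩ := ih j l hjl rfl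
      obtain ⟨s, hs, g', hg', z', hz', hzg'⟩ := ih l k hlk (by
        rw [hk, pow_succ, hl]
        show _ = (j : ℕ) + 2 ^ n + 2 ^ n
        ring)
      refine ⟨r * s, mul_ne_zero hr hs, g * g' * g⁻¹ * g'⁻¹, IsEl_comm hjl hlk hg hg', z * z' * z⁻¹ * z'⁻¹,
        ?_, ?_⟩
      · rw [derivedSeries_succ]
        exact Subgroup.commutator_mem_commutator hz hz'
      · push_cast
        rw [hzg, hzg', map_mul, map_mul, map_mul, map_inv, map_inv]
  intro hbot
  have hm0 : 0 < m := lt_of_le_of_lt (Nat.zero_le _) hm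
  have hp : 0 < 2 ^ n := by positivity
  obtain ⟨r, hr, g, hg, z, hz, hzg⟩ := key n ⟨0, hm0⟩ ⟨2 ^ n, hm⟩ hp (by simp)
  rw [hbot, Subgroup.mem_bot] at hz
  rw [hz] at hzg
  have h1 : g = 1 := by
    have h2 : (SemidirectProduct.inl g : (UHoro m).Gam) = SemidirectProduct.inl 1 := by
      rw [← hzg, map_one]; rfl
    exact SemidirectProduct.inl_injective h2
  unfold IsEl at hg
  rw [h1] at hg
  have h3 := congrFun (congrFun hg ⟨0, hm0⟩) ⟨2 ^ n, hm⟩
  have h4 : (⟨0, hm0⟩ : Fin m) ≠ ⟨2 ^ n, hm⟩ := by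
    intro h5
    have := congrArg Fin.val h5
    simp only at this
    omega
  simp [h4] at h3
  exact hr h3.symm

end Pool.Agent.W_bec814_h98
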