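import Mathlib

/-!
# Digits for a filtration
-/

set_option autoImplicit false

namespace Pool.Agent.W_bec814_h98

/-- DIGITS. Let `F : ℤ → Subgroup N` be decreasing and exhausting, and let the cosets of `F (h + 1)` in `F h` be
labelled by `Fin q`, the trivial one by `0`. Then there are digit functions `dig : ℤ → N → Fin q` with
(D1) `x⁻¹ * y ∈ F h` iff the digits of `x` and `y` below `h` agree; (D2) every sequence which vanishes far to the left
is, below a given `h`, the digit sequence of some `x`; (D3) the digits of `x` vanish far to the left.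
PROOF. For every `h` choose representatives `c : N ⧸ F h → N` of the left cosets with `c (1 F h) = 1`, and put
`dig h x = e h ((c (x F h))⁻¹ * x)`. If `x⁻¹ * y ∈ F h` then `x, y` have the same `c`, and
`dig h x = dig h y ↔ x⁻¹ * y ∈ F (h + 1)`. (D1, →) `F h ≤ F (j + 1)` for `j < h`. (D1, ←) `x⁻¹ * y ∈ F k` for some `k ≤ h`
(`exh`), then induction upwards. (D3) if `x ∈ F k` then `dig j x = dig j 1 = 0` for `j < k`. (D2) with `a j = 0` for `j < k`:
`x_k = 1`, and given `x_j` with the right digits below `j` take `x_(j+1) = c * z`, `c` the representative of `x_j F j` and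
`z ∈ F j` with `e j z = a j`. -/
theorem exists_digits {N : Type} [Group N] (q : ℕ) [NeZero q] (F : ℤ → Subgroup N)
    (hanti : ∀ h, F (h + 1) ≤ F h) (hexh : ∀ x, ∃ h, x ∈ F h)
    (hlab : ∀ h : ℤ, ∃ e : N → Fin q,
      (∀ x ∈ F h, ∀ y ∈ F h, (e x = e y ↔ x⁻¹ * y ∈ F (h + 1))) ∧ (∀ c, ∃ x ∈ F h, e x = c) ∧ e 1 = 0) :
    ∃ dig : ℤ → N → Fin q, (∀ x y h, x⁻¹ * y ∈ F h ↔ ∀ j, j < h → dig j x = dig j y) ∧
      (∀ a : ℤ → Fin q, (∃ k, ∀ j, j < k → a j = 0) → ∀ h, ∃ x, ∀ j, j < h → dig j x = a j) ∧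
      (∀ x, ∃ k, ∀ j, j < k → dig j x = 0) := by
  classical
  choose e he1 he2 he3 using hlab
  have hmono : ∀ h h' : ℤ, h ≤ h' → F h' ≤ F h := by
    intro h h' hh
    induction h', hh using Int.leInduction with
    | base => exact le_rfl
    | succ n _ ih => exact (hanti n).trans ih
  let cq : (h : ℤ) → N ⧸ F h → N := fun h w => if w = ((1 : N) : N ⧸ F h) then 1 else w.out
  have hcq : ∀ h (w : N ⧸ F h), ((cq h w : N) : N ⧸ F h) = w := by
    intro h w
    simp only [cq]
    split_ifs with hw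
    · exact hw.symm
    · exact QuotientGroup.out_eq' w
  let c : ℤ → N → N := fun h x => cq h (x : N ⧸ F h)
  have hc1 : ∀ h x, (c h x)⁻¹ * x ∈ F h := by
    intro h x
    exact QuotientGroup.eq.mp (hcq h (x : N ⧸ F h))
  have hc2 : ∀ h x y, x⁻¹ * y ∈ F h → c h x = c h y := by
    intro h x y hxy
    have : (x : N ⧸ F h) = (y : N ⧸ F h) := QuotientGroup.eq.mpr hxy
    simp only [c, this]
  have hc3 : ∀ h, c h 1 = 1 := by
    intro h
    simp only [c, cq, if_true]
  let dig : ℤ → N → Fin q := fun h x => e h ((c h x)⁻¹ * x)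
  have hK : ∀ x y h, x⁻¹ * y ∈ F h → (dig h x = dig h y ↔ x⁻¹ * y ∈ F (h + 1)) := by
    intro x y h hxy
    have h1 := he1 h ((c h x)⁻¹ * x) (hc1 h x) ((c h y)⁻¹ * y) (hc1 h y)
    have h2 : ((c h x)⁻¹ * x)⁻¹ * ((c h y)⁻¹ * y) = x⁻¹ * y := by
      rw [hc2 h x y hxy]
      group
    rw [h2] at h1
    exact h1
  have hD1 : ∀ x y h, x⁻¹ * y ∈ F h ↔ ∀ j, j < h → dig j x = dig j y := by
    intro x y h
    constructor
    · intro hxy j hj
      have h1 : x⁻¹ * y ∈ F (j + 1) := hmono (j + 1) h (by omega) hxy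
      exact (hK x y j (hanti j h1)).mpr h1
    · intro hd
      obtain ⟨k, hk⟩ := hexh (x⁻¹ * y)
      rcases le_total h k with hhk | hkh
      · exact hmono h k hhk hk
      · have key : ∀ n : ℤ, k ≤ n → n ≤ h → x⁻¹ * y ∈ F n := by
          intro n hn
          induction n, hn using Int.leInduction with
          | base => exact fun _ => hk
          | succ n _ ih =>
            intro hnh
            exact (hK x y n (ih (by omega))).mp (hd n (by omega))
        exact key h hkh le_rfl
  have hdig1 : ∀ j, dig j 1 = 0 := by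
    intro j
    simp only [dig, hc3]
    rw [inv_one, one_mul]
    exact he3 j
  refine ⟨dig, hD1, ?_, ?_⟩
  · rintro a ⟨k, hk⟩ h
    rcases le_total h k with hhk | hkh
    · exact ⟨1, fun j hj => by rw [hdig1, hk j (by omega)]⟩
    · induction h, hkh using Int.leInduction with
      | base => exact ⟨1, fun j hj => by rw [hdig1, hk j hj]⟩
      | succ n _ ih =>
        obtain ⟨x, hx⟩ := ih
        obtain ⟨z, hz, hez⟩ := he2 n (a n)
        have h1 : x⁻¹ * (c n x * z) ∈ F n := by
          have h2 : x⁻¹ * (c n x * z) = ((c n x)⁻¹ * x)⁻¹ * z := by group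
          rw [h2]
          exact (F n).mul_mem ((F n).inv_mem (hc1 n x)) hz
        refine ⟨c n x * z, fun j hj => ?_⟩
        rcases lt_or_eq_of_le (Int.lt_add_one_iff.mp hj) with hjn | rfl
        · rw [← (hD1 x (c n x * z) n).mp h1 j hjn]
          exact hx j hjn
        · simp only [dig]
          rw [← hc2 j x (c j x * z) h1, inv_mul_cancel_left]
          exact hez
  · intro x
    obtain ⟨k, hk⟩ := hexh x
    refine ⟨k, fun j hj => ?_⟩
    have h1 : (1 : N)⁻¹ * x ∈ F k := by rw [inv_one, one_mul]; exact hk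
    rw [← (hD1 1 x k).mp h1 j hj, hdig1]

end Pool.Agent.W_bec814_h98
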