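import Pool.Agent.W_bec814_h98.Basic

/-!
# The group is the colimit of the subgroups with sum of heights at least -2 (Ext1)
-/

set_option autoImplicit false

namespace Pool.Agent.W_bec814_h98

variable {N : Type} [Group N] (D : Horo N)

/-- UNIQUENESS. Two functions `g, g' : N → L` which are multiplicative on `M h` and agree on all `M k`
with `h ≤ k` and sum of `k` equal to `-1` (or at least `-2`) agree on `M h`.
PROOF. Induction on `n = - (sum of h)`; `n ≤ 2`: trivial (`k = h`, or `M h = 1` if `n < 1`; `g 1 = 1` by multiplicativity).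
`n ≥ 3`: `x = a * b` with `a ∈ M (h + e_0)`, `b ∈ M (h + e_1)` (`M_split`). -/
theorem hom_unique {L : Type} [Group L] (g g' : N → L) (h : Fin 3 → ℤ)
    (hg : ∀ x ∈ D.M h, ∀ y ∈ D.M h, g (x * y) = g x * g y)
    (hg' : ∀ x ∈ D.M h, ∀ y ∈ D.M h, g' (x * y) = g' x * g' y)
    (hk : ∀ k : Fin 3 → ℤ, (∀ i, h i ≤ k i) → -2 ≤ k 0 + k 1 + k 2 → ∀ x ∈ D.M k, g x = g' x) :
    ∀ x ∈ D.M h, g x = g' x := by
  obtain ⟨n, hn⟩ : ∃ n : ℕ, -(h 0 + h 1 + h 2) ≤ (n : ℤ) := ⟨(-(h 0 + h 1 + h 2)).toNat,
    Int.self_le_toNat _⟩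
  induction n generalizing h with
  | zero =>
    refine hk h (fun i => le_refl _) ?_
    push_cast at hn
    linarith
  | succ n ih =>
    by_cases h2 : -2 ≤ h 0 + h 1 + h 2
    · exact hk h (fun i => le_refl _) h2
    · push Not at h2
      push_cast at hn
      intro x hx
      obtain ⟨a, ha, b, hb, rfl⟩ := M_split D (h := h) (u := ![1, 0, 0]) (w := ![0, 1, 0])
        (by intro i; fin_cases i <;> simp) (by intro i; fin_cases i <;> simp)
        (by intro i; fin_cases i <;> simp) (by simp; linarith) hx
      have hua : ∀ i, h i ≤ h i + (![1, 0, 0] : Fin 3 → ℤ) i := by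
        intro i
        fin_cases i <;> simp
      have hub : ∀ i, h i ≤ h i + (![0, 1, 0] : Fin 3 → ℤ) i := by
        intro i
        fin_cases i <;> simp
      have ha' := M_anti D hua ha
      have hb' := M_anti D hub hb
      have e1 : g a = g' a := by
        refine ih (fun i => h i + (![1, 0, 0] : Fin 3 → ℤ) i)
          (fun x hx y hy => hg x (M_anti D hua hx) y (M_anti D hua hy))
          (fun x hx y hy => hg' x (M_anti D hua hx) y (M_anti D hua hy))
          (fun k hk1 hk2 => hk k (fun i => (hua i).trans (hk1 i)) hk2) ?_ a ha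
        simp
        linarith
      have e2 : g b = g' b := by
        refine ih (fun i => h i + (![0, 1, 0] : Fin 3 → ℤ) i)
          (fun x hx y hy => hg x (M_anti D hub hx) y (M_anti D hub hy))
          (fun x hx y hy => hg' x (M_anti D hub hx) y (M_anti D hub hy))
          (fun k hk1 hk2 => hk k (fun i => (hub i).trans (hk1 i)) hk2) ?_ b hb
        simp
        linarith
      rw [hg a ha' b hb', hg' a ha' b hb', e1, e2]

end Pool.Agent.W_bec814_h98
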