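import Mathlib

/-!
# Gluing homomorphisms along three subgroups
-/

set_option autoImplicit false

namespace Pool.Agent.W_bec814_h98

/-- Let `G0, G1, G2 ≤ K` be subgroups of `N` with the four factorisations below, and let `f : N → L` be
multiplicative on each of `G0, G1, G2`. Then some `g : N → L` is multiplicative on `K` and agrees with `f` on
`G0, G1, G2`.
PROOF. For `x ∈ K` choose `x = y * z` as in `h0` and put `g x = f y * f z`. WELL DEFINED (for every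
decomposition): if `y * z = y' * z'` then `y'⁻¹ * y = z' * z⁻¹ ∈ G0 ⊓ G1 ⊓ G2`, so
`f y * f z = f y' * f (y'⁻¹ * y) * f z = f y' * f z'` (multiplicativity on `G0` and on `G1`). Hence
(i) `g = f` on `G0`, `G1`, `G2` and (ii) `g (a * x) = f a * g x` for `a ∈ G0`, `x ∈ K`.
(iii) For `x ∈ K` there are `a' ∈ G1`, `b' ∈ G0 ⊓ G2` with `x = a' * b'` and `g x = f a' * f b'`: write `x = y * z` (`h0`),
`y = a * b` with `a ∈ G0 ⊓ G1`, `b ∈ G0 ⊓ G2` (`h2`), `b * z ∈ G2`, `b * z = y' * b'` with `y' ∈ G1 ⊓ G2`, `b' ∈ G0 ⊓ G2` (`h3`); then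
`g x = f y f z = f a f b f z = f a f (b z) = f a f y' f b' = f (a y') f b'`. As the decompositions `x = a' * b'`,
`a' ∈ G1`, `b' ∈ G0 ⊓ G2` all give the same value (as in WELL DEFINED), (iv) `g (a * x) = f a * g x` for `a ∈ G1`, `x ∈ K`.
(v) By `h0` every element of `K` is a product of an element of `G0` and one of `G1`, so (ii), (iv) give
`g (x * x') = g x * g x'` for `x, x' ∈ K`. -/
theorem glue {N L : Type} [Group N] [Group L] (K G0 G1 G2 : Subgroup N)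
    (hK0 : G0 ≤ K) (hK1 : G1 ≤ K) (hK2 : G2 ≤ K)
    (h0 : ∀ x ∈ K, ∃ y ∈ G0, ∃ z ∈ G1 ⊓ G2, x = y * z)
    (h1 : ∀ x ∈ K, ∃ y ∈ G1, ∃ z ∈ G0 ⊓ G2, x = y * z)
    (h2 : ∀ x ∈ G0, ∃ a ∈ G0 ⊓ G1, ∃ b ∈ G0 ⊓ G2, x = a * b)
    (h3 : ∀ x ∈ G2, ∃ a ∈ G1 ⊓ G2, ∃ b ∈ G0 ⊓ G2, x = a * b)
    (f : N → L) (hf0 : ∀ x ∈ G0, ∀ y ∈ G0, f (x * y) = f x * f y)
    (hf1 : ∀ x ∈ G1, ∀ y ∈ G1, f (x * y) = f x * f y)
    (hf2 : ∀ x ∈ G2, ∀ y ∈ G2, f (x * y) = f x * f y) :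
    ∃ g : N → L, (∀ x ∈ K, ∀ y ∈ K, g (x * y) = g x * g y) ∧
      (∀ x ∈ G0, g x = f x) ∧ (∀ x ∈ G1, g x = f x) ∧ (∀ x ∈ G2, g x = f x) := by
  classical
  have f1 : f 1 = 1 := by
    have h := hf0 1 (one_mem _) 1 (one_mem _)
    rw [mul_one] at h
    exact left_eq_mul.mp h
  -- well defined, first kind
  have wdA : ∀ y ∈ G0, ∀ z ∈ G1 ⊓ G2, ∀ y' ∈ G0, ∀ z' ∈ G1 ⊓ G2, y * z = y' * z' →
      f y * f z = f y' * f z' := by
    intro y hy z hz y' hy' z' hz' h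
    have ht : y'⁻¹ * y = z' * z⁻¹ := by
      rw [eq_mul_inv_iff_mul_eq, mul_assoc, h, inv_mul_cancel_left]
    have t0 : y'⁻¹ * y ∈ G0 := mul_mem (inv_mem hy') hy
    have t1 : y'⁻¹ * y ∈ G1 := by
      rw [ht]
      exact mul_mem hz'.1 (inv_mem hz.1)
    have e1 : f y = f y' * f (y'⁻¹ * y) := by
      rw [← hf0 _ hy' _ t0, mul_inv_cancel_left]
    have e2 : f z' = f (y'⁻¹ * y) * f z := by
      rw [← hf1 _ t1 _ hz.1, ht, inv_mul_cancel_right]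
    rw [e1, e2, mul_assoc]
  -- well defined, second kind
  have wdB : ∀ y ∈ G1, ∀ z ∈ G0 ⊓ G2, ∀ y' ∈ G1, ∀ z' ∈ G0 ⊓ G2, y * z = y' * z' →
      f y * f z = f y' * f z' := by
    intro y hy z hz y' hy' z' hz' h
    have ht : y'⁻¹ * y = z' * z⁻¹ := by
      rw [eq_mul_inv_iff_mul_eq, mul_assoc, h, inv_mul_cancel_left]
    have t1 : y'⁻¹ * y ∈ G1 := mul_mem (inv_mem hy') hy
    have t0 : y'⁻¹ * y ∈ G0 := by
      rw [ht]
      exact mul_mem hz'.1 (inv_mem hz.1)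
    have e1 : f y = f y' * f (y'⁻¹ * y) := by
      rw [← hf1 _ hy' _ t1, mul_inv_cancel_left]
    have e2 : f z' = f (y'⁻¹ * y) * f z := by
      rw [← hf0 _ t0 _ hz.1, ht, inv_mul_cancel_right]
    rw [e1, e2, mul_assoc]
  -- the function
  have hex : ∃ g : N → L, ∀ x ∈ K, ∀ y ∈ G0, ∀ z ∈ G1 ⊓ G2, x = y * z → g x = f y * f z := by
    choose Y hY Z hZ hYZ using h0
    refine ⟨fun x => if h : x ∈ K then f (Y x h) * f (Z x h) else 1, ?_⟩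
    intro x hx y hy z hz hxyz
    simp only [dif_pos hx]
    exact wdA _ (hY x hx) _ (hZ x hx) _ hy _ hz (by rw [← hYZ x hx, hxyz])
  obtain ⟨g, hg⟩ := hex
  have g0 : ∀ x ∈ G0, g x = f x := by
    intro x hx
    rw [hg x (hK0 hx) x hx 1 (one_mem _) (mul_one x).symm, f1, mul_one]
  have g1 : ∀ x ∈ G1, g x = f x := by
    intro x hx
    obtain ⟨y, hy, z, hz, hxyz⟩ := h0 x (hK1 hx)
    have hy1 : y ∈ G1 := by
      have : y = x * z⁻¹ := by rw [hxyz, mul_inv_cancel_right]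
      rw [this]
      exact mul_mem hx (inv_mem hz.1)
    rw [hg x (hK1 hx) y hy z hz hxyz, hxyz, hf1 y hy1 z hz.1]
  have g2 : ∀ x ∈ G2, g x = f x := by
    intro x hx
    obtain ⟨y, hy, z, hz, hxyz⟩ := h0 x (hK2 hx)
    have hy2 : y ∈ G2 := by
      have : y = x * z⁻¹ := by rw [hxyz, mul_inv_cancel_right]
      rw [this]
      exact mul_mem hx (inv_mem hz.2)
    rw [hg x (hK2 hx) y hy z hz hxyz, hxyz, hf2 y hy2 z hz.2]
  have gl0 : ∀ a ∈ G0, ∀ x ∈ K, g (a * x) = f a * g x := by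
    intro a ha x hx
    obtain ⟨y, hy, z, hz, hxyz⟩ := h0 x hx
    rw [hg x hx y hy z hz hxyz, hg (a * x) (mul_mem (hK0 ha) hx) (a * y) (mul_mem ha hy) z hz
      (by rw [hxyz, mul_assoc]), hf0 a ha y hy, mul_assoc]
  have hgB : ∀ x ∈ K, ∃ a' ∈ G1, ∃ b' ∈ G0 ⊓ G2, x = a' * b' ∧ g x = f a' * f b' := by
    intro x hx
    obtain ⟨y, hy, z, hz, hxyz⟩ := h0 x hx
    obtain ⟨a, ha, b, hb, hyab⟩ := h2 y hy
    obtain ⟨y', hy', b', hb', hbz⟩ := h3 (b * z) (mul_mem hb.2 hz.2)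
    refine ⟨a * y', mul_mem ha.2 hy'.1, b', hb', ?_, ?_⟩
    · rw [hxyz, hyab, mul_assoc, hbz, mul_assoc]
    · rw [hg x hx y hy z hz hxyz, hyab, hf0 a ha.1 b hb.1, mul_assoc, ← hf2 b hb.2 z hz.2, hbz,
        hf2 y' hy'.2 b' hb'.2, ← mul_assoc, ← hf1 a ha.2 y' hy'.1]
  have hgB' : ∀ x ∈ K, ∀ y ∈ G1, ∀ z ∈ G0 ⊓ G2, x = y * z → g x = f y * f z := by
    intro x hx y hy z hz hxyz
    obtain ⟨a', ha', b', hb', hxab, hgx⟩ := hgB x hx
    rw [hgx]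
    exact wdB _ ha' _ hb' _ hy _ hz (by rw [← hxab, hxyz])
  have gl1 : ∀ a ∈ G1, ∀ x ∈ K, g (a * x) = f a * g x := by
    intro a ha x hx
    obtain ⟨a', ha', b', hb', hxab, hgx⟩ := hgB x hx
    rw [hgB' (a * x) (mul_mem (hK1 ha) hx) (a * a') (mul_mem ha ha') b' hb'
      (by rw [hxab, mul_assoc]), hf1 a ha a' ha', hgx, mul_assoc]
  refine ⟨g, ?_, g0, g1, g2⟩
  intro x hx x' hx'
  obtain ⟨y, hy, z, hz, hxyz⟩ := h0 x hx
  rw [hg x hx y hy z hz hxyz, hxyz, mul_assoc, gl0 y hy (z * x') (mul_mem (hK1 hz.1) hx'),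
    gl1 z hz.1 x' hx', mul_assoc]

end Pool.Agent.W_bec814_h98
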