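import Pool.Agent.W_bec814_h98.Ext1
import Pool.Agent.W_bec814_h98.Glue

/-!
# The group is the colimit of the subgroups with sum of heights at least -2 (Ext2)
-/

set_option autoImplicit false

namespace Pool.Agent.W_bec814_h98

variable {N : Type} [Group N] (D : Horo N)

/-- the unit vector -/
private def ee (i : Fin 3) : Fin 3 → ℤ := fun j => if j = i then 1 else 0

private lemma ee_nn (i j : Fin 3) : 0 ≤ ee i j := by
  unfold ee
  split_ifs <;> norm_num

/-- raise the height `i` -/
private def up (h : Fin 3 → ℤ) (i : Fin 3) : Fin 3 → ℤ := fun j => h j + ee i j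

private lemma up_sum (h : Fin 3 → ℤ) (i : Fin 3) :
    up h i 0 + up h i 1 + up h i 2 = h 0 + h 1 + h 2 + 1 := by
  unfold up ee
  fin_cases i <;> simp <;> ring

private lemma le_up (h : Fin 3 → ℤ) (i j : Fin 3) : h j ≤ up h i j := by
  have := ee_nn i j
  unfold up
  linarith

private lemma M_up_le (h : Fin 3 → ℤ) (i : Fin 3) : D.M (up h i) ≤ D.M h :=
  M_anti D (le_up h i)

private lemma mem_up_up {h : Fin 3 → ℤ} {i j : Fin 3} (hij : i ≠ j) {x : N}
    (hi : x ∈ D.M (up h i)) (hj : x ∈ D.M (up h j)) : x ∈ D.M (up (up h i) j) := by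
  rw [mem_M] at hi hj ⊢
  intro k
  by_cases hk : k = j
  · subst hk
    have h1 := hj k
    have e : up (up h i) k k = up h k k := by
      unfold up ee
      rw [if_neg (Ne.symm hij), if_pos rfl]
      ring
    rw [e]
    exact h1
  · have h1 := hi k
    have e : up (up h i) j k = up h i k := by
      show up h i k + ee j k = _
      unfold ee
      rw [if_neg hk, add_zero]
    rw [e]
    exact h1

private lemma agree {L : Type} [Group L] (f : N → L) (h : Fin 3 → ℤ) (gi gj : N → L) {i j : Fin 3}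
    (hij : i ≠ j)
    (hgi : ∀ x ∈ D.M (up h i), ∀ y ∈ D.M (up h i), gi (x * y) = gi x * gi y)
    (hgj : ∀ x ∈ D.M (up h j), ∀ y ∈ D.M (up h j), gj (x * y) = gj x * gj y)
    (hfi : ∀ k : Fin 3 → ℤ, (∀ l, up h i l ≤ k l) → -2 ≤ k 0 + k 1 + k 2 →
      ∀ x ∈ D.M k, gi x = f x)
    (hfj : ∀ k : Fin 3 → ℤ, (∀ l, up h j l ≤ k l) → -2 ≤ k 0 + k 1 + k 2 →
      ∀ x ∈ D.M k, gj x = f x) {x : N} (hxi : x ∈ D.M (up h i)) (hxj : x ∈ D.M (up h j)) :
    gi x = gj x := by
  have hle1 : ∀ l, up h i l ≤ up (up h i) j l := le_up _ _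
  have hle2 : ∀ l, up h j l ≤ up (up h i) j l := by
    intro l
    have := ee_nn i l
    unfold up
    linarith
  have hs1 : D.M (up (up h i) j) ≤ D.M (up h i) := M_anti D hle1
  have hs2 : D.M (up (up h i) j) ≤ D.M (up h j) := M_anti D hle2
  refine hom_unique D gi gj (up (up h i) j) (fun a ha b hb => hgi a (hs1 ha) b (hs1 hb))
    (fun a ha b hb => hgj a (hs2 ha) b (hs2 hb)) ?_ x (mem_up_up D hij hxi hxj)
  intro k hk hsum y hy
  rw [hfi k (fun l => (hle1 l).trans (hk l)) hsum y hy,
    hfj k (fun l => (hle2 l).trans (hk l)) hsum y hy]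

/-- EXISTENCE at one `h`. Let `f` be multiplicative on all `M k` with sum of `k` at least `-2`. For every `h` there
is `g` multiplicative on `M h` and equal to `f` on all `M k`, `h ≤ k`, sum of `k` at least `-2`.
PROOF. Induction on `n = - (sum of h)`. `n ≤ 2`: `g = f`. `n ≥ 3`: let `g_i` (`i = 0, 1, 2`) be the functions of the
induction hypothesis for `h + e_i`; by `hom_unique` `g_i = g_j` on `M (h + e_i + e_j) = M (h + e_i) ⊓ M (h + e_j)`. Let
`f' x = g_0 x` if `x ∈ M (h + e_0)`, else `g_1 x` if `x ∈ M (h + e_1)`, else `g_2 x`; it agrees with `g_i` on `M (h + e_i)`.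
Apply `glue` with `K = M h`, `G_i = M (h + e_i)`; the four factorisations are `M_split` (sums `≤ 0` because `n ≥ 3`).
If `h ≤ k` and the sum of `k` is `≥ -2 > ` sum of `h` then `h + e_i ≤ k` for some `i`. -/
theorem hom_exists {L : Type} [Group L] (f : N → L)
    (hf : ∀ k : Fin 3 → ℤ, -2 ≤ k 0 + k 1 + k 2 → ∀ x ∈ D.M k, ∀ y ∈ D.M k, f (x * y) = f x * f y)
    (h : Fin 3 → ℤ) :
    ∃ g : N → L, (∀ x ∈ D.M h, ∀ y ∈ D.M h, g (x * y) = g x * g y) ∧
      ∀ k : Fin 3 → ℤ, (∀ i, h i ≤ k i) → -2 ≤ k 0 + k 1 + k 2 → ∀ x ∈ D.M k, g x = f x := by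
  classical
  obtain ⟨n, hn⟩ : ∃ n : ℕ, -(h 0 + h 1 + h 2) ≤ (n : ℤ) + 2 :=
    ⟨(-(h 0 + h 1 + h 2)).toNat, by have := Int.self_le_toNat (-(h 0 + h 1 + h 2)); linarith⟩
  induction n generalizing h with
  | zero =>
    refine ⟨f, hf h ?_, fun _ _ _ _ _ => rfl⟩
    push_cast at hn
    linarith
  | succ n ih =>
    by_cases hb : -2 ≤ h 0 + h 1 + h 2
    · exact ⟨f, hf h hb, fun _ _ _ _ _ => rfl⟩
    have hs3 : h 0 + h 1 + h 2 ≤ -3 := by omega
    have hIH : ∀ i, ∃ g : N → L,
        (∀ x ∈ D.M (up h i), ∀ y ∈ D.M (up h i), g (x * y) = g x * g y) ∧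
        ∀ k : Fin 3 → ℤ, (∀ l, up h i l ≤ k l) → -2 ≤ k 0 + k 1 + k 2 →
          ∀ x ∈ D.M k, g x = f x := by
      intro i
      apply ih
      rw [up_sum]
      push_cast at hn
      linarith
    choose g hg1 hg2 using hIH
    set f' : N → L := fun x => if x ∈ D.M (up h 0) then g 0 x else
      if x ∈ D.M (up h 1) then g 1 x else g 2 x with hf'
    have hag : ∀ i j : Fin 3, i ≠ j → ∀ x, x ∈ D.M (up h i) → x ∈ D.M (up h j) → g i x = g j x :=
      fun i j hij x hxi hxj =>
        agree D f h (g i) (g j) hij (hg1 i) (hg1 j) (hg2 i) (hg2 j) hxi hxj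
    have e0 : ∀ x ∈ D.M (up h 0), f' x = g 0 x := by
      intro x hx
      show (if x ∈ D.M (up h 0) then g 0 x else if x ∈ D.M (up h 1) then g 1 x else g 2 x) = _
      rw [if_pos hx]
    have e1 : ∀ x ∈ D.M (up h 1), f' x = g 1 x := by
      intro x hx
      show (if x ∈ D.M (up h 0) then g 0 x else if x ∈ D.M (up h 1) then g 1 x else g 2 x) = _
      by_cases h0 : x ∈ D.M (up h 0)
      · rw [if_pos h0]
        exact hag 0 1 (by decide) x h0 hx
      · rw [if_neg h0, if_pos hx]
    have e2 : ∀ x ∈ D.M (up h 2), f' x = g 2 x := by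
      intro x hx
      show (if x ∈ D.M (up h 0) then g 0 x else if x ∈ D.M (up h 1) then g 1 x else g 2 x) = _
      by_cases h0 : x ∈ D.M (up h 0)
      · rw [if_pos h0]
        exact hag 0 2 (by decide) x h0 hx
      · rw [if_neg h0]
        by_cases h1 : x ∈ D.M (up h 1)
        · rw [if_pos h1]
          exact hag 1 2 (by decide) x h1 hx
        · rw [if_neg h1]
    have hmul : ∀ i, (∀ x ∈ D.M (up h i), f' x = g i x) →
        ∀ x ∈ D.M (up h i), ∀ y ∈ D.M (up h i), f' (x * y) = f' x * f' y := by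
      intro i he x hx y hy
      rw [he x hx, he y hy, he _ (mul_mem hx hy)]
      exact hg1 i x hx y hy
    have H0 : ∀ x ∈ D.M h, ∃ y ∈ D.M (up h 0),
        ∃ z ∈ D.M (up h 1) ⊓ D.M (up h 2), x = y * z := by
      intro x hx
      obtain ⟨a, ha, b, hb, rfl⟩ := M_split D (h := h) (u := ee 0) (w := fun i => ee 1 i + ee 2 i)
        (ee_nn 0) (fun i => add_nonneg (ee_nn 1 i) (ee_nn 2 i))
        (by intro i; fin_cases i <;> simp [ee]) (by simp [ee]; linarith) hx
      refine ⟨a, ha, b, ⟨M_anti D (fun i => ?_) hb, M_anti D (fun i => ?_) hb⟩, rfl⟩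
      · have := ee_nn 2 i
        unfold up
        linarith
      · have := ee_nn 1 i
        unfold up
        linarith
    have H1 : ∀ x ∈ D.M h, ∃ y ∈ D.M (up h 1),
        ∃ z ∈ D.M (up h 0) ⊓ D.M (up h 2), x = y * z := by
      intro x hx
      obtain ⟨a, ha, b, hb, rfl⟩ := M_split D (h := h) (u := ee 1) (w := fun i => ee 0 i + ee 2 i)
        (ee_nn 1) (fun i => add_nonneg (ee_nn 0 i) (ee_nn 2 i))
        (by intro i; fin_cases i <;> simp [ee]) (by simp [ee]; linarith) hx
      refine ⟨a, ha, b, ⟨M_anti D (fun i => ?_) hb, M_anti D (fun i => ?_) hb⟩, rfl⟩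
      · have := ee_nn 2 i
        unfold up
        linarith
      · have := ee_nn 0 i
        unfold up
        linarith
    have H2 : ∀ x ∈ D.M (up h 0), ∃ a ∈ D.M (up h 0) ⊓ D.M (up h 1),
        ∃ b ∈ D.M (up h 0) ⊓ D.M (up h 2), x = a * b := by
      intro x hx
      obtain ⟨a, ha, b, hb, rfl⟩ := M_split D (h := up h 0) (u := ee 1) (w := ee 2)
        (ee_nn 1) (ee_nn 2) (by intro i; fin_cases i <;> simp [ee])
        (by simp [up, ee]; linarith) hx
      refine ⟨a, ⟨M_anti D (fun i => ?_) ha, M_anti D (fun i => ?_) ha⟩,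
        b, ⟨M_anti D (fun i => ?_) hb, M_anti D (fun i => ?_) hb⟩, rfl⟩
      · have := ee_nn 1 i
        linarith
      · have := ee_nn 0 i
        unfold up
        linarith
      · have := ee_nn 2 i
        linarith
      · have := ee_nn 0 i
        unfold up
        linarith
    have H3 : ∀ x ∈ D.M (up h 2), ∃ a ∈ D.M (up h 1) ⊓ D.M (up h 2),
        ∃ b ∈ D.M (up h 0) ⊓ D.M (up h 2), x = a * b := by
      intro x hx
      obtain ⟨a, ha, b, hb, rfl⟩ := M_split D (h := up h 2) (u := ee 1) (w := ee 0)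
        (ee_nn 1) (ee_nn 0) (by intro i; fin_cases i <;> simp [ee])
        (by simp [up, ee]; linarith) hx
      refine ⟨a, ⟨M_anti D (fun i => ?_) ha, M_anti D (fun i => ?_) ha⟩,
        b, ⟨M_anti D (fun i => ?_) hb, M_anti D (fun i => ?_) hb⟩, rfl⟩
      · have := ee_nn 2 i
        unfold up
        linarith
      · have := ee_nn 1 i
        linarith
      · have := ee_nn 2 i
        unfold up
        linarith
      · have := ee_nn 0 i
        linarith
    obtain ⟨G, hG, hG0, hG1, hG2⟩ := glue (D.M h) (D.M (up h 0)) (D.M (up h 1)) (D.M (up h 2))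
      (M_up_le D h 0) (M_up_le D h 1) (M_up_le D h 2) H0 H1 H2 H3 f' (hmul 0 e0) (hmul 1 e1)
      (hmul 2 e2)
    refine ⟨G, hG, ?_⟩
    intro k hk hsum x hx
    obtain ⟨i, hi⟩ : ∃ i, ∀ l, up h i l ≤ k l := by
      by_contra hcon
      push Not at hcon
      have hki : ∀ i, k i ≤ h i := by
        intro i
        obtain ⟨l, hl⟩ := hcon i
        by_cases hli : l = i
        · subst hli
          have : up h l l = h l + 1 := by
            unfold up ee
            rw [if_pos rfl]
          rw [this] at hl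
          linarith
        · exfalso
          have : up h i l = h l := by
            unfold up ee
            rw [if_neg hli, add_zero]
          rw [this] at hl
          have := hk l
          linarith
      have h0 := hki 0
      have h1 := hki 1
      have h2 := hki 2
      linarith
    have hxi : x ∈ D.M (up h i) := M_anti D hi hx
    have hgi := hg2 i k hi hsum x hx
    have hcase : G x = g i x := by
      fin_cases i
      · exact (hG0 x hxi).trans (e0 x hxi)
      · exact (hG1 x hxi).trans (e1 x hxi)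
      · exact (hG2 x hxi).trans (e2 x hxi)
    rw [hcase, hgi]

end Pool.Agent.W_bec814_h98
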