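import Pool.Agent.W_bec814_h98.Ext2

/-!
# The group is the colimit of the subgroups with sum of heights at least -2 (Ext3)
-/

set_option autoImplicit false

namespace Pool.Agent.W_bec814_h98

variable {N : Type} [Group N] (D : Horo N)

/-- COLIMIT. A function `f` which is multiplicative on all `M k` with sum of `k` at least `-2` extends to a
homomorphism of `N`.
PROOF. For every `x` there is `h` with `x ∈ M h` (`exh`); put `g x = g_h x` with `g_h` of `hom_exists` for a chosen `h`;
for `h, h'` with minimum `m` the functions `g_h`, `g_h'` agree with `g_m` on `M h`, `M h'` (`hom_unique`), so `g x = g_m x`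
for every `m` with `x ∈ M m`. Multiplicative: `x, y ∈ M m` for a common `m`. -/
theorem hom_extend {L : Type} [Group L] (f : N → L)
    (hf : ∀ k : Fin 3 → ℤ, -2 ≤ k 0 + k 1 + k 2 → ∀ x ∈ D.M k, ∀ y ∈ D.M k, f (x * y) = f x * f y) :
    ∃ g : N →* L, ∀ k : Fin 3 → ℤ, -2 ≤ k 0 + k 1 + k 2 → ∀ x ∈ D.M k, g x = f x := by
  classical
  choose g hg1 hg2 using hom_exists D f hf
  have hex : ∀ x : N, ∃ h : Fin 3 → ℤ, x ∈ D.M h := by
    intro x
    choose h hh using fun i => D.exh i x
    exact ⟨h, (mem_M D).2 hh⟩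
  choose c hc using hex
  have hagree : ∀ (x : N) (m : Fin 3 → ℤ), x ∈ D.M m → (∀ i, m i ≤ c x i) →
      g (c x) x = g m x := by
    intro x m _ hmc
    refine hom_unique D (g (c x)) (g m) (c x) (hg1 _) ?_ ?_ x (hc x)
    · intro a ha b hb
      exact hg1 m a (M_anti D hmc ha) b (M_anti D hmc hb)
    · intro k hk hs y hy
      rw [hg2 (c x) k hk hs y hy, hg2 m k (fun i => (hmc i).trans (hk i)) hs y hy]
  refine ⟨MonoidHom.mk' (fun x => g (c x) x) ?_, ?_⟩
  · intro x y
    let m : Fin 3 → ℤ := fun i => min (c (x * y) i) (min (c x i) (c y i))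
    have h1 : ∀ i, m i ≤ c (x * y) i := fun i => min_le_left _ _
    have h2 : ∀ i, m i ≤ c x i := fun i => (min_le_right _ _).trans (min_le_left _ _)
    have h3 : ∀ i, m i ≤ c y i := fun i => (min_le_right _ _).trans (min_le_right _ _)
    have hx : x ∈ D.M m := M_anti D h2 (hc x)
    have hy : y ∈ D.M m := M_anti D h3 (hc y)
    show g (c (x * y)) (x * y) = g (c x) x * g (c y) y
    rw [hagree (x * y) m (mul_mem hx hy) h1, hagree x m hx h2, hagree y m hy h3]
    exact hg1 m x hx y hy
  · intro k hk x hx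
    show g (c x) x = f x
    let m : Fin 3 → ℤ := fun i => min (c x i) (k i)
    have h1 : ∀ i, m i ≤ c x i := fun i => min_le_left _ _
    have h2 : ∀ i, m i ≤ k i := fun i => min_le_right _ _
    rw [hagree x m (M_anti D h1 (hc x)) h1]
    exact hg2 m k h2 hk x hx

end Pool.Agent.W_bec814_h98
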