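import Pool.Agent.W_bec814_h98.Ext3
import Pool.Agent.W_bec814_h98.Card1

/-!
# Extension of local data: the function on the subgroups `M k` with sum of heights `-2`
-/

set_option autoImplicit false

namespace Pool.Agent.W_bec814_h98

variable {N : Type} [Group N] (D : Horo N)

private def FPa_P (v : VV) (x : N) : Prop := D.act v⁻¹ x ∈ D.M ![0, 0, -2]

private def FPa_val {L : Type} [Group L] (e : N → L) (τ : VV →* L) (v : VV) (x : N) : L :=
  τ v * e (D.act v⁻¹ x) * (τ v)⁻¹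

private lemma FPa_P_iff (v : VV) (x : N) :
    FPa_P D v x ↔ x ∈ D.M (fun i => ht v i + (![0, 0, -2] : Fin 3 → ℤ) i) := by
  unfold FPa_P
  rw [← act_mem_M D v⁻¹ (h := fun i => ht v i + (![0, 0, -2] : Fin 3 → ℤ) i)]
  have : (fun i => ht v i + (![0, 0, -2] : Fin 3 → ℤ) i + ht v⁻¹ i) = ![0, 0, -2] := by
    funext i
    rw [ht_inv]
    ring
  rw [this]

private lemma FPa_P_of_mem {k : Fin 3 → ℤ} (hk : -2 ≤ k 0 + k 1 + k 2) {x : N}
    (hx : x ∈ D.M k) : FPa_P D (vec (k 0) (k 1)) x := by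
  rw [FPa_P_iff]
  refine M_anti D (fun i => ?_) hx
  rw [ht_vec]
  fin_cases i
  · simp
  · simp
  · simp
    linarith

private lemma FPa_vec_eq {v : VV} {a b : ℤ} (h0 : ht v 0 = a) (h1 : ht v 1 = b) :
    v = vec a b := by
  subst h0
  subst h1
  rfl

private lemma FPa_act_cancel (v : VV) (x : N) : D.act v⁻¹ (D.act v x) = x := by
  rw [map_inv, MulAut.inv_apply_self]

private lemma FPa_vec_mul (a b c d : ℤ) : vec a b * vec c d = vec (a + c) (b + d) := rfl

private lemma FPa_claim {L : Type} [Group L] (e : N → L) (τ : VV →* L)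
    (h0 : ∀ x ∈ D.M ![0, 0, -1], e (D.act (vec 1 0) x) = τ (vec 1 0) * e x * (τ (vec 1 0))⁻¹)
    (h1 : ∀ x ∈ D.M ![0, 0, -1], e (D.act (vec 0 1) x) = τ (vec 0 1) * e x * (τ (vec 0 1))⁻¹)
    (k : Fin 3 → ℤ) (hk : k 0 + k 1 + k 2 = -1) (x : N) (hx : x ∈ D.M k) (v : VV)
    (hv : ∀ i, ht v i + (![0, 0, -2] : Fin 3 → ℤ) i ≤ k i) :
    FPa_val D e τ v x = FPa_val D e τ (vec (k 0) (k 1)) x := by
  have hy : D.act (vec (k 0) (k 1))⁻¹ x ∈ D.M ![0, 0, -1] := by
    have h2 := (act_mem_M D (vec (k 0) (k 1))⁻¹ (h := k) (x := x)).2 hx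
    have h3 : (fun i => k i + ht (vec (k 0) (k 1))⁻¹ i) = ![0, 0, -1] := by
      funext i
      rw [ht_inv, ht_vec]
      fin_cases i
      · simp
      · simp
      · simp
        linarith
    rwa [h3] at h2
  have e0 := hv 0
  have e1 := hv 1
  have e2 := hv 2
  have es := ht_sum v
  simp at e0 e1 e2
  have key : ∀ s : VV, v = vec (k 0) (k 1) * s⁻¹ →
      (∀ x ∈ D.M ![0, 0, -1], e (D.act s x) = τ s * e x * (τ s)⁻¹) →
      FPa_val D e τ v x = FPa_val D e τ (vec (k 0) (k 1)) x := by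
    intro s hs hes
    unfold FPa_val
    rw [hs, mul_inv_rev, inv_inv, map_mul D.act, MulAut.mul_apply, hes _ hy, map_mul τ, map_inv τ]
    group
  rcases (show (ht v 0 = k 0 ∧ ht v 1 = k 1) ∨ (ht v 0 = k 0 - 1 ∧ ht v 1 = k 1) ∨
    (ht v 0 = k 0 ∧ ht v 1 = k 1 - 1) by omega) with h | h | h
  · rw [FPa_vec_eq h.1 h.2]
  · apply key (vec 1 0) _ h0
    rw [eq_mul_inv_iff_mul_eq, FPa_vec_eq h.1 h.2, FPa_vec_mul]
    congr 1 <;> ring
  · apply key (vec 0 1) _ h1
    rw [eq_mul_inv_iff_mul_eq, FPa_vec_eq h.1 h.2, FPa_vec_mul]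
    congr 1 <;> ring

private lemma FPa_indep {L : Type} [Group L] (e : N → L) (τ : VV →* L)
    (he : ∀ x ∈ D.M ![0, 0, -2], ∀ y ∈ D.M ![0, 0, -2], e (x * y) = e x * e y)
    (h0 : ∀ x ∈ D.M ![0, 0, -1], e (D.act (vec 1 0) x) = τ (vec 1 0) * e x * (τ (vec 1 0))⁻¹)
    (h1 : ∀ x ∈ D.M ![0, 0, -1], e (D.act (vec 0 1) x) = τ (vec 0 1) * e x * (τ (vec 0 1))⁻¹)
    (x : N) (v w : VV) (hv : FPa_P D v x) (hw : FPa_P D w x) :
    FPa_val D e τ v x = FPa_val D e τ w x := by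
  rw [FPa_P_iff] at hv hw
  by_cases hvw : v = w
  · rw [hvw]
  have e_one : e 1 = 1 := by
    have := he 1 (one_mem _) 1 (one_mem _)
    rw [mul_one] at this
    exact (mul_eq_left.1 this.symm)
  have hx : x ∈ D.M (fun i => max (ht v i) (ht w i) + (![0, 0, -2] : Fin 3 → ℤ) i) := by
    rw [mem_M] at hv hw ⊢
    intro i
    rcases le_total (ht v i) (ht w i) with h | h
    · rw [max_eq_right h]; exact hw i
    · rw [max_eq_left h]; exact hv i
  have hne : ¬ (ht v 0 = ht w 0 ∧ ht v 1 = ht w 1) := by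
    rintro ⟨h2, h3⟩
    exact hvw ((FPa_vec_eq h2 h3).trans (FPa_vec_eq rfl rfl).symm)
  have sv := ht_sum v
  have sw := ht_sum w
  have hs : -1 ≤ (max (ht v 0) (ht w 0)) + (max (ht v 1) (ht w 1)) +
      (max (ht v 2) (ht w 2) + (-2)) := by
    omega
  rcases eq_or_lt_of_le hs with h | h
  · have hk : (fun i => max (ht v i) (ht w i) + (![0, 0, -2] : Fin 3 → ℤ) i) 0 +
      (fun i => max (ht v i) (ht w i) + (![0, 0, -2] : Fin 3 → ℤ) i) 1 +
      (fun i => max (ht v i) (ht w i) + (![0, 0, -2] : Fin 3 → ℤ) i) 2 = -1 := by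
      simp
      simpa using h.symm
    rw [FPa_claim D e τ h0 h1 _ hk x hx v (fun i => by
        have := le_max_left (ht v i) (ht w i)
        show _ ≤ max (ht v i) (ht w i) + (![0, 0, -2] : Fin 3 → ℤ) i
        linarith),
      FPa_claim D e τ h0 h1 _ hk x hx w (fun i => by
        have := le_max_right (ht v i) (ht w i)
        show _ ≤ max (ht v i) (ht w i) + (![0, 0, -2] : Fin 3 → ℤ) i
        linarith)]
  · have hx1 : x = 1 := by
      refine M_triv D ?_ hx
      simp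
      omega
    rw [hx1]
    unfold FPa_val
    rw [map_one, map_one, e_one]
    group

/-- Let `e` be multiplicative on `M (0, 0, -2)` and let `τ : ℤ² → L` be a homomorphism such that for
`x ∈ A = M (0, 0, -1)` one has `e (act (1,0) x) = τ (1,0) * e x * (τ (1,0))⁻¹` and the same for `(0, 1)`. Then there is
`F : N →* L` with `F = e` on `M (0, 0, -2)` and `F (act v x) = τ v * F x * (τ v)⁻¹` for all `v`, `x`.
PROOF. For `x` such that `act v⁻¹ x ∈ M (0,0,-2)` for some `v` (i.e. `x ∈ M (ht v + (0,0,-2))`) put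
`f x = τ v * e (act v⁻¹ x) * (τ v)⁻¹` (chosen `v`; `f x = 1` if there is none). INDEPENDENT OF `v`: let `v ≠ w` both work;
then `x ∈ M k` with `k = max (ht v + (0,0,-2)) (ht w + (0,0,-2))`, and the sum of `k` is at least `-1`. If it is at least `0`
then `x = 1` and both values are `1`. If it is `-1` write `k = ht u + (0,0,-1)`, `u = vec (k 0) (k 1)`; since
`ht v + (0,0,-2) ≤ k` with sum `-2`, it is `k - e_i` for some `i`, that is `v = u` (`i = 2`), `v = u * vec (-1) 0` (`i = 0`) or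
`v = u * vec 0 (-1)` (`i = 1`). With `y = act u⁻¹ x ∈ A` all three values are `τ u * e y * (τ u)⁻¹`: for `i = 0`,
`act v⁻¹ x = act (vec 1 0) y` and `τ v * e (act (vec 1 0) y) * (τ v)⁻¹ = τ u * e y * (τ u)⁻¹` by the hypothesis `h0`.
`f` is multiplicative on `M k` for sum of `k` at least `-2` (`M k ≤ M k'` with `k' = ht v + (0,0,-2)` for some `v`: decrease
`k 2`; there `f x = τ v * e (act v⁻¹ x) * (τ v)⁻¹`), so `hom_extend` gives `F`. Equivariance: `x ↦ F (act v x)` and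
`x ↦ τ v * F x * (τ v)⁻¹` are homomorphisms which agree on all `M k` with sum `-2` (hence everywhere, `gen_top`,
`M k ≤ M k'`). -/
theorem local_ext {L : Type} [Group L] (e : N → L) (τ : VV →* L)
    (he : ∀ x ∈ D.M ![0, 0, -2], ∀ y ∈ D.M ![0, 0, -2], e (x * y) = e x * e y)
    (h0 : ∀ x ∈ D.M ![0, 0, -1], e (D.act (vec 1 0) x) = τ (vec 1 0) * e x * (τ (vec 1 0))⁻¹)
    (h1 : ∀ x ∈ D.M ![0, 0, -1], e (D.act (vec 0 1) x) = τ (vec 0 1) * e x * (τ (vec 0 1))⁻¹) :
    ∃ F : N →* L, (∀ x ∈ D.M ![0, 0, -2], F x = e x) ∧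
      ∀ v x, F (D.act v x) = τ v * F x * (τ v)⁻¹ := by
  classical
  let f : N → L := fun x => if h : ∃ v, FPa_P D v x then FPa_val D e τ h.choose x else 1
  have hf : ∀ v x, FPa_P D v x → f x = FPa_val D e τ v x := by
    intro v x hv
    have h : ∃ v, FPa_P D v x := ⟨v, hv⟩
    have h2 : f x = FPa_val D e τ h.choose x := by
      show (if h : ∃ v, FPa_P D v x then FPa_val D e τ h.choose x else 1) = _
      rw [dif_pos h]
    rw [h2]
    exact FPa_indep D e τ he h0 h1 x _ _ h.choose_spec hv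
  have hmul : ∀ k : Fin 3 → ℤ, -2 ≤ k 0 + k 1 + k 2 → ∀ x ∈ D.M k, ∀ y ∈ D.M k,
      f (x * y) = f x * f y := by
    intro k hk x hx y hy
    have hPx := FPa_P_of_mem D hk hx
    have hPy := FPa_P_of_mem D hk hy
    have hPxy := FPa_P_of_mem D hk (mul_mem hx hy)
    rw [hf _ _ hPx, hf _ _ hPy, hf _ _ hPxy]
    unfold FPa_val
    rw [map_mul, he _ hPx _ hPy]
    group
  obtain ⟨g, hg⟩ := hom_extend D f hmul
  have hgv : ∀ k : Fin 3 → ℤ, -2 ≤ k 0 + k 1 + k 2 → ∀ x ∈ D.M k, ∀ v, FPa_P D v x →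
      g x = FPa_val D e τ v x := by
    intro k hk x hx v hv
    rw [hg k hk x hx, hf v x hv]
  refine ⟨g, ?_, ?_⟩
  · intro x hx
    have hP : FPa_P D 1 x := by
      unfold FPa_P
      simpa using hx
    rw [hgv ![0, 0, -2] (by simp) x hx 1 hP]
    unfold FPa_val
    simp
  · intro v
    let H : N →* L := (MulAut.conj (τ v)⁻¹).toMonoidHom.comp (g.comp (D.act v).toMonoidHom)
    have hC : MonoidHom.eqLocus g H = ⊤ := by
      apply gen_top D
      intro k hk x hx
      show g x = H x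
      have hP := FPa_P_of_mem D (by omega : -2 ≤ k 0 + k 1 + k 2) hx
      have h2 := hgv k (by omega) x hx _ hP
      have h3 : D.act v x ∈ D.M (fun i => k i + ht v i) := (act_mem_M D v).2 hx
      have h4 : FPa_P D (v * vec (k 0) (k 1)) (D.act v x) := by
        unfold FPa_P at hP ⊢
        rw [mul_inv_rev, map_mul, MulAut.mul_apply, FPa_act_cancel]
        exact hP
      have h5 := hgv (fun i => k i + ht v i) (by
        have := ht_sum v
        show -2 ≤ k 0 + ht v 0 + (k 1 + ht v 1) + (k 2 + ht v 2)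
        omega) _ h3 _ h4
      show g x = (τ v)⁻¹ * g (D.act v x) * ((τ v)⁻¹)⁻¹
      rw [h5, h2]
      unfold FPa_val
      rw [mul_inv_rev v, map_mul D.act (vec (k 0) (k 1))⁻¹, MulAut.mul_apply, FPa_act_cancel,
        map_mul τ]
      group
    intro x
    have h2 : x ∈ MonoidHom.eqLocus g H := by rw [hC]; exact Subgroup.mem_top x
    have h3 : g x = (τ v)⁻¹ * g (D.act v x) * ((τ v)⁻¹)⁻¹ := h2
    rw [h3]
    group

end Pool.Agent.W_bec814_h98
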