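import Pool.Agent.W_bec814_h98.FPa
import Pool.Agent.W_bec814_h98.Crit

/-!
# The semidirect product is finitely presented
-/

set_option autoImplicit false

namespace Pool.Agent.W_bec814_h98

variable {N : Type} [Group N] (D : Horo N)

/-- A homomorphism of `ℤ²` from two commuting elements: `vec a b ↦ s ^ a * t ^ b`. -/
theorem exists_tau {L : Type} [Group L] (s t : L) (hst : s * t = t * s) :
    ∃ τ : VV →* L, τ (vec 1 0) = s ∧ τ (vec 0 1) = t := by
  have hc : Commute s t := hst
  refine ⟨{ toFun := fun v => s ^ (Multiplicative.toAdd v).1 * t ^ (Multiplicative.toAdd v).2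
            map_one' := by simp
            map_mul' := ?_ }, ?_, ?_⟩
  · intro v w
    simp only [toAdd_mul, Prod.fst_add, Prod.snd_add, zpow_add]
    have h := (hc.zpow_zpow (Multiplicative.toAdd w).1 (Multiplicative.toAdd v).2).eq
    simp only [mul_assoc]
    congr 1
    simp only [← mul_assoc]
    rw [h]
  · simp [vec]
  · simp [vec]

/-- every element of `ℤ²` is a product of powers of the two basis elements -/
private lemma vec_pow (v : VV) :
    v = (vec 1 0) ^ (Multiplicative.toAdd v).1 * (vec 0 1) ^ (Multiplicative.toAdd v).2 := by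
  apply Multiplicative.toAdd.injective
  simp only [vec, toAdd_mul, toAdd_zpow, toAdd_ofAdd]
  ext <;> simp

private lemma M1_le_M2 : D.M ![0, 0, -1] ≤ D.M ![0, 0, -2] := by
  refine M_anti D fun i => ?_
  fin_cases i <;> simp

private lemma act0_mem {x : N} (hx : x ∈ D.M ![0, 0, -1]) :
    D.act (vec 1 0) x ∈ D.M ![0, 0, -2] := by
  have h := (act_mem_M D (vec 1 0)).2 hx
  refine M_anti D (fun i => ?_) h
  fin_cases i <;> simp [ht_vec]

private lemma act1_mem {x : N} (hx : x ∈ D.M ![0, 0, -1]) :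
    D.act (vec 0 1) x ∈ D.M ![0, 0, -2] := by
  have h := (act_mem_M D (vec 0 1)).2 hx
  refine M_anti D (fun i => ?_) h
  fin_cases i <;> simp [ht_vec]

/-- the generators -/
private def gens : (D.M ![0, 0, -2]) ⊕ Fin 2 → D.Gam
  | Sum.inl x => SemidirectProduct.inl (x : N)
  | Sum.inr i => SemidirectProduct.inr (if i = 0 then vec 1 0 else vec 0 1)

/-- the relators -/
private def relators : Set (FreeGroup ((D.M ![0, 0, -2]) ⊕ Fin 2)) :=
  (Set.range fun p : (D.M ![0, 0, -2]) × (D.M ![0, 0, -2]) =>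
      FreeGroup.of (Sum.inl p.1) * FreeGroup.of (Sum.inl p.2) *
        (FreeGroup.of (Sum.inl (p.1 * p.2)))⁻¹) ∪
    {FreeGroup.of (Sum.inr 0) * FreeGroup.of (Sum.inr 1) * (FreeGroup.of (Sum.inr 0))⁻¹ *
      (FreeGroup.of (Sum.inr 1))⁻¹} ∪
    (Set.range fun x : D.M ![0, 0, -1] =>
      FreeGroup.of (Sum.inr 0) * FreeGroup.of (Sum.inl ⟨(x : N), M1_le_M2 D x.2⟩) *
        (FreeGroup.of (Sum.inr 0))⁻¹ *
        (FreeGroup.of (Sum.inl ⟨D.act (vec 1 0) (x : N), act0_mem D x.2⟩))⁻¹) ∪
    (Set.range fun x : D.M ![0, 0, -1] =>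
      FreeGroup.of (Sum.inr 1) * FreeGroup.of (Sum.inl ⟨(x : N), M1_le_M2 D x.2⟩) *
        (FreeGroup.of (Sum.inr 1))⁻¹ *
        (FreeGroup.of (Sum.inl ⟨D.act (vec 0 1) (x : N), act1_mem D x.2⟩))⁻¹)

private lemma gens_closure : Subgroup.closure (Set.range (gens D)) = ⊤ := by
  set H := Subgroup.closure (Set.range (gens D)) with hH
  have hs : (SemidirectProduct.inr (vec 1 0) : D.Gam) ∈ H :=
    Subgroup.subset_closure ⟨Sum.inr 0, by simp [gens]⟩
  have ht : (SemidirectProduct.inr (vec 0 1) : D.Gam) ∈ H :=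
    Subgroup.subset_closure ⟨Sum.inr 1, by simp [gens]⟩
  have hr : ∀ v : VV, (SemidirectProduct.inr v : D.Gam) ∈ H := by
    intro v
    rw [vec_pow v, map_mul, map_zpow, map_zpow]
    exact mul_mem (zpow_mem hs _) (zpow_mem ht _)
  have hl : ∀ x ∈ D.M ![0, 0, -2], ∀ v : VV,
      (SemidirectProduct.inl (D.act v x) : D.Gam) ∈ H := by
    intro x hx v
    rw [SemidirectProduct.inl_aut]
    exact mul_mem (mul_mem (hr v) (Subgroup.subset_closure ⟨Sum.inl ⟨x, hx⟩, rfl⟩)) (hr v⁻¹)
  have htop : H.comap (SemidirectProduct.inl : N →* D.Gam) = ⊤ := by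
    refine gen_top D _ fun k hk x hx => ?_
    rw [Subgroup.mem_comap]
    have hy : D.act (vec (k 0) (k 1))⁻¹ x ∈ D.M ![0, 0, -1] := by
      rw [← act_mem_M D (vec (k 0) (k 1))]
      have h1 : D.act (vec (k 0) (k 1)) (D.act (vec (k 0) (k 1))⁻¹ x) = x := by
        rw [← MulAut.mul_apply, ← map_mul, mul_inv_cancel, map_one, MulAut.one_apply]
      rw [h1]
      refine M_anti D (fun i => ?_) hx
      fin_cases i
      · simp [ht_vec]
      · simp [ht_vec]
      · simp [ht_vec]
        linarith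
    have h2 := hl _ (M1_le_M2 D hy) (vec (k 0) (k 1))
    have h1 : D.act (vec (k 0) (k 1)) (D.act (vec (k 0) (k 1))⁻¹ x) = x := by
      rw [← MulAut.mul_apply, ← map_mul, mul_inv_cancel, map_one, MulAut.one_apply]
    rwa [h1] at h2
  rw [Subgroup.eq_top_iff']
  intro x
  have h3 : x.left ∈ H.comap (SemidirectProduct.inl : N →* D.Gam) := by
    rw [htop]; trivial
  rw [← SemidirectProduct.inl_left_mul_inr_right x]
  exact mul_mem h3 (hr _)

/-- PROOF. `finPres_of` with `ι = M (0,0,-2) ⊕ Fin 2` (finite: `M_finite`), `g (inl x) = SemidirectProduct.inl x`,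
`g (inr 0) = SemidirectProduct.inr (vec 1 0)`, `g (inr 1) = SemidirectProduct.inr (vec 0 1)`, and the finite set of words
`[x] [y] [x y]⁻¹` (`x, y ∈ M (0,0,-2)`), `s t s⁻¹ t⁻¹`, `s [x] s⁻¹ [act (1,0) x]⁻¹`, `t [x] t⁻¹ [act (0,1) x]⁻¹` (`x ∈ M (0,0,-1)`,
which is contained in `M (0,0,-2)`; `act (1,0) x ∈ M (1,0,-2)`, `act (0,1) x ∈ M (0,1,-2)`, both contained in `M (0,0,-2)`; use
`act_mem_M`). GENERATION: the subgroup generated contains all `inr v`, hence all `inl (act v x)`, `x ∈ M (0,0,-2)`, hence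
`inl x` for `x ∈ M k`, sum of `k` `-1` (`gen_top` for the comap under `inl`). EXTENSION: `exists_tau`, `local_ext` (with
`e x = ψ (of (inl x))` on `M (0,0,-2)`, `1` elsewhere) and `SemidirectProduct.lift`. -/
theorem gam_finPres (hA : Finite D.A) : FinPres D.Gam := by
  classical
  have hf2 : Finite (D.M ![0, 0, -2]) := M_finite D hA _
  have hf1 : Finite (D.M ![0, 0, -1]) := M_finite D hA _
  refine finPres_of (gens D) (gens_closure D) (relators D) ?_ ?_ ?_
  · exact (((Set.finite_range _).union (Set.finite_singleton _)).union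
      (Set.finite_range _)).union (Set.finite_range _)
  · rintro r (((⟨p, rfl⟩ | rfl) | ⟨x, rfl⟩) | ⟨x, rfl⟩)
    · simp [gens]
    · simp only [map_mul, map_inv, FreeGroup.lift_apply_of, gens]
      rw [← map_mul, ← map_inv, ← map_mul, ← map_inv, ← map_mul]
      simp
    · simp only [map_mul, map_inv, FreeGroup.lift_apply_of, gens]
      simp only [if_true]
      rw [SemidirectProduct.inl_aut, map_inv]
      group
    · simp only [map_mul, map_inv, FreeGroup.lift_apply_of, gens]
      simp only [one_ne_zero, if_false]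
      rw [SemidirectProduct.inl_aut, map_inv]
      group
  · intro L _ ψ hψ
    obtain ⟨τ, hτ0, hτ1⟩ := exists_tau (ψ (FreeGroup.of (Sum.inr 0)))
      (ψ (FreeGroup.of (Sum.inr 1))) (by
        have h := hψ _ (Or.inl (Or.inl (Or.inr rfl)))
        simp only [map_mul, map_inv] at h
        have h' := mul_inv_eq_one.1 h
        exact mul_inv_eq_iff_eq_mul.1 h')
    let e : N → L := fun x =>
      if h : x ∈ D.M ![0, 0, -2] then ψ (FreeGroup.of (Sum.inl ⟨x, h⟩)) else 1
    have hedef : ∀ x (h : x ∈ D.M ![0, 0, -2]), e x = ψ (FreeGroup.of (Sum.inl ⟨x, h⟩)) := by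
      intro x h
      exact dif_pos h
    have he : ∀ x ∈ D.M ![0, 0, -2], ∀ y ∈ D.M ![0, 0, -2], e (x * y) = e x * e y := by
      intro x hx y hy
      rw [hedef x hx, hedef y hy, hedef _ (mul_mem hx hy)]
      have h := hψ _ (Or.inl (Or.inl (Or.inl ⟨(⟨x, hx⟩, ⟨y, hy⟩), rfl⟩)))
      simp only [map_mul, map_inv] at h
      exact (mul_inv_eq_one.1 h).symm
    have h0 : ∀ x ∈ D.M ![0, 0, -1],
        e (D.act (vec 1 0) x) = τ (vec 1 0) * e x * (τ (vec 1 0))⁻¹ := by
      intro x hx
      rw [hedef x (M1_le_M2 D hx), hedef _ (act0_mem D hx), hτ0]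
      have h := hψ _ (Or.inl (Or.inr ⟨⟨x, hx⟩, rfl⟩))
      simp only [map_mul, map_inv] at h
      exact (mul_inv_eq_one.1 h).symm
    have h1 : ∀ x ∈ D.M ![0, 0, -1],
        e (D.act (vec 0 1) x) = τ (vec 0 1) * e x * (τ (vec 0 1))⁻¹ := by
      intro x hx
      rw [hedef x (M1_le_M2 D hx), hedef _ (act1_mem D hx), hτ1]
      have h := hψ _ (Or.inr ⟨⟨x, hx⟩, rfl⟩)
      simp only [map_mul, map_inv] at h
      exact (mul_inv_eq_one.1 h).symm
    obtain ⟨F, hF, hFe⟩ := local_ext D e τ he h0 h1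
    refine ⟨SemidirectProduct.lift F τ ?_, ?_⟩
    · intro v
      ext x
      simp only [MonoidHom.comp_apply, MulEquiv.coe_toMonoidHom, MulAut.conj_apply]
      exact hFe v x
    · rintro (x | i)
      · simp only [gens, SemidirectProduct.lift_inl]
        rw [hF _ x.2, hedef _ x.2]
      · simp only [gens, SemidirectProduct.lift_inr]
        fin_cases i
        · simpa using hτ0
        · simpa using hτ1

end Pool.Agent.W_bec814_h98
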