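import Pool.Agent.W_bec814_h98.Wl

/-!
# Subgroups of finite index are quasi-isometric to the group
-/

set_option autoImplicit false

namespace Pool.Agent.W_bec814_h98

private theorem Idx_mul {H : Type} [Group H] (T : Finset H)
    (hT : Subgroup.closure (T : Set H) = ⊤) (x y : H) : wlen T (x * y) ≤ wlen T x + wlen T y := by
  obtain ⟨l, h1, h2, h3⟩ := wlen_spec T hT x
  obtain ⟨l', h4, h5, h6⟩ := wlen_spec T hT y
  have h7 := wlen_le T (g := x * y) (l ++ l') (fun z hz => by
    rcases List.mem_append.1 hz with hz | hz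
    · exact h2 z hz
    · exact h5 z hz) (by rw [List.prod_append, h3, h6])
  rwa [List.length_append, h1, h4] at h7

private theorem Idx_inv {H : Type} [Group H] (T : Finset H)
    (hT : Subgroup.closure (T : Set H) = ⊤) (x : H) : wlen T x⁻¹ ≤ wlen T x := by
  obtain ⟨l, h1, h2, h3⟩ := wlen_spec T hT x
  have h7 := wlen_le T (g := x⁻¹) (l.map (fun z => z⁻¹)).reverse (fun z hz => by
    rw [List.mem_reverse, List.mem_map] at hz
    obtain ⟨w, hw, rfl⟩ := hz
    rw [inv_inv]
    exact (h2 w hw).symm) (by rw [← h3, List.prod_inv_reverse])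
  rwa [List.length_reverse, List.length_map, h1] at h7

private theorem Idx_one {H : Type} [Group H] (T : Finset H) : wlen T 1 = 0 := by
  have h4 := wlen_le T (g := (1 : H)) [] (by simp) List.prod_nil
  simpa using h4

open Classical in
/-- the word length of the preimage -/
private noncomputable def Idx_kap {G H : Type} [Group G] [Group H] (T : Finset H) (ι : H →* G)
    (z : G) : ℕ := if h : ∃ y, ι y = z then wlen T h.choose else 0

private theorem Idx_kap_apply {G H : Type} [Group G] [Group H] (T : Finset H) (ι : H →* G)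
    (hi : Function.Injective ι) (y : H) : Idx_kap T ι (ι y) = wlen T y := by
  have h : ∃ y', ι y' = ι y := ⟨y, rfl⟩
  unfold Idx_kap
  rw [dif_pos h]
  congr 1
  exact hi h.choose_spec

/-- Let `ι : H →* G` be injective with range of finite index. Then `ι` is a quasi-isometric embedding.
PROOF (of the second inequality; the first is `wlen_hom`). Choose a finite set `R ⊆ G` with `1 ∈ R` and a map
`ρ : G → R` with `g * (ρ g)⁻¹ ∈ ι.range` for all `g`, `ρ (ι x * g) = ρ g`, `ρ 1 = 1` (representatives of the right cosets of the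
range; finite index). For a word `ι x = s_1 ⋯ s_m` put `g_i = s_1 ⋯ s_i`, `r_i = ρ g_i` (`r_0 = 1 = r_m`); then
`ι x = ∏ r_(i-1) s_i r_i⁻¹`, every factor is in `ι.range` (it is `(g_(i-1) r_(i-1)⁻¹)⁻¹ (g_i r_i⁻¹)`), and belongs to the finite set
`{r * s * r'⁻¹ | r, r' ∈ R, s ∈ S or s⁻¹ ∈ S}`. With `K'` the maximum of `wlen T (ι⁻¹ f)` over the elements `f` of this finite set
in the range, `wlen T x ≤ K' * m`. -/
theorem idx_qi {G H : Type} [Group G] [Group H] (S : Finset G) (T : Finset H)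
    (hS : Subgroup.closure (S : Set G) = ⊤) (hT : Subgroup.closure (T : Set H) = ⊤) (ι : H →* G)
    (hi : Function.Injective ι) (hf : ι.range.FiniteIndex) :
    ∃ K C : ℕ, (∀ x, wlen S (ι x) ≤ K * wlen T x) ∧ (∀ x, wlen T x ≤ K * wlen S (ι x)) ∧
      ∀ g : G, ∃ x : H, wlen S ((ι x)⁻¹ * g) ≤ C := by
  classical
  obtain ⟨K1, hK1⟩ := wlen_hom T S hT hS ι
  have : Finite (G ⧸ ι.range) := Subgroup.finite_quotient_of_finiteIndex
  have : Fintype (G ⧸ ι.range) := Fintype.ofFinite _
  -- the representatives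
  set ρ : G → G := fun g => (Quotient.out (QuotientGroup.mk g⁻¹ : G ⧸ ι.range))⁻¹ with hρ
  set R : Finset G := Finset.univ.image (fun q : G ⧸ ι.range => (Quotient.out q)⁻¹) with hR
  have hρR : ∀ g, ρ g ∈ R := fun g => Finset.mem_image.2 ⟨_, Finset.mem_univ _, rfl⟩
  have hρ1 : ∀ g, g * (ρ g)⁻¹ ∈ ι.range := by
    intro g
    have h1 : (QuotientGroup.mk (Quotient.out (QuotientGroup.mk g⁻¹ : G ⧸ ι.range)) : G ⧸ ι.range) =
        QuotientGroup.mk g⁻¹ := Quotient.out_eq _
    have h2 := QuotientGroup.eq.1 h1.symm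
    rw [inv_inv] at h2
    simp only [hρ, inv_inv]
    exact h2
  have hρ2 : ∀ x g, ρ (ι x * g) = ρ g := by
    intro x g
    have h1 : (QuotientGroup.mk (ι x * g)⁻¹ : G ⧸ ι.range) = QuotientGroup.mk g⁻¹ := by
      rw [QuotientGroup.eq, inv_inv, mul_assoc, mul_inv_cancel, mul_one]
      exact ⟨x, rfl⟩
    simp only [hρ, h1]
  choose π hπ using fun g => hρ1 g
  -- the constant
  set K' : ℕ := ∑ r ∈ R, ∑ s ∈ S ∪ S.image (fun s => s⁻¹), ∑ r' ∈ R, Idx_kap T ι (r * s * r'⁻¹)
    with hK'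
  have hstep : ∀ g s, (s ∈ S ∨ s⁻¹ ∈ S) → wlen T ((π g)⁻¹ * π (g * s)) ≤ K' := by
    intro g s hs
    have h1 : ι ((π g)⁻¹ * π (g * s)) = ρ g * s * (ρ (g * s))⁻¹ := by
      rw [map_mul, map_inv, hπ, hπ]
      group
    have h2 : wlen T ((π g)⁻¹ * π (g * s)) = Idx_kap T ι (ρ g * s * (ρ (g * s))⁻¹) := by
      rw [← h1, Idx_kap_apply T ι hi]
    have hs' : s ∈ S ∪ S.image (fun s => s⁻¹) := by
      rw [Finset.mem_union]
      rcases hs with h | h
      · exact Or.inl h
      · exact Or.inr (Finset.mem_image.2 ⟨s⁻¹, h, inv_inv s⟩)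
    rw [h2, hK']
    refine le_trans ?_ (Finset.single_le_sum
      (f := fun r => ∑ s ∈ S ∪ S.image (fun s => s⁻¹), ∑ r' ∈ R, Idx_kap T ι (r * s * r'⁻¹))
      (fun _ _ => Nat.zero_le _) (hρR g))
    refine le_trans ?_ (Finset.single_le_sum
      (f := fun s => ∑ r' ∈ R, Idx_kap T ι (ρ g * s * r'⁻¹))
      (fun _ _ => Nat.zero_le _) hs')
    exact Finset.single_le_sum (f := fun r' => Idx_kap T ι (ρ g * s * r'⁻¹))
      (fun _ _ => Nat.zero_le _) (hρR (g * s))
  have hlist : ∀ l : List G, (∀ x ∈ l, x ∈ S ∨ x⁻¹ ∈ S) → ∀ g,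
      wlen T ((π g)⁻¹ * π (g * l.prod)) ≤ K' * l.length := by
    intro l
    induction l with
    | nil =>
      intro _ g
      rw [List.prod_nil, mul_one, inv_mul_cancel, Idx_one]
      exact Nat.zero_le _
    | cons s l ih =>
      intro hl g
      have h1 := ih (fun x hx => hl x (List.mem_cons_of_mem s hx)) (g * s)
      have h2 := hstep g s (hl s List.mem_cons_self)
      have h3 : (π g)⁻¹ * π (g * (s :: l).prod) =
          ((π g)⁻¹ * π (g * s)) * ((π (g * s))⁻¹ * π (g * s * l.prod)) := by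
        rw [List.prod_cons, ← mul_assoc g s]
        group
      rw [h3, List.length_cons]
      calc wlen T (((π g)⁻¹ * π (g * s)) * ((π (g * s))⁻¹ * π (g * s * l.prod)))
          ≤ wlen T ((π g)⁻¹ * π (g * s)) + wlen T ((π (g * s))⁻¹ * π (g * s * l.prod)) :=
            Idx_mul T hT _ _
        _ ≤ K' + K' * l.length := add_le_add h2 h1
        _ = K' * (l.length + 1) := by ring
  refine ⟨K1 + (K' + 2 * wlen T (π 1)), ∑ r ∈ R, wlen S r, ?_, ?_, ?_⟩
  · intro x
    exact (hK1 x).trans (Nat.mul_le_mul_right _ (Nat.le_add_right _ _))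
  · intro x
    obtain ⟨l, h1, h2, h3⟩ := wlen_spec S hS (ι x)
    have h4 := hlist l h2 1
    rw [one_mul, h3, h1] at h4
    have h5 : π (ι x) = x * π 1 := by
      apply hi
      rw [map_mul, hπ, hπ]
      have h6 := hρ2 x 1
      rw [mul_one] at h6
      rw [h6, one_mul]
    rw [h5] at h4
    have h7 : x = π 1 * ((π 1)⁻¹ * (x * π 1)) * (π 1)⁻¹ := by group
    have h8 : wlen T x ≤ wlen T (π 1) + K' * wlen S (ι x) + wlen T (π 1) := by
      calc wlen T x = wlen T (π 1 * ((π 1)⁻¹ * (x * π 1)) * (π 1)⁻¹) := by rw [← h7]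
        _ ≤ wlen T (π 1 * ((π 1)⁻¹ * (x * π 1))) + wlen T (π 1)⁻¹ := Idx_mul T hT _ _
        _ ≤ (wlen T (π 1) + wlen T ((π 1)⁻¹ * (x * π 1))) + wlen T (π 1) :=
          add_le_add (Idx_mul T hT _ _) (Idx_inv T hT _)
        _ ≤ (wlen T (π 1) + K' * wlen S (ι x)) + wlen T (π 1) :=
          add_le_add (add_le_add le_rfl h4) le_rfl
    rcases Nat.eq_zero_or_pos (wlen S (ι x)) with h0 | h0
    · have h9 : ι x = 1 := by
        have : l = [] := by
          rw [h0] at h1
          exact List.length_eq_zero_iff.1 h1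
        rw [← h3, this, List.prod_nil]
      have h10 : x = 1 := hi (by rw [h9, map_one])
      rw [h10, Idx_one]
      exact Nat.zero_le _
    · nlinarith [Nat.zero_le K1, Nat.zero_le (wlen T (π 1)), Nat.zero_le K']
  · intro g
    refine ⟨π g, ?_⟩
    have h1 : (ι (π g))⁻¹ * g = ρ g := by
      rw [hπ]
      group
    rw [h1]
    exact Finset.single_le_sum (f := fun r => wlen S r) (fun _ _ => Nat.zero_le _) (hρR g)

end Pool.Agent.W_bec814_h98
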