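import Pool.Agent.W_bec814_h98.R1

/-!
# The scaled group has finite index in the group with `W = 1`, which is metabelian
-/

set_option autoImplicit false

namespace Pool.Agent.W_bec814_h98

private lemma R2_cc_pow (v : VV) (W : ℕ) : cc (v ^ W) = cc v ^ W := by
  induction W with
  | zero => rw [pow_zero, pow_zero, cc_one]
  | succ W ih => rw [pow_succ, cc_mul, ih, pow_succ]

private lemma R2_act (W : ℕ) (v : VV) (x : RN) : ract W v x = ract 1 (v ^ W) x := by
  have h : ((Multiplicative.toAdd (ract W v x) : RR) : KK) =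
      ((Multiplicative.toAdd (ract 1 (v ^ W) x) : RR) : KK) := by
    rw [ract_apply, ract_apply, R2_cc_pow, pow_one]
  exact Multiplicative.toAdd.injective (Subtype.ext h)

private lemma R2_pow_inj (W : ℕ) (hW : 1 ≤ W) {v w : VV} (h : v ^ W = w ^ W) : v = w := by
  have h1 := congrArg Multiplicative.toAdd h
  rw [toAdd_pow, toAdd_pow] at h1
  have h2 := congrArg Prod.fst h1
  have h3 := congrArg Prod.snd h1
  have hW' : (W : ℤ) ≠ 0 := by omega
  simp only [Prod.smul_fst, Prod.smul_snd, nsmul_eq_mul] at h2 h3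
  apply Multiplicative.toAdd.injective
  exact Prod.ext (mul_left_cancel₀ hW' h2) (mul_left_cancel₀ hW' h3)

private lemma R2_fin (W : ℕ) (hW : 1 ≤ W) : ∃ ψ : VV →* Multiplicative (ZMod W × ZMod W),
    ψ.ker ≤ (powMonoidHom W : VV →* VV).range := by
  let ψ0 : ℤ × ℤ →+ ZMod W × ZMod W :=
    AddMonoidHom.prodMap (Int.castAddHom (ZMod W)) (Int.castAddHom (ZMod W))
  let ψ : VV →* Multiplicative (ZMod W × ZMod W) := AddMonoidHom.toMultiplicative ψ0
  have hle : ψ.ker ≤ (powMonoidHom W : VV →* VV).range := by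
    intro v hv
    rw [MonoidHom.mem_ker] at hv
    have h1 : ψ0 (Multiplicative.toAdd v) = 0 := congrArg Multiplicative.toAdd hv
    have h2 : (((Multiplicative.toAdd v).1 : ℤ) : ZMod W) = 0 := congrArg Prod.fst h1
    have h3 : (((Multiplicative.toAdd v).2 : ℤ) : ZMod W) = 0 := congrArg Prod.snd h1
    rw [ZMod.intCast_zmod_eq_zero_iff_dvd] at h2 h3
    obtain ⟨a, ha⟩ := h2
    obtain ⟨b, hb⟩ := h3
    refine ⟨Multiplicative.ofAdd (a, b), ?_⟩
    apply Multiplicative.toAdd.injective
    rw [powMonoidHom_apply, toAdd_pow, toAdd_ofAdd]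
    refine Prod.ext ?_ ?_
    · rw [Prod.smul_fst, nsmul_eq_mul, ha]
    · rw [Prod.smul_snd, nsmul_eq_mul, hb]
  exact ⟨ψ, hle⟩

private lemma R2_met {N V : Type} [CommGroup N] [CommGroup V] (φ : V →* MulAut N) :
    derivedSeries (N ⋊[φ] V) 2 = ⊥ := by
  have h1 : derivedSeries (N ⋊[φ] V) 1 ≤ (SemidirectProduct.rightHom : N ⋊[φ] V →* V).ker := by
    rw [show (1 : ℕ) = 0 + 1 from rfl, derivedSeries_succ, Subgroup.commutator_le]
    intro a _ b _
    rw [MonoidHom.mem_ker, map_commutatorElement, commutatorElement_eq_one_iff_mul_comm]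
    exact mul_comm _ _
  rw [show (2 : ℕ) = 1 + 1 from rfl, derivedSeries_succ, eq_bot_iff]
  refine (Subgroup.commutator_mono h1 h1).trans ?_
  rw [Subgroup.commutator_le]
  intro a ha b hb
  rw [Subgroup.mem_bot, commutatorElement_eq_one_iff_mul_comm]
  rw [← SemidirectProduct.range_inl_eq_ker_rightHom] at ha hb
  obtain ⟨x, rfl⟩ := ha
  obtain ⟨y, rfl⟩ := hb
  rw [← map_mul, ← map_mul, mul_comm]

/-- PROOF. `ι (x, v) = (x, v ^ W)`: `ract W v = ract 1 (v ^ W)`. Injective since `W ≥ 1`. The range is the preimage under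
`SemidirectProduct.rightHom` of the subgroup of the `W`-th powers of `VV`, which has finite index. -/
theorem exists_iota (W : ℕ) (hW : 1 ≤ W) :
    ∃ ι : (RHoro W hW).Gam →* (RHoro 1 le_rfl).Gam, Function.Injective ι ∧ ι.range.FiniteIndex := by
  let ι : (RHoro W hW).Gam →* (RHoro 1 le_rfl).Gam :=
    SemidirectProduct.map (MonoidHom.id RN) (powMonoidHom W) (by
      intro v
      ext x
      exact congrArg (fun y : RN => ((Multiplicative.toAdd y : RR) : KK)) (R2_act W v x))
  refine ⟨ι, ?_, ?_⟩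
  · intro a b hab
    have h1 : (ι a).left = (ι b).left := by rw [hab]
    have h2 : (ι a).right = (ι b).right := by rw [hab]
    exact SemidirectProduct.ext h1 (R2_pow_inj W hW h2)
  · obtain ⟨ψ, hψ⟩ := R2_fin W hW
    haveI : NeZero W := ⟨by omega⟩
    have hle : (ψ.comp (SemidirectProduct.rightHom : (RHoro 1 le_rfl).Gam →* VV)).ker ≤
        ι.range := by
      intro g hg
      obtain ⟨v, hv⟩ := hψ (show g.right ∈ ψ.ker from hg)
      refine ⟨⟨g.left, v⟩, ?_⟩
      exact SemidirectProduct.ext rfl hv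
    have hc : (ψ.comp (SemidirectProduct.rightHom :
        (RHoro 1 le_rfl).Gam →* VV)).ker.FiniteIndex := inferInstance
    exact Subgroup.finiteIndex_of_le hle

/-- PROOF. The derived subgroup is contained in the kernel of `SemidirectProduct.rightHom` (`VV` is commutative), which is
commutative (`RN` is). -/
theorem RG_metabelian : derivedSeries (RHoro 1 le_rfl).Gam 2 = ⊥ :=
  R2_met (RHoro 1 le_rfl).act

end Pool.Agent.W_bec814_h98
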