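import Pool.Agent.W_bec814_h98.Card2
import Pool.Agent.W_bec814_h98.Dig

/-!
# The bijection between two semidirect products with the same `|A|`
-/

set_option autoImplicit false

namespace Pool.Agent.W_bec814_h98

variable {N N' : Type} [Group N] [Group N'] (D : Horo N) (D' : Horo N')

/-- digits of all three filtrations -/
private lemma theta_digits {N : Type} [Group N] (D : Horo N) (q : ℕ) [NeZero q] (hq : Nat.card D.A = q) :
    ∃ dig : Fin 3 → ℤ → N → Fin q,
      (∀ i x y h, x⁻¹ * y ∈ D.F i h ↔ ∀ j, j < h → dig i j x = dig i j y) ∧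
      (∀ i, ∀ a : ℤ → Fin q, (∃ k, ∀ j, j < k → a j = 0) → ∀ h, ∃ x, ∀ j, j < h → dig i j x = a j) ∧
      (∀ i x, ∃ k, ∀ j, j < k → dig i j x = 0) := by
  have key := fun i : Fin 3 => exists_digits q (D.F i) (D.anti i) (D.exh i)
    (fun h => exists_label D q hq i h)
  choose dig h1 h2 h3 using key
  exact ⟨dig, h1, h2, h3⟩

/-- transfer of digits -/
private lemma theta_transfer (q : ℕ) [NeZero q] (dig : Fin 3 → ℤ → N → Fin q)
    (dig' : Fin 3 → ℤ → N' → Fin q)
    (h3 : ∀ i x, ∃ k, ∀ j, j < k → dig i j x = 0)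
    (h1' : ∀ i x y h, x⁻¹ * y ∈ D'.F i h ↔ ∀ j, j < h → dig' i j x = dig' i j y)
    (h2' : ∀ i, ∀ a : ℤ → Fin q, (∃ k, ∀ j, j < k → a j = 0) →
      ∀ h, ∃ x, ∀ j, j < h → dig' i j x = a j) :
    ∃ f : VV → N → N', ∀ v x i j, j < ht v i → dig' i j (f v x) = dig i j x := by
  have key : ∀ (v : VV) (x : N), ∃ x' : N', ∀ i j, j < ht v i → dig' i j x' = dig i j x := by
    intro v x
    have hy : ∀ i, ∃ y : N', ∀ j, j < ht v i → dig' i j y = dig i j x :=
      fun i => h2' i (fun j => dig i j x) (h3 i x) (ht v i)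
    choose y hy using hy
    obtain ⟨x', hx'⟩ := D'.indep (ht v) (ht_sum v) y
    refine ⟨x', fun i j hj => ?_⟩
    have := (h1' i (y i) x' (ht v i)).1 (hx' i) j hj
    rw [← this]
    exact hy i j hj
  choose f hf using key
  exact ⟨f, hf⟩

/-- uniqueness of the transfer -/
private lemma theta_unique {N : Type} [Group N] (D : Horo N) (q : ℕ) [NeZero q]
    (dig : Fin 3 → ℤ → N → Fin q)
    (h1 : ∀ i x y h, x⁻¹ * y ∈ D.F i h ↔ ∀ j, j < h → dig i j x = dig i j y)
    (v : VV) (x y : N) (hxy : ∀ i j, j < ht v i → dig i j x = dig i j y) : x = y := by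
  have h := D.triv (ht v) (ht_sum v) (x⁻¹ * y) (fun i => (h1 i x y (ht v i)).2 (hxy i))
  exact inv_mul_eq_one.1 h

/-- PROOF. Let `dig i`, `dig' i` be the digits (`exists_digits` with `exists_label`) of the filtrations `F i` of `D`, `D'`,
`i = 0, 1, 2`, all with values in `Fin q`. For `(x, v)` there is exactly one `x' ∈ N'` whose `dig' i`-digits below `ht v i` are the
`dig i`-digits of `x` below `ht v i`, for `i = 0, 1, 2`: existence by (D2), (D3) for each `i` separately, then `D'.indep` at the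
heights `ht v` (sum `0`, `ht_sum`) and (D1); uniqueness by (D1) and `D'.triv`. Put `Θ (x, v) = (x', v)`; the same
construction from `D'` to `D` is the inverse (the digits below `ht v i` determine both). For `h ≤ ht a.right`, `h ≤ ht b.right`
the condition `a.left⁻¹ * b.left ∈ M h` says that the `dig i`-digits below `h i` of `a.left`, `b.left` agree, `i = 0, 1, 2`,
which is the same condition for `Θ a`, `Θ b`. -/
theorem exists_theta (q : ℕ) [NeZero q] (hq : Nat.card D.A = q) (hq' : Nat.card D'.A = q) :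
    ∃ Θ : D.Gam ≃ D'.Gam, (∀ a, (Θ a).right = a.right) ∧
      ∀ (a b : D.Gam) (h : Fin 3 → ℤ), (∀ i, h i ≤ ht a.right i) → (∀ i, h i ≤ ht b.right i) →
        (a.left⁻¹ * b.left ∈ D.M h ↔ (Θ a).left⁻¹ * (Θ b).left ∈ D'.M h) := by
  obtain ⟨dig, h1, h2, h3⟩ := theta_digits D q hq
  obtain ⟨dig', h1', h2', h3'⟩ := theta_digits D' q hq'
  obtain ⟨f, hf⟩ := theta_transfer D' q dig dig' h3 h1' h2'
  obtain ⟨g, hg⟩ := theta_transfer D q dig' dig h3' h1 h2
  have hgf : ∀ v x, g v (f v x) = x := fun v x =>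
    theta_unique D q dig h1 v _ _ fun i j hj => by rw [hg v _ i j hj, hf v _ i j hj]
  have hfg : ∀ v x, f v (g v x) = x := fun v x =>
    theta_unique D' q dig' h1' v _ _ fun i j hj => by rw [hf v _ i j hj, hg v _ i j hj]
  refine ⟨⟨fun a => ⟨f a.right a.left, a.right⟩, fun a => ⟨g a.right a.left, a.right⟩, ?_, ?_⟩,
    fun a => rfl, ?_⟩
  · intro a
    ext
    · exact hgf _ _
    · rfl
    · rfl
  · intro a
    ext
    · exact hfg _ _
    · rfl
    · rfl
  · intro a b h ha hb
    show _ ↔ (f a.right a.left)⁻¹ * (f b.right b.left) ∈ D'.M h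
    rw [mem_M, mem_M]
    refine forall_congr' fun i => ?_
    rw [h1, h1']
    refine forall_congr' fun j => ?_
    refine imp_congr_right fun hj => ?_
    rw [hf a.right a.left i j (lt_of_lt_of_le hj (ha i)),
      hf b.right b.left i j (lt_of_lt_of_le hj (hb i))]

end Pool.Agent.W_bec814_h98
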