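import Pool.Agent.W_bec814_h98.U3
import Pool.Agent.W_bec814_h98.RingF

/-!
# The order of the basic subgroup of the unitriangular data
-/

set_option autoImplicit false

namespace Pool.Agent.W_bec814_h98

lemma u4_mem_A {m : ℕ} {g : NN m} (hg : g ∈ (UHoro m).A) {j k : Fin m} (hjk : j < k) :
    ((g : (Matrix (Fin m) (Fin m) KK)ˣ) : Matrix (Fin m) (Fin m) KK) j k ∈
      LL ((k : ℕ) - (j : ℕ)) := by
  have h1 : ∀ i, g ∈ NF m i ((![0, 0, -1] : Fin 3 → ℤ) i) := (mem_M (UHoro m)).1 hg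
  have a0 := mem_NF.1 (h1 0) j k hjk
  have a1 := mem_NF.1 (h1 1) j k hjk
  have a2 := mem_NF.1 (h1 2) j k hjk
  refine ⟨⟨?_, ?_⟩, ?_⟩
  · simpa using a0
  · simpa using a1
  · simpa using a2

lemma u4_UT {m : ℕ} (g : NN m) :
    UT m famR ((g : (Matrix (Fin m) (Fin m) KK)ˣ) : Matrix (Fin m) (Fin m) KK) := g.2

lemma u4_ext {m : ℕ} {g g' : NN m}
    (h : ∀ j k : Fin m, j < k →
      ((g : (Matrix (Fin m) (Fin m) KK)ˣ) : Matrix (Fin m) (Fin m) KK) j k =
      ((g' : (Matrix (Fin m) (Fin m) KK)ˣ) : Matrix (Fin m) (Fin m) KK) j k) : g = g' := by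
  apply Subtype.ext
  apply Units.ext
  ext j k
  rcases lt_trichotomy j k with h1 | h1 | h1
  · exact h j k h1
  · subst h1
    rw [(u4_UT g).1 j, (u4_UT g').1 j]
  · rw [(u4_UT g).2.1 j k h1, (u4_UT g').2.1 j k h1]

lemma u4_finite_LL (W : ℕ) : Finite (LL W) := by
  refine Nat.finite_of_card_ne_zero ?_
  rw [card_LL]
  positivity

lemma u4_finite (m : ℕ) : Finite (UHoro m).A := by
  have : ∀ p : {p : Fin m × Fin m // p.1 < p.2}, Finite (LL ((p.1.2 : ℕ) - (p.1.1 : ℕ))) :=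
    fun p => u4_finite_LL _
  let f : (UHoro m).A → ∀ p : {p : Fin m × Fin m // p.1 < p.2}, LL ((p.1.2 : ℕ) - (p.1.1 : ℕ)) :=
    fun g p => ⟨_, u4_mem_A g.2 p.2⟩
  refine Finite.of_injective f ?_
  intro g g' h
  apply Subtype.ext
  refine u4_ext fun j k hjk => ?_
  have h1 := congrFun h ⟨(j, k), hjk⟩
  exact congrArg Subtype.val h1

lemma u4_pgroup (m : ℕ) : IsPGroup 2 (UHoro m).A := by
  intro g
  refine ⟨m, ?_⟩
  apply Subtype.ext
  apply Subtype.ext
  apply Units.ext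
  have h := UT_pow (u4_UT (g : NN m))
  simpa using h

lemma u4_one_mem (i : Fin 3) : (1 : KK) ∈ AF i ((![0, 0, -1] : Fin 3 → ℤ) i) := by
  fin_cases i
  · show (1 : KK) ∈ AF0 0
    exact ⟨0, by simp⟩
  · show (1 : KK) ∈ AF1 0
    exact ⟨0, by simp⟩
  · show (1 : KK) ∈ AF2 (-1)
    exact ⟨RR.one_mem, Or.inr (by simp)⟩

lemma u4_nontrivial (m : ℕ) (hm : 2 ≤ m) : ∃ g ∈ (UHoro m).A, g ≠ 1 := by
  classical
  let i0 : Fin m := ⟨0, by omega⟩
  let i1 : Fin m := ⟨1, by omega⟩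
  have hne : i0 ≠ i1 := by
    intro h
    have := congrArg Fin.val h
    simp [i0, i1] at this
  let M : Matrix (Fin m) (Fin m) KK := fun j k =>
    if j = k then 1 else if j = i0 ∧ k = i1 then 1 else 0
  have hM1 : ∀ j, M j j = 1 := fun j => by simp [M]
  have hM2 : ∀ j k, j < k → M j k = 0 ∨ (M j k = 1 ∧ j = i0 ∧ k = i1) := by
    intro j k hjk
    simp only [M]
    rw [if_neg hjk.ne]
    split_ifs with h
    · exact Or.inr ⟨rfl, h⟩
    · exact Or.inl rfl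
  have hM : UT m famR M := by
    refine ⟨hM1, ?_, ?_⟩
    · intro j k hkj
      simp only [M]
      rw [if_neg hkj.ne', if_neg]
      rintro ⟨rfl, rfl⟩
      have h1 : (i1 : ℕ) < (i0 : ℕ) := hkj
      simp [i0, i1] at h1
    · intro j k hjk
      rcases hM2 j k hjk with h | ⟨h, _, _⟩
      · rw [h]; exact AddSubgroup.zero_mem _
      · rw [h]; exact RR.one_mem
  obtain ⟨g, hg⟩ := UT_unit hM
  have hgN : g ∈ NN m := by
    show UT m famR (g : Matrix (Fin m) (Fin m) KK)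
    rw [hg]; exact hM
  refine ⟨⟨g, hgN⟩, ?_, ?_⟩
  · refine (mem_M (UHoro m)).2 fun i => ?_
    show (⟨g, hgN⟩ : NN m) ∈ NF m i ((![0, 0, -1] : Fin 3 → ℤ) i)
    rw [mem_NF]
    intro j k hjk
    show (g : Matrix (Fin m) (Fin m) KK) j k ∈ _
    rw [hg]
    rcases hM2 j k hjk with h | ⟨h, rfl, rfl⟩
    · rw [h]; exact AddSubgroup.zero_mem _
    · rw [h]
      have h1 : (((i1 : ℕ) - (i0 : ℕ) : ℕ) : ℤ) * (![0, 0, -1] : Fin 3 → ℤ) i =
          (![0, 0, -1] : Fin 3 → ℤ) i := by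
        simp [i0, i1]
      rw [h1]
      exact u4_one_mem i
  · intro h
    have h1 : g = 1 := congrArg Subtype.val h
    have h2 : (g : Matrix (Fin m) (Fin m) KK) i0 i1 = 0 := by
      rw [h1, Units.val_one, Matrix.one_apply_ne hne]
    rw [hg] at h2
    have h3 : M i0 i1 = 1 := by
      show (if i0 = i1 then (1 : KK) else if i0 = i0 ∧ i1 = i1 then 1 else 0) = 1
      rw [if_neg hne, if_pos ⟨rfl, rfl⟩]
    rw [h3] at h2
    exact one_ne_zero h2

/-- PROOF. FINITE: the entries of an element of `A = M (0, 0, -1)` are in the finite sets `LL w`, `w = k - j` (`card_LL`, positive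
cardinality). POWER OF TWO: every element satisfies `g ^ (2 ^ m) = 1` (`UT_pow`), so `A` is a `2`-group
(`IsPGroup`, `IsPGroup.iff_card`). NOT TRIVIAL: the matrix with entry `1` at `(0, 1)` and zeros elsewhere above the
diagonal (`exists_super` or `UT_unit`) is in `A`, since `1 ∈ LL w` for `w ≥ 1` and `0` is in everything. -/
theorem card_UA (m : ℕ) (hm : 2 ≤ m) : ∃ W : ℕ, 1 ≤ W ∧ Nat.card (UHoro m).A = 2 ^ W := by
  have := u4_finite m
  have : Fact (Nat.Prime 2) := ⟨Nat.prime_two⟩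
  obtain ⟨W, hW⟩ := IsPGroup.iff_card.1 (u4_pgroup m)
  refine ⟨W, ?_, hW⟩
  rcases Nat.eq_zero_or_pos W with h0 | h0
  · exfalso
    rw [h0, pow_zero, Nat.card_eq_one_iff_unique] at hW
    obtain ⟨g, hg, hne⟩ := u4_nontrivial m hm
    obtain ⟨h1, _⟩ := hW
    have h2 : (⟨g, hg⟩ : (UHoro m).A) = 1 := Subsingleton.elim _ _
    exact hne (congrArg Subtype.val h2)
  · exact h0

end Pool.Agent.W_bec814_h98
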