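import Pool.Agent.W_bec814_h98.FPb
import Pool.Agent.W_bec814_h98.Theta
import Pool.Agent.W_bec814_h98.Cay
import Pool.Agent.W_bec814_h98.Idx
import Pool.Agent.W_bec814_h98.U4
import Pool.Agent.W_bec814_h98.R2
import Pool.Agent.W_bec814_h98.Der2

/-!
# The main theorem
-/

set_option autoImplicit false

namespace Pool.Agent.W_bec814_h98

/-- Two horocyclic data with basic subgroups of the same finite order, the second of which embeds with finite
index in `G`: then the first semidirect product is quasi-isometric to `G`.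
PROOF. `S`, `T` the generating sets of `exists_gens` for `D`, `D'`; `Θ` of `exists_theta` satisfies
`a⁻¹ * b ∈ S ↔ (Θ a)⁻¹ * Θ b ∈ T` (the heights `min (ht a.right) (ht b.right)`), so `wlen_bij` applies; with `idx_qi` for `ι` and
a finite generating set `U` of `G` the map `ι ∘ Θ` is a quasi-isometry. -/
theorem qiso_of {N N' G : Type} [Group N] [Group N'] [Group G] (D : Horo N) (D' : Horo N')
    (hA : Finite D.A) (hA' : Finite D'.A) (hq : Nat.card D.A = Nat.card D'.A) (U : Finset G)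
    (hU : Subgroup.closure (U : Set G) = ⊤) (ι : D'.Gam →* G) (hi : Function.Injective ι)
    (hf : ι.range.FiniteIndex) : QIso D.Gam G := by
  obtain ⟨S, hS, hSi, hSm⟩ := exists_gens D hA
  obtain ⟨T, hT, hTi, hTm⟩ := exists_gens D' hA'
  have hne : NeZero (Nat.card D.A) := ⟨Nat.card_pos.ne'⟩
  obtain ⟨Θ, hr, hΘ⟩ := exists_theta D D' (Nat.card D.A) rfl hq.symm
  have hST : ∀ a b : D.Gam, a⁻¹ * b ∈ S ↔ (Θ a)⁻¹ * Θ b ∈ T := by
    intro a b
    rw [hSm, hTm, hr, hr]
    refine and_congr_right fun _ => ?_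
    exact hΘ a b _ (fun i => min_le_left _ _) (fun i => min_le_right _ _)
  have hw := wlen_bij S T hS hT hSi hTi Θ hST
  obtain ⟨K, C, h1, h2, h3⟩ := idx_qi U T hU hT ι hi hf
  refine ⟨S, U, hS, hU, fun a => ι (Θ a), K, C, fun a b => ⟨?_, ?_⟩, fun g => ?_⟩
  · have := h1 ((Θ a)⁻¹ * Θ b)
    rw [map_mul, map_inv, hw] at this
    exact this.trans (Nat.le_add_right _ _)
  · have := h2 ((Θ a)⁻¹ * Θ b)
    rw [map_mul, map_inv, hw] at this
    exact this.trans (Nat.le_add_right _ _)
  · obtain ⟨x, hx⟩ := h3 g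
    exact ⟨Θ.symm x, by simpa using hx⟩

/-- A finitely presented group has a finite generating set. -/
lemma FinPres.gens {G : Type} [Group G] (h : FinPres G) :
    ∃ U : Finset G, Subgroup.closure (U : Set G) = ⊤ := by
  classical
  obtain ⟨n, φ, R, hφ, _⟩ := h
  refine ⟨Finset.univ.image fun i => φ (FreeGroup.of i), ?_⟩
  rw [Finset.coe_image, Finset.coe_univ, Set.image_univ]
  have h1 : Set.range (fun i : Fin n => φ (FreeGroup.of i)) = φ '' Set.range FreeGroup.of := by
    rw [← Set.range_comp]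
    rfl
  rw [h1, ← MonoidHom.map_closure, FreeGroup.closure_range_of, ← MonoidHom.range_eq_map,
    MonoidHom.range_eq_top.2 hφ]

/-- MAIN THEOREM. -/
theorem main : ∃ (G : Type) (_ : Group G), FinPres G ∧ derivedSeries G 2 = ⊥ ∧
    ∀ n : ℕ, ∃ (H : Type) (_ : Group H), FinPres H ∧ QIso H G ∧
      ∀ K : Subgroup H, K.FiniteIndex → derivedSeries K n ≠ ⊥ := by
  have hfinR : ∀ (W : ℕ) (hW : 1 ≤ W), Finite (RHoro W hW).A := by
    intro W hW
    refine Nat.finite_of_card_ne_zero ?_
    rw [card_RA]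
    positivity
  have hG : FinPres (RHoro 1 le_rfl).Gam := gam_finPres _ (hfinR 1 le_rfl)
  refine ⟨(RHoro 1 le_rfl).Gam, inferInstance, hG, RG_metabelian, fun n => ?_⟩
  obtain ⟨W, hW, hc⟩ := card_UA (2 ^ n + 1) (by
    have := Nat.one_le_two_pow (n := n)
    omega)
  have hfinU : Finite (UHoro (2 ^ n + 1)).A := by
    refine Nat.finite_of_card_ne_zero ?_
    rw [hc]
    positivity
  obtain ⟨U, hU⟩ := hG.gens
  obtain ⟨ι, hi, hf⟩ := exists_iota W hW
  refine ⟨(UHoro (2 ^ n + 1)).Gam, inferInstance, gam_finPres _ hfinU, ?_,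
    fun K hK => derived_ne _ n (Nat.lt_succ_self _) K hK⟩
  exact qiso_of (UHoro (2 ^ n + 1)) (RHoro W hW) hfinU (hfinR W hW)
    (by rw [hc, card_RA]) U hU ι hi hf

end Pool.Agent.W_bec814_h98
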