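import Pool.Agent.W_bec814_h98.RingA

/-!
# The filtrations meet trivially at heights with sum zero
-/

set_option autoImplicit false

namespace Pool.Agent.W_bec814_h98

/-- An element of order at least `0` at `T = 0` and at `T = 1` is a polynomial.
PROOF. `uu ^ b * r = f`, `tt ^ a * r = g` with `f, g` polynomials; so `X ^ a * f = (X + 1) ^ b * g` in `(ZMod 2)[X]`; `X ^ a` and
`(X + 1) ^ b` are coprime, so `(X + 1) ^ b ∣ f` and `r` is a polynomial. -/
theorem pol_of {r : KK} (h0 : r ∈ AF 0 0) (h1 : r ∈ AF 1 0) : r ∈ Pl := by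
  obtain ⟨b, f, hf⟩ : ∃ b : ℕ, uu ^ b * tt ^ (-(0 : ℤ)) * r ∈ Pl := h0
  obtain ⟨a, g, hg⟩ : ∃ a : ℕ, tt ^ a * uu ^ (-(0 : ℤ)) * r ∈ Pl := h1
  rw [neg_zero, zpow_zero, mul_one] at hf hg
  have eT : algebraMap (Polynomial (ZMod 2)) KK Polynomial.X = tt := RatFunc.algebraMap_X
  have eU : algebraMap (Polynomial (ZMod 2)) KK (Polynomial.X + 1) = uu := by
    rw [map_add, map_one, RatFunc.algebraMap_X]
    rfl
  have h2 : (Polynomial.X : Polynomial (ZMod 2)) ^ a * f = (Polynomial.X + 1) ^ b * g := by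
    apply FaithfulSMul.algebraMap_injective (Polynomial (ZMod 2)) KK
    rw [map_mul, map_mul, map_pow, map_pow, eT, eU, hf, hg]
    ring
  have h3 : IsCoprime ((Polynomial.X + 1 : Polynomial (ZMod 2)) ^ b) (Polynomial.X ^ a) := by
    apply IsCoprime.pow
    exact ⟨1, -1, by ring⟩
  have h4 : (Polynomial.X + 1 : Polynomial (ZMod 2)) ^ b ∣ f :=
    h3.dvd_of_dvd_mul_left ⟨g, h2⟩
  obtain ⟨q, rfl⟩ := h4
  refine ⟨q, ?_⟩
  rw [map_mul, map_pow, eU] at hf
  exact mul_left_cancel₀ (pow_ne_zero b uu_ne) hf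

/-- PROOF. By `AF_cc` with `v = vec (-(h 0)) (-(h 1))` we may assume `h = 0`. Then `r` is a polynomial (`pol_of`) with
`r = 0` or `intDegree r < 0`; the second is impossible (`RatFunc.intDegree_polynomial`). -/
theorem AF_triv {h : Fin 3 → ℤ} (hs : h 0 + h 1 + h 2 = 0) {r : KK} (hr : ∀ i, r ∈ AF i (h i)) :
    r = 0 := by
  have key : ∀ i, cc (vec (-(h 0)) (-(h 1))) * r ∈ AF i 0 := by
    intro i
    have h1 := (AF_cc (vec (-(h 0)) (-(h 1))) i (h i) r).2 (hr i)
    have h2 : h i + ht (vec (-(h 0)) (-(h 1))) i = 0 := by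
      rw [ht_vec]
      fin_cases i
      · simp
      · simp
      · simp
        linarith
    rwa [h2] at h1
  have hp := pol_of (key 0) (key 1)
  obtain ⟨q, hq⟩ := hp
  obtain ⟨-, h3⟩ : _ ∧ (cc (vec (-(h 0)) (-(h 1))) * r = 0 ∨
    (cc (vec (-(h 0)) (-(h 1))) * r).intDegree < -0) := key 2
  rcases h3 with h3 | h3
  · exact (mul_eq_zero.1 h3).resolve_left (cc_ne _)
  · exfalso
    rw [← hq, RatFunc.intDegree_polynomial] at h3
    simp at h3
    omega

end Pool.Agent.W_bec814_h98
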