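import Pool.Agent.W_bec814_h98.RingI1
import Pool.Agent.W_bec814_h98.RingT

/-!
# Independence of the filtrations of R (RingI2)
-/

set_option autoImplicit false

namespace Pool.Agent.W_bec814_h98

private lemma ri2_anti (i : Fin 3) {a b : ℤ} (hab : a ≤ b) {r : KK} (hr : r ∈ AF i b) :
    r ∈ AF i a :=
  (antitone_int_of_succ_le (f := AF i) (AF_anti i)) hab hr

private lemma ri2_one0 : (1 : KK) ∈ AF 0 0 := ⟨0, by simpa using Pl.one_mem⟩

private lemma ri2_one1 : (1 : KK) ∈ AF 1 0 := ⟨0, by simpa using Pl.one_mem⟩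

private lemma ri2_one2 : (1 : KK) ∈ AF 2 (-1) :=
  ⟨RR.one_mem, Or.inr (by rw [RatFunc.intDegree_one]; norm_num)⟩

private lemma ri2_mem0 {a b k : ℤ} (hk : k ≤ a) : cc (vec a b) ∈ AF 0 k := by
  have h := (AF_cc (vec a b) 0 0 1).2 ri2_one0
  rw [mul_one] at h
  refine ri2_anti 0 ?_ h
  rw [ht_vec]
  simpa using hk

private lemma ri2_mem1 {a b k : ℤ} (hk : k ≤ b) : cc (vec a b) ∈ AF 1 k := by
  have h := (AF_cc (vec a b) 1 0 1).2 ri2_one1
  rw [mul_one] at h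
  refine ri2_anti 1 ?_ h
  rw [ht_vec]
  simpa using hk

private lemma ri2_mem2 {a b k : ℤ} (hk : k + a + b ≤ -1) : cc (vec a b) ∈ AF 2 k := by
  have h := (AF_cc (vec a b) 2 (-1) 1).2 ri2_one2
  rw [mul_one] at h
  refine ri2_anti 2 ?_ h
  rw [ht_vec]
  simp
  linarith

private lemma ri2_not {a b : ℤ} (h : Fin 3 → ℤ) (hs : h 0 + h 1 + h 2 = 0)
    (h0 : cc (vec a b) ∈ AF 0 (h 0)) (h1 : cc (vec a b) ∈ AF 1 (h 1))
    (h2 : cc (vec a b) ∈ AF 2 (h 2)) : False := by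
  refine cc_ne (vec a b) (AF_triv hs (fun i => ?_))
  fin_cases i
  · exact h0
  · exact h1
  · exact h2

/-- The element `w = T^α (1+T)^β` separates: for every `i` and `n` with `n + (h j + h k) ≤ -1` (`j, k` the other indices) there is
`w ∈ AF i n`, not in `AF i (n + 1)`, with `w ∈ AF j (h j)` for `j ≠ i`.
PROOF. `i = 0`: `tt ^ n * uu ^ (h 1)` (degree `n + h 1 < - h 2`); `i = 1`: `tt ^ (h 0) * uu ^ n`; `i = 2`:
`tt ^ (h 0) * uu ^ (-n - 1 - h 0)` (note `-n - 1 - h 0 ≥ h 1`). -/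
theorem exists_sep {h : Fin 3 → ℤ} (i : Fin 3) (n : ℤ) (hn : n + (h 0 + h 1 + h 2) - h i ≤ -1) :
    ∃ w ∈ RR, w ∈ AF i n ∧ w ∉ AF i (n + 1) ∧ ∀ j, j ≠ i → w ∈ AF j (h j) := by
  fin_cases i
  · have hn' : n + (h 0 + h 1 + h 2) - h 0 ≤ -1 := hn
    refine ⟨cc (vec n (h 1)), cc_mem _, ri2_mem0 le_rfl, ?_, ?_⟩
    · intro hw
      refine ri2_not ![n + 1, h 1, -n - h 1 - 1] ?_ hw (ri2_mem1 ?_) (ri2_mem2 ?_)
      · simp
        ring
      · simp
      · simp
        linarith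
    · intro j hj
      fin_cases j
      · exact absurd rfl hj
      · exact ri2_mem1 le_rfl
      · change _ ∈ AF 2 (h 2)
        exact ri2_mem2 (by linarith)
  · have hn' : n + (h 0 + h 1 + h 2) - h 1 ≤ -1 := hn
    refine ⟨cc (vec (h 0) n), cc_mem _, ri2_mem1 le_rfl, ?_, ?_⟩
    · intro hw
      refine ri2_not ![h 0, n + 1, -n - h 0 - 1] ?_ (ri2_mem0 ?_) hw (ri2_mem2 ?_)
      · simp
        ring
      · simp
      · simp
        linarith
    · intro j hj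
      fin_cases j
      · exact ri2_mem0 le_rfl
      · exact absurd rfl hj
      · change _ ∈ AF 2 (h 2)
        exact ri2_mem2 (by linarith)
  · have hn' : n + (h 0 + h 1 + h 2) - h 2 ≤ -1 := hn
    refine ⟨cc (vec (h 0) (-n - 1 - h 0)), cc_mem _, ri2_mem2 (by linarith), ?_, ?_⟩
    · intro hw
      refine ri2_not ![h 0, -n - 1 - h 0, n + 1] ?_ (ri2_mem0 ?_) (ri2_mem1 ?_) hw
      · simp
      · simp
      · simp
    · intro j hj
      fin_cases j
      · exact ri2_mem0 le_rfl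
      · change _ ∈ AF 1 (h 1)
        exact ri2_mem1 (by linarith)
      · exact absurd rfl hj

private lemma ri2_key {h : Fin 3 → ℤ} (hs : h 0 + h 1 + h 2 = 0) (i : Fin 3) (m : ℕ) :
    ∀ y ∈ RR, y ∈ AF i (h i - m) → ∃ r ∈ RR, r - y ∈ AF i (h i) ∧ ∀ j, j ≠ i → r ∈ AF j (h j) := by
  induction m with
  | zero =>
    intro y _ hy
    refine ⟨0, RR.zero_mem, ?_, fun j _ => (AF j (h j)).zero_mem⟩
    rw [zero_sub]
    refine (AF i (h i)).neg_mem ?_
    simpa using hy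
  | succ m ih =>
    intro y hyR hy
    have hn : (h i - ((m + 1 : ℕ) : ℤ)) + (h 0 + h 1 + h 2) - h i ≤ -1 := by
      push_cast
      have : (0 : ℤ) ≤ m := Int.natCast_nonneg m
      linarith
    obtain ⟨w, hwR, hw1, hw2, hw3⟩ := exists_sep i (h i - ((m + 1 : ℕ) : ℤ)) hn
    have he : h i - ((m + 1 : ℕ) : ℤ) + 1 = h i - m := by
      push_cast
      ring
    rcases AF_step i _ hy hw1 hw2 with h1 | h1
    · rw [he] at h1
      exact ih y hyR h1
    · rw [he] at h1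
      obtain ⟨r, hrR, hr1, hr2⟩ := ih (y - w) (RR.sub_mem hyR hwR) h1
      refine ⟨r + w, RR.add_mem hrR hwR, ?_, fun j hj => (AF j (h j)).add_mem (hr2 j hj) (hw3 j hj)⟩
      have e : r + w - y = r - (y - w) := by ring
      rw [e]
      exact hr1

private lemma ri2_one_index {h : Fin 3 → ℤ} (hs : h 0 + h 1 + h 2 = 0) (i : Fin 3) (y : KK)
    (hy : y ∈ RR) : ∃ r ∈ RR, r - y ∈ AF i (h i) ∧ ∀ j, j ≠ i → r ∈ AF j (h j) := by
  obtain ⟨n, hn⟩ := AF_exh i hy
  refine ri2_key hs i (h i - n).toNat y hy (ri2_anti i ?_ hn)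
  have := Int.self_le_toNat (h i - n)
  linarith

/-- PROOF. First: for each `i` and `y ∈ R` there is `r ∈ R` with `r - y ∈ AF i (h i)` and `r ∈ AF j (h j)` for `j ≠ i`: let
`y ∈ AF i n` (`AF_exh`, `n ≤ h i`); by `AF_step` and `exists_sep` (`n < h i`) `y` or `y - w` is in `AF i (n + 1)`; induction on
`h i - n`. Then add the three solutions. -/
theorem AF_indep {h : Fin 3 → ℤ} (hs : h 0 + h 1 + h 2 = 0) (y : Fin 3 → KK) (hy : ∀ i, y i ∈ RR) :
    ∃ r ∈ RR, ∀ i, r - y i ∈ AF i (h i) := by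
  choose r hrR hr1 hr2 using fun i => ri2_one_index hs i (y i) (hy i)
  refine ⟨∑ j, r j, RR.sum_mem (fun j _ => hrR j), fun i => ?_⟩
  have e : ∑ j, r j - y i = (r i - y i) + ∑ j ∈ Finset.univ.erase i, r j := by
    rw [← Finset.add_sum_erase Finset.univ r (Finset.mem_univ i)]
    ring
  rw [e]
  exact (AF i (h i)).add_mem (hr1 i)
    ((AF i (h i)).sum_mem (fun j hj => hr2 j i (Finset.ne_of_mem_erase hj).symm))

end Pool.Agent.W_bec814_h98
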