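import Pool.Agent.W_bec814_h98.RingF
import Pool.Agent.W_bec814_h98.RingI2

/-!
# The horocyclic data of the additive group of `R`, scaled by `W`
-/

set_option autoImplicit false

namespace Pool.Agent.W_bec814_h98

/-- the additive group of `R`, written multiplicatively -/
abbrev RN : Type := Multiplicative RR

private lemma R1_mem (W : ℕ) (v : VV) (r : RR) : cc v ^ W * (r : KK) ∈ RR :=
  RR.mul_mem (RR.pow_mem (cc_mem v) W) r.2

private lemma R1_inv (W : ℕ) (v : VV) (r : KK) : cc v⁻¹ ^ W * (cc v ^ W * r) = r := by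
  rw [← mul_assoc, ← mul_pow, ← cc_mul, inv_mul_cancel, cc_one, one_pow, one_mul]

private lemma R1_inv2 (W : ℕ) (v : VV) (r : KK) : cc v ^ W * (cc v⁻¹ ^ W * r) = r := by
  rw [← mul_assoc, ← mul_pow, ← cc_mul, mul_inv_cancel, cc_one, one_pow, one_mul]

private noncomputable def R1_aut (W : ℕ) (v : VV) : MulAut RN where
  toFun x := Multiplicative.ofAdd ⟨cc v ^ W * ((Multiplicative.toAdd x : RR) : KK), R1_mem W v _⟩
  invFun x := Multiplicative.ofAdd ⟨cc v⁻¹ ^ W * ((Multiplicative.toAdd x : RR) : KK), R1_mem W v⁻¹ _⟩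
  left_inv x := by
    apply Multiplicative.toAdd.injective
    apply Subtype.ext
    exact R1_inv W v _
  right_inv x := by
    apply Multiplicative.toAdd.injective
    apply Subtype.ext
    exact R1_inv2 W v _
  map_mul' x y := by
    apply Multiplicative.toAdd.injective
    apply Subtype.ext
    exact mul_add _ _ _

private lemma R1_aut_apply (W : ℕ) (v : VV) (x : RN) :
    ((Multiplicative.toAdd (R1_aut W v x) : RR) : KK) =
      cc v ^ W * ((Multiplicative.toAdd x : RR) : KK) := rfl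

/-- PROOF. Multiplication by `cc v ^ W` (in `R`, with inverse `cc v⁻¹ ^ W`). -/
theorem exists_ract (W : ℕ) : ∃ φ : VV →* MulAut RN, ∀ v (x : RN),
    ((Multiplicative.toAdd (φ v x) : RR) : KK) = cc v ^ W * ((Multiplicative.toAdd x : RR) : KK) := by
  refine ⟨{ toFun := R1_aut W, map_one' := ?_, map_mul' := ?_ }, fun v x => R1_aut_apply W v x⟩
  · apply MulEquiv.ext
    intro x
    apply Multiplicative.toAdd.injective
    apply Subtype.ext
    rw [R1_aut_apply, cc_one, one_pow, one_mul]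
    rfl
  · intro v w
    apply MulEquiv.ext
    intro x
    apply Multiplicative.toAdd.injective
    apply Subtype.ext
    rw [MulAut.mul_apply, R1_aut_apply, R1_aut_apply, R1_aut_apply, cc_mul, mul_pow, mul_assoc]

/-- the action of `ℤ²` through `T ^ W`, `(1 + T) ^ W` -/
noncomputable def ract (W : ℕ) : VV →* MulAut RN := Classical.choose (exists_ract W)

lemma ract_apply (W : ℕ) (v : VV) (x : RN) :
    ((Multiplicative.toAdd (ract W v x) : RR) : KK) = cc v ^ W * ((Multiplicative.toAdd x : RR) : KK) :=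
  Classical.choose_spec (exists_ract W) v x

/-- the filtrations -/
noncomputable def RF (W : ℕ) (i : Fin 3) (h : ℤ) : Subgroup RN where
  carrier := {x | ((Multiplicative.toAdd x : RR) : KK) ∈ AF i (W * h)}
  mul_mem' := fun ha hb => (AF i (W * h)).add_mem ha hb
  one_mem' := (AF i (W * h)).zero_mem
  inv_mem' := fun ha => (AF i (W * h)).neg_mem ha

lemma mem_RF {W : ℕ} {i : Fin 3} {h : ℤ} {x : RN} :
    x ∈ RF W i h ↔ ((Multiplicative.toAdd x : RR) : KK) ∈ AF i (W * h) := Iff.rfl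

private lemma R1_mono (i : Fin 3) {h k : ℤ} (hk : h ≤ k) : AF i k ≤ AF i h := by
  obtain ⟨n, rfl⟩ := Int.le.dest hk
  clear hk
  induction n with
  | zero => simp
  | succ n ih =>
    refine le_trans ?_ ih
    have := AF_anti i (h + n)
    push_cast
    rwa [← add_assoc]

theorem RF_anti (W : ℕ) (i : Fin 3) (h : ℤ) : RF W i (h + 1) ≤ RF W i h := by
  intro x hx
  rw [mem_RF] at hx ⊢
  refine R1_mono i ?_ hx
  have : (0 : ℤ) ≤ W := Int.natCast_nonneg W
  linarith [mul_add (W : ℤ) h 1]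

theorem RF_exh (W : ℕ) (hW : 1 ≤ W) (i : Fin 3) (x : RN) : ∃ h, x ∈ RF W i h := by
  obtain ⟨h, hh⟩ := AF_exh i (Multiplicative.toAdd x : RR).2
  refine ⟨-|h|, mem_RF.2 (R1_mono i ?_ hh)⟩
  have h1 : (1 : ℤ) ≤ W := by exact_mod_cast hW
  have h2 : 0 ≤ |h| := abs_nonneg h
  have h3 : -|h| ≤ h := neg_abs_le h
  nlinarith

private lemma R1_cc_pow (v : VV) (n : ℕ) : cc (v ^ n) = cc v ^ n := by
  induction n with
  | zero => rw [pow_zero, pow_zero, cc_one]
  | succ n ih => rw [pow_succ, cc_mul, ih, pow_succ]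

private lemma R1_ht_pow (v : VV) (n : ℕ) (i : Fin 3) : ht (v ^ n) i = n * ht v i := by
  induction n with
  | zero => rw [pow_zero, ht_one]; simp
  | succ n ih => rw [pow_succ, ht_mul, ih]; push_cast; ring

/-- PROOF. `AF_cc` for `v ^ W`. -/
theorem RF_equiv (W : ℕ) (v : VV) (i : Fin 3) (h : ℤ) (x : RN) :
    ract W v x ∈ RF W i (h + ht v i) ↔ x ∈ RF W i h := by
  rw [mem_RF, mem_RF, ract_apply, ← R1_cc_pow, mul_add, ← R1_ht_pow]
  exact AF_cc (v ^ W) i (W * h) _

theorem RF_triv (W : ℕ) (h : Fin 3 → ℤ) (hs : h 0 + h 1 + h 2 = 0) (x : RN)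
    (hx : ∀ i, x ∈ RF W i (h i)) : x = 1 := by
  have h1 := AF_triv (h := fun i => W * h i) (r := ((Multiplicative.toAdd x : RR) : KK))
    (by rw [← mul_add, ← mul_add, hs, mul_zero]) (fun i => mem_RF.1 (hx i))
  apply Multiplicative.toAdd.injective
  exact Subtype.ext h1

theorem RF_indep (W : ℕ) (h : Fin 3 → ℤ) (hs : h 0 + h 1 + h 2 = 0) (y : Fin 3 → RN) :
    ∃ x, ∀ i, (y i)⁻¹ * x ∈ RF W i (h i) := by
  obtain ⟨r, hr, hi⟩ := AF_indep (h := fun i => W * h i)
    (by rw [← mul_add, ← mul_add, hs, mul_zero])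
    (fun i => ((Multiplicative.toAdd (y i) : RR) : KK)) (fun i => (Multiplicative.toAdd (y i) : RR).2)
  refine ⟨Multiplicative.ofAdd ⟨r, hr⟩, fun i => mem_RF.2 ?_⟩
  have h1 := hi i
  rw [sub_eq_neg_add] at h1
  exact h1

/-- the horocyclic data of `R` with the action of `ℤ²` through `T ^ W`, `(1 + T) ^ W` -/
noncomputable def RHoro (W : ℕ) (hW : 1 ≤ W) : Horo RN where
  act := ract W
  F := RF W
  anti := RF_anti W
  exh := RF_exh W hW
  equiv := RF_equiv W
  triv := RF_triv W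
  indep := RF_indep W

/-- PROOF. `A = M (0, 0, -1)` is in bijection with `LL W` (`card_LL`; elements of `AF 2 _` are in `R`, `AF_le`). -/
theorem card_RA (W : ℕ) (hW : 1 ≤ W) : Nat.card (RHoro W hW).A = 2 ^ W := by
  rw [← card_LL W]
  have hmem : ∀ x : RN, x ∈ (RHoro W hW).A ↔ ((Multiplicative.toAdd x : RR) : KK) ∈ LL W := by
    intro x
    have h1 : x ∈ (RHoro W hW).A ↔ ∀ i, x ∈ RF W i (![0, 0, -1] i) := mem_M (RHoro W hW)
    rw [h1]
    constructor
    · intro h
      have h0 := mem_RF.1 (h 0)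
      have h1 := mem_RF.1 (h 1)
      have h2 := mem_RF.1 (h 2)
      have e0 : (W : ℤ) * (![0, 0, -1] : Fin 3 → ℤ) 0 = 0 := by simp
      have e1 : (W : ℤ) * (![0, 0, -1] : Fin 3 → ℤ) 1 = 0 := by simp
      have e2 : (W : ℤ) * (![0, 0, -1] : Fin 3 → ℤ) 2 = -(W : ℤ) := by simp
      rw [e0] at h0
      rw [e1] at h1
      rw [e2] at h2
      exact ⟨⟨h0, h1⟩, h2⟩
    · rintro ⟨⟨h0, h1⟩, h2⟩ i
      rw [mem_RF]
      fin_cases i
      · simpa using h0
      · simpa using h1
      · simpa using h2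
  refine Nat.card_congr ⟨fun x => ⟨((Multiplicative.toAdd x.1 : RR) : KK), (hmem _).1 x.2⟩,
    fun r => ⟨Multiplicative.ofAdd ⟨r.1, AF_le 2 _ r.2.2⟩, (hmem _).2 r.2⟩, fun x => ?_, fun r => ?_⟩
  · rfl
  · rfl

end Pool.Agent.W_bec814_h98
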