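import Pool.Agent.W_bec814_h98.Basic

/-!
# The ring `R = F_2[T, 1/T, 1/(1+T)]` and its three filtrations
-/

set_option autoImplicit false

namespace Pool.Agent.W_bec814_h98

/-- the field of rational functions over `F_2` -/
abbrev KK : Type := RatFunc (ZMod 2)

/-- the variable -/
noncomputable def tt : KK := RatFunc.X

/-- `1 + T` -/
noncomputable def uu : KK := RatFunc.X + 1

lemma tt_ne : tt ≠ 0 := RatFunc.X_ne_zero

lemma uu_ne : uu ≠ 0 := by
  rw [uu]
  intro h
  have h1 : (algebraMap (Polynomial (ZMod 2)) KK) (Polynomial.X + 1) = 0 := by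
    rw [map_add, map_one, RatFunc.algebraMap_X]
    exact h
  rw [FaithfulSMul.algebraMap_eq_zero_iff] at h1
  have h2 := congrArg (fun p => Polynomial.coeff p 1) h1
  simp [Polynomial.coeff_one] at h2

/-- polynomial elements -/
noncomputable def Pl : Subring KK := (algebraMap (Polynomial (ZMod 2)) KK).range

lemma tt_mem : tt ∈ Pl := ⟨Polynomial.X, RatFunc.algebraMap_X⟩

lemma uu_mem : uu ∈ Pl := ⟨Polynomial.X + 1, by rw [map_add, map_one, RatFunc.algebraMap_X]; rfl⟩

/-- the ring `R` -/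
noncomputable def RR : Subring KK where
  carrier := {r | ∃ a b : ℕ, tt ^ a * uu ^ b * r ∈ Pl}
  mul_mem' := by
    rintro r s ⟨a, b, h⟩ ⟨c, d, h'⟩
    refine ⟨a + c, b + d, ?_⟩
    have := Pl.mul_mem h h'
    convert this using 1
    ring
  one_mem' := ⟨0, 0, by simpa using Pl.one_mem⟩
  add_mem' := by
    rintro r s ⟨a, b, h⟩ ⟨c, d, h'⟩
    refine ⟨a + c, b + d, ?_⟩
    have h1 := Pl.mul_mem (Pl.mul_mem (Pl.pow_mem tt_mem c) (Pl.pow_mem uu_mem d)) h
    have h2 := Pl.mul_mem (Pl.mul_mem (Pl.pow_mem tt_mem a) (Pl.pow_mem uu_mem b)) h'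
    have := Pl.add_mem h1 h2
    convert this using 1
    ring
  zero_mem' := ⟨0, 0, by simpa using Pl.zero_mem⟩
  neg_mem' := by
    rintro r ⟨a, b, h⟩
    refine ⟨a, b, ?_⟩
    have := Pl.neg_mem h
    convert this using 1
    ring

/-- order at least `h` at `T = 0` -/
noncomputable def AF0 (h : ℤ) : AddSubgroup KK where
  carrier := {r | ∃ b : ℕ, uu ^ b * tt ^ (-h) * r ∈ Pl}
  add_mem' := by
    rintro r s ⟨b, h1⟩ ⟨d, h2⟩
    refine ⟨b + d, ?_⟩
    have := Pl.add_mem (Pl.mul_mem (Pl.pow_mem uu_mem d) h1) (Pl.mul_mem (Pl.pow_mem uu_mem b) h2)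
    convert this using 1
    ring
  zero_mem' := ⟨0, by simpa using Pl.zero_mem⟩
  neg_mem' := by
    rintro r ⟨b, h1⟩
    refine ⟨b, ?_⟩
    have := Pl.neg_mem h1
    convert this using 1
    ring

/-- order at least `h` at `T = 1` -/
noncomputable def AF1 (h : ℤ) : AddSubgroup KK where
  carrier := {r | ∃ a : ℕ, tt ^ a * uu ^ (-h) * r ∈ Pl}
  add_mem' := by
    rintro r s ⟨b, h1⟩ ⟨d, h2⟩
    refine ⟨b + d, ?_⟩
    have := Pl.add_mem (Pl.mul_mem (Pl.pow_mem tt_mem d) h1) (Pl.mul_mem (Pl.pow_mem tt_mem b) h2)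
    convert this using 1
    ring
  zero_mem' := ⟨0, by simpa using Pl.zero_mem⟩
  neg_mem' := by
    rintro r ⟨b, h1⟩
    refine ⟨b, ?_⟩
    have := Pl.neg_mem h1
    convert this using 1
    ring

/-- elements of `R` of degree less than `-h` -/
noncomputable def AF2 (h : ℤ) : AddSubgroup KK where
  carrier := {r | r ∈ RR ∧ (r = 0 ∨ r.intDegree < -h)}
  add_mem' := by
    rintro r s ⟨h1, h2⟩ ⟨h3, h4⟩
    refine ⟨RR.add_mem h1 h3, ?_⟩
    rcases h2 with rfl | h2
    · simpa using h4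
    rcases h4 with rfl | h4
    · simpa using Or.inr h2
    by_cases hs : s = 0
    · subst hs
      simpa using Or.inr h2
    by_cases hrs : r + s = 0
    · exact Or.inl hrs
    right
    have := RatFunc.intDegree_add_le hs hrs
    exact lt_of_le_of_lt this (max_lt h2 h4)
  zero_mem' := ⟨RR.zero_mem, Or.inl rfl⟩
  neg_mem' := by
    rintro r ⟨h1, h2⟩
    refine ⟨RR.neg_mem h1, ?_⟩
    rcases h2 with rfl | h2
    · simp
    · right
      rwa [RatFunc.intDegree_neg]

/-- the three filtrations -/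
noncomputable def AF (i : Fin 3) (h : ℤ) : AddSubgroup KK := ![AF0 h, AF1 h, AF2 h] i

/-- the multiplier `T^a (1+T)^b` -/
noncomputable def cc (v : VV) : KK := tt ^ (Multiplicative.toAdd v).1 * uu ^ (Multiplicative.toAdd v).2

lemma cc_ne (v : VV) : cc v ≠ 0 := mul_ne_zero (zpow_ne_zero _ tt_ne) (zpow_ne_zero _ uu_ne)

lemma cc_mul (v w : VV) : cc (v * w) = cc v * cc w := by
  simp only [cc, toAdd_mul, Prod.fst_add, Prod.snd_add, zpow_add₀ tt_ne, zpow_add₀ uu_ne]
  ring

lemma cc_one : cc 1 = 1 := by simp [cc]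

end Pool.Agent.W_bec814_h98
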