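import Pool.Agent.W_bec814_h98.RDefs

/-!
# Elementary properties of the three filtrations of `R`
-/

set_option autoImplicit false

namespace Pool.Agent.W_bec814_h98

private lemma RingA_tz {z : ℤ} (hz : 0 ≤ z) : tt ^ z ∈ Pl := by
  obtain ⟨n, rfl⟩ := Int.eq_ofNat_of_zero_le hz
  rw [zpow_natCast]
  exact Pl.pow_mem tt_mem n

private lemma RingA_uz {z : ℤ} (hz : 0 ≤ z) : uu ^ z ∈ Pl := by
  obtain ⟨n, rfl⟩ := Int.eq_ofNat_of_zero_le hz
  rw [zpow_natCast]
  exact Pl.pow_mem uu_mem n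

private lemma RingA_0 {h : ℤ} {r : KK} : r ∈ AF 0 h ↔ ∃ b : ℕ, uu ^ b * tt ^ (-h) * r ∈ Pl :=
  Iff.rfl

private lemma RingA_1 {h : ℤ} {r : KK} : r ∈ AF 1 h ↔ ∃ a : ℕ, tt ^ a * uu ^ (-h) * r ∈ Pl :=
  Iff.rfl

private lemma RingA_2 {h : ℤ} {r : KK} : r ∈ AF 2 h ↔ r ∈ RR ∧ (r = 0 ∨ r.intDegree < -h) :=
  Iff.rfl

private lemma RingA_R {r : KK} : r ∈ RR ↔ ∃ a b : ℕ, tt ^ a * uu ^ b * r ∈ Pl :=
  Iff.rfl

private lemma RingA_deg_npow {x : KK} (hx : x ≠ 0) (n : ℕ) :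
    (x ^ n).intDegree = n * x.intDegree := by
  induction n with
  | zero => simp
  | succ n ih =>
    rw [pow_succ, RatFunc.intDegree_mul (pow_ne_zero _ hx) hx, ih]
    push_cast
    ring

private lemma RingA_deg_zpow {x : KK} (hx : x ≠ 0) (z : ℤ) :
    (x ^ z).intDegree = z * x.intDegree := by
  obtain ⟨n, rfl | rfl⟩ := z.eq_nat_or_neg
  · rw [zpow_natCast, RingA_deg_npow hx]
  · rw [zpow_neg, zpow_natCast, RatFunc.intDegree_inv, RingA_deg_npow hx]
    ring

private lemma RingA_deg_tt : tt.intDegree = 1 := RatFunc.intDegree_X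

private lemma RingA_deg_uu : uu.intDegree = 1 := by
  have h1 : uu = (algebraMap (Polynomial (ZMod 2)) KK) (Polynomial.X + 1) := by
    rw [map_add, map_one, RatFunc.algebraMap_X]
    rfl
  rw [h1, RatFunc.intDegree_polynomial]
  have : (Polynomial.X + 1 : Polynomial (ZMod 2)).natDegree = 1 := by
    rw [← Polynomial.C_1]
    exact Polynomial.natDegree_X_add_C 1
  rw [this]
  rfl

private lemma RingA_deg_cc (v : VV) :
    (cc v).intDegree = (Multiplicative.toAdd v).1 + (Multiplicative.toAdd v).2 := by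
  rw [cc, RatFunc.intDegree_mul (zpow_ne_zero _ tt_ne) (zpow_ne_zero _ uu_ne),
    RingA_deg_zpow tt_ne, RingA_deg_zpow uu_ne, RingA_deg_tt, RingA_deg_uu]
  ring

/-- PROOF. `i = 0, 1`: multiply by `tt`, `uu`; `i = 2`: trivial. -/
theorem AF_anti (i : Fin 3) (h : ℤ) : AF i (h + 1) ≤ AF i h := by
  intro r hr
  fin_cases i
  · obtain ⟨b, hb⟩ := RingA_0.1 hr
    refine RingA_0.2 ⟨b, ?_⟩
    have := Pl.mul_mem tt_mem hb
    have e : tt * (uu ^ b * tt ^ (-(h + 1)) * r) = uu ^ b * tt ^ (-h) * r := by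
      have : tt ^ (-h) = tt * tt ^ (-(h + 1)) := by
        rw [← zpow_one_add₀ tt_ne]
        congr 1
        ring
      rw [this]
      ring
    rwa [e] at this
  · obtain ⟨b, hb⟩ := RingA_1.1 hr
    refine RingA_1.2 ⟨b, ?_⟩
    have := Pl.mul_mem uu_mem hb
    have e : uu * (tt ^ b * uu ^ (-(h + 1)) * r) = tt ^ b * uu ^ (-h) * r := by
      have : uu ^ (-h) = uu * uu ^ (-(h + 1)) := by
        rw [← zpow_one_add₀ uu_ne]
        congr 1
        ring
      rw [this]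
      ring
    rwa [e] at this
  · obtain ⟨h1, h2⟩ := RingA_2.1 hr
    refine RingA_2.2 ⟨h1, ?_⟩
    rcases h2 with h2 | h2
    · exact Or.inl h2
    · right
      linarith

/-- PROOF. `i = 0`: `uu ^ b * tt ^ (-h) * r ∈ Pl`; multiply by `tt ^ n` with `n - h ≥ 0` and remove the power of `tt`:
if `k ≤ 0` then `tt ^ (-k) ∈ Pl`, so `tt ^ a * uu ^ b * r ∈ Pl` for large natural `a`. -/
theorem AF_le (i : Fin 3) (h : ℤ) {r : KK} (hr : r ∈ AF i h) : r ∈ RR := by
  fin_cases i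
  · obtain ⟨b, hb⟩ := RingA_0.1 hr
    refine RingA_R.2 ⟨(-h).toNat, b, ?_⟩
    have hz : 0 ≤ ((-h).toNat : ℤ) + h := by
      have := Int.self_le_toNat (-h)
      linarith
    have := Pl.mul_mem (RingA_tz hz) hb
    have e : tt ^ (((-h).toNat : ℤ) + h) * (uu ^ b * tt ^ (-h) * r) =
        tt ^ (-h).toNat * uu ^ b * r := by
      have e2 : tt ^ ((-h).toNat) = tt ^ (((-h).toNat : ℤ) + h) * tt ^ (-h) := by
        rw [← zpow_add₀ tt_ne, ← zpow_natCast]
        congr 1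
        ring
      rw [e2]
      ring
    rwa [e] at this
  · obtain ⟨b, hb⟩ := RingA_1.1 hr
    refine RingA_R.2 ⟨b, (-h).toNat, ?_⟩
    have hz : 0 ≤ ((-h).toNat : ℤ) + h := by
      have := Int.self_le_toNat (-h)
      linarith
    have := Pl.mul_mem (RingA_uz hz) hb
    have e : uu ^ (((-h).toNat : ℤ) + h) * (tt ^ b * uu ^ (-h) * r) =
        tt ^ b * uu ^ (-h).toNat * r := by
      have e2 : uu ^ ((-h).toNat) = uu ^ (((-h).toNat : ℤ) + h) * uu ^ (-h) := by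
        rw [← zpow_add₀ uu_ne, ← zpow_natCast]
        congr 1
        ring
      rw [e2]
      ring
    rwa [e] at this
  · exact (RingA_2.1 hr).1

/-- PROOF. `tt ^ a * uu ^ b * r ∈ Pl`: take `h = -a` (`i = 0`), `h = -b` (`i = 1`), `h = - intDegree r - 1` (`i = 2`). -/
theorem AF_exh (i : Fin 3) {r : KK} (hr : r ∈ RR) : ∃ h, r ∈ AF i h := by
  obtain ⟨a, b, hab⟩ := RingA_R.1 hr
  fin_cases i
  · refine ⟨-a, RingA_0.2 ⟨b, ?_⟩⟩
    rw [neg_neg, zpow_natCast, mul_comm (uu ^ b)]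
    exact hab
  · refine ⟨-b, RingA_1.2 ⟨a, ?_⟩⟩
    rw [neg_neg, zpow_natCast]
    exact hab
  · refine ⟨-r.intDegree - 1, RingA_2.2 ⟨hr, Or.inr ?_⟩⟩
    linarith

/-- PROOF. `RatFunc.intDegree_mul` for `i = 2`. -/
theorem AF_mul (i : Fin 3) {a b : ℤ} {r s : KK} (hr : r ∈ AF i a) (hs : s ∈ AF i b) :
    r * s ∈ AF i (a + b) := by
  fin_cases i
  · obtain ⟨c, hc⟩ := RingA_0.1 hr
    obtain ⟨d, hd⟩ := RingA_0.1 hs
    refine RingA_0.2 ⟨c + d, ?_⟩
    have := Pl.mul_mem hc hd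
    have e : uu ^ c * tt ^ (-a) * r * (uu ^ d * tt ^ (-b) * s) =
        uu ^ (c + d) * tt ^ (-(a + b)) * (r * s) := by
      have : tt ^ (-(a + b)) = tt ^ (-a) * tt ^ (-b) := by
        rw [← zpow_add₀ tt_ne]
        congr 1
        ring
      rw [this, pow_add]
      ring
    rwa [e] at this
  · obtain ⟨c, hc⟩ := RingA_1.1 hr
    obtain ⟨d, hd⟩ := RingA_1.1 hs
    refine RingA_1.2 ⟨c + d, ?_⟩
    have := Pl.mul_mem hc hd
    have e : tt ^ c * uu ^ (-a) * r * (tt ^ d * uu ^ (-b) * s) =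
        tt ^ (c + d) * uu ^ (-(a + b)) * (r * s) := by
      have : uu ^ (-(a + b)) = uu ^ (-a) * uu ^ (-b) := by
        rw [← zpow_add₀ uu_ne]
        congr 1
        ring
      rw [this, pow_add]
      ring
    rwa [e] at this
  · obtain ⟨h1, h2⟩ := RingA_2.1 hr
    obtain ⟨h3, h4⟩ := RingA_2.1 hs
    refine RingA_2.2 ⟨RR.mul_mem h1 h3, ?_⟩
    by_cases hr0 : r = 0
    · left
      rw [hr0, zero_mul]
    by_cases hs0 : s = 0
    · left
      rw [hs0, mul_zero]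
    right
    rw [RatFunc.intDegree_mul hr0 hs0]
    have h5 := h2.resolve_left hr0
    have h6 := h4.resolve_left hs0
    linarith

theorem cc_mem (v : VV) : cc v ∈ RR := by
  set x : ℤ := (Multiplicative.toAdd v).1 with hx
  set y : ℤ := (Multiplicative.toAdd v).2 with hy
  refine RingA_R.2 ⟨(-x).toNat, (-y).toNat, ?_⟩
  have hx1 : 0 ≤ ((-x).toNat : ℤ) + x := by
    have := Int.self_le_toNat (-x)
    linarith
  have hy1 : 0 ≤ ((-y).toNat : ℤ) + y := by
    have := Int.self_le_toNat (-y)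
    linarith
  have := Pl.mul_mem (RingA_tz hx1) (RingA_uz hy1)
  have e : tt ^ (((-x).toNat : ℤ) + x) * uu ^ (((-y).toNat : ℤ) + y) =
      tt ^ (-x).toNat * uu ^ (-y).toNat * cc v := by
    rw [zpow_add₀ tt_ne, zpow_add₀ uu_ne, zpow_natCast, zpow_natCast, cc]
    ring
  rwa [e] at this

private lemma RingA_cc_one (v : VV) (i : Fin 3) (h : ℤ) (r : KK) (hr : r ∈ AF i h) :
    cc v * r ∈ AF i (h + ht v i) := by
  set x : ℤ := (Multiplicative.toAdd v).1 with hx
  set y : ℤ := (Multiplicative.toAdd v).2 with hy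
  have hcc : cc v = tt ^ x * uu ^ y := rfl
  fin_cases i
  · obtain ⟨b, hb⟩ := RingA_0.1 hr
    change cc v * r ∈ AF 0 (h + x)
    refine RingA_0.2 ⟨b + (-y).toNat, ?_⟩
    have hy1 : 0 ≤ ((-y).toNat : ℤ) + y := by
      have := Int.self_le_toNat (-y)
      linarith
    have := Pl.mul_mem (RingA_uz hy1) hb
    have e : uu ^ (((-y).toNat : ℤ) + y) * (uu ^ b * tt ^ (-h) * r) =
        uu ^ (b + (-y).toNat) * tt ^ (-(h + x)) * (cc v * r) := by
      have e1 : tt ^ (-h) = tt ^ (-(h + x)) * tt ^ x := by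
        rw [← zpow_add₀ tt_ne]
        congr 1
        ring
      rw [e1, zpow_add₀ uu_ne, zpow_natCast, pow_add, hcc]
      ring
    rwa [e] at this
  · obtain ⟨b, hb⟩ := RingA_1.1 hr
    change cc v * r ∈ AF 1 (h + y)
    refine RingA_1.2 ⟨b + (-x).toNat, ?_⟩
    have hx1 : 0 ≤ ((-x).toNat : ℤ) + x := by
      have := Int.self_le_toNat (-x)
      linarith
    have := Pl.mul_mem (RingA_tz hx1) hb
    have e : tt ^ (((-x).toNat : ℤ) + x) * (tt ^ b * uu ^ (-h) * r) =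
        tt ^ (b + (-x).toNat) * uu ^ (-(h + y)) * (cc v * r) := by
      have e1 : uu ^ (-h) = uu ^ (-(h + y)) * uu ^ y := by
        rw [← zpow_add₀ uu_ne]
        congr 1
        ring
      rw [e1, zpow_add₀ tt_ne, zpow_natCast, pow_add, hcc]
      ring
    rwa [e] at this
  · obtain ⟨h1, h2⟩ := RingA_2.1 hr
    change cc v * r ∈ AF 2 (h + (-x - y))
    refine RingA_2.2 ⟨RR.mul_mem (cc_mem v) h1, ?_⟩
    by_cases hr0 : r = 0
    · left
      rw [hr0, mul_zero]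
    right
    rw [RatFunc.intDegree_mul (cc_ne v) hr0, RingA_deg_cc]
    have h5 := h2.resolve_left hr0
    linarith

/-- PROOF. `i = 0`, `v = (a, b)`: `uu ^ n * tt ^ (-(h + a)) * (tt ^ a * uu ^ b * r) = uu ^ (n + b) * tt ^ (-h) * r`; the exponent of
`uu` may be increased. `i = 2`: `intDegree (cc v) = a + b`. One implication suffices (apply it to `v⁻¹`). -/
theorem AF_cc (v : VV) (i : Fin 3) (h : ℤ) (r : KK) : cc v * r ∈ AF i (h + ht v i) ↔ r ∈ AF i h := by
  constructor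
  · intro hr
    have h1 := RingA_cc_one v⁻¹ i (h + ht v i) (cc v * r) hr
    rw [← mul_assoc, ← cc_mul, inv_mul_cancel, cc_one, one_mul, ht_inv, add_neg_cancel_right] at h1
    exact h1
  · exact RingA_cc_one v i h r

end Pool.Agent.W_bec814_h98
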