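import Pool.Agent.W_bec814_h98.RingA

/-!
# Independence of the filtrations of R (RingI1)
-/

set_option autoImplicit false

namespace Pool.Agent.W_bec814_h98

open Polynomial in
private lemma ri1_key (c : ZMod 2) (p q : Polynomial (ZMod 2)) (hq : ¬ (X - C c) ∣ q) :
    (X - C c) ∣ p ∨ (X - C c) ∣ (p - q) := by
  rw [dvd_iff_isRoot] at hq
  rw [dvd_iff_isRoot, dvd_iff_isRoot]
  simp only [IsRoot.def, eval_sub] at hq ⊢
  have h : ∀ a b : ZMod 2, b ≠ 0 → a = 0 ∨ a - b = 0 := by decide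
  exact h _ _ hq

private lemma ri1_uu (n : ℕ) :
    (algebraMap (Polynomial (ZMod 2)) KK) ((Polynomial.X + 1) ^ n) = uu ^ n := by
  rw [map_pow, map_add, map_one, RatFunc.algebraMap_X]
  rfl

private lemma ri1_tt (n : ℕ) :
    (algebraMap (Polynomial (ZMod 2)) KK) (Polynomial.X ^ n) = tt ^ n := by
  rw [map_pow, RatFunc.algebraMap_X]
  rfl

private lemma ri1_mem0 (n : ℤ) (s : KK) (e : ℕ) (f : Polynomial (ZMod 2))
    (hf : (algebraMap (Polynomial (ZMod 2)) KK) f = uu ^ e * tt ^ (-n) * s)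
    (hd : (Polynomial.X - Polynomial.C 0) ∣ f) : s ∈ AF0 (n + 1) := by
  obtain ⟨g, rfl⟩ := hd
  refine ⟨e, g, ?_⟩
  have h1 : (algebraMap (Polynomial (ZMod 2)) KK) (Polynomial.X - Polynomial.C 0) = tt := by
    rw [map_zero, sub_zero, RatFunc.algebraMap_X]
    rfl
  rw [map_mul, h1] at hf
  have h2 : tt ^ (-n) = tt * tt ^ (-(n + 1)) := by
    rw [← zpow_one_add₀ tt_ne]
    congr 1
    ring
  rw [h2] at hf
  apply mul_left_cancel₀ tt_ne
  change tt * (algebraMap (Polynomial (ZMod 2)) KK) g = _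
  rw [hf]
  ring

private lemma ri1_mem1 (n : ℤ) (s : KK) (e : ℕ) (f : Polynomial (ZMod 2))
    (hf : (algebraMap (Polynomial (ZMod 2)) KK) f = tt ^ e * uu ^ (-n) * s)
    (hd : (Polynomial.X - Polynomial.C 1) ∣ f) : s ∈ AF1 (n + 1) := by
  obtain ⟨g, rfl⟩ := hd
  refine ⟨e, g, ?_⟩
  have h0 : (Polynomial.X - Polynomial.C 1 : Polynomial (ZMod 2)) = Polynomial.X + 1 := by
    have h3 : (1 : ZMod 2) = -1 := by decide
    rw [sub_eq_add_neg, ← Polynomial.C_neg, ← h3, Polynomial.C_1]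
  have h1 : (algebraMap (Polynomial (ZMod 2)) KK) (Polynomial.X - Polynomial.C 1) = uu := by
    rw [h0, map_add, map_one, RatFunc.algebraMap_X]
    rfl
  rw [map_mul, h1] at hf
  have h2 : uu ^ (-n) = uu * uu ^ (-(n + 1)) := by
    rw [← zpow_one_add₀ uu_ne]
    congr 1
    ring
  rw [h2] at hf
  apply mul_left_cancel₀ uu_ne
  change uu * (algebraMap (Polynomial (ZMod 2)) KK) g = _
  rw [hf]
  ring

private lemma ri1_zero (n : ℤ) {r w : KK} (hr : r ∈ AF0 n) (hw : w ∈ AF0 n)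
    (hw' : w ∉ AF0 (n + 1)) : r ∈ AF0 (n + 1) ∨ r - w ∈ AF0 (n + 1) := by
  obtain ⟨b, p, hp⟩ := hr
  obtain ⟨d, q, hq⟩ := hw
  change (algebraMap (Polynomial (ZMod 2)) KK) p = _ at hp
  change (algebraMap (Polynomial (ZMod 2)) KK) q = _ at hq
  have hp' : (algebraMap (Polynomial (ZMod 2)) KK) ((Polynomial.X + 1) ^ d * p)
      = uu ^ (b + d) * tt ^ (-n) * r := by
    rw [map_mul, ri1_uu, hp]
    ring
  have hq' : (algebraMap (Polynomial (ZMod 2)) KK) ((Polynomial.X + 1) ^ b * q)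
      = uu ^ (b + d) * tt ^ (-n) * w := by
    rw [map_mul, ri1_uu, hq]
    ring
  have hnd : ¬ (Polynomial.X - Polynomial.C 0) ∣ ((Polynomial.X + 1) ^ b * q) :=
    fun h => hw' (ri1_mem0 n w _ _ hq' h)
  rcases ri1_key 0 ((Polynomial.X + 1) ^ d * p) _ hnd with h | h
  · exact Or.inl (ri1_mem0 n r _ _ hp' h)
  · refine Or.inr (ri1_mem0 n (r - w) (b + d) _ ?_ h)
    rw [map_sub, hp', hq']
    ring

private lemma ri1_one (n : ℤ) {r w : KK} (hr : r ∈ AF1 n) (hw : w ∈ AF1 n)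
    (hw' : w ∉ AF1 (n + 1)) : r ∈ AF1 (n + 1) ∨ r - w ∈ AF1 (n + 1) := by
  obtain ⟨b, p, hp⟩ := hr
  obtain ⟨d, q, hq⟩ := hw
  change (algebraMap (Polynomial (ZMod 2)) KK) p = _ at hp
  change (algebraMap (Polynomial (ZMod 2)) KK) q = _ at hq
  have hp' : (algebraMap (Polynomial (ZMod 2)) KK) (Polynomial.X ^ d * p)
      = tt ^ (b + d) * uu ^ (-n) * r := by
    rw [map_mul, ri1_tt, hp]
    ring
  have hq' : (algebraMap (Polynomial (ZMod 2)) KK) (Polynomial.X ^ b * q)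
      = tt ^ (b + d) * uu ^ (-n) * w := by
    rw [map_mul, ri1_tt, hq]
    ring
  have hnd : ¬ (Polynomial.X - Polynomial.C 1) ∣ (Polynomial.X ^ b * q) :=
    fun h => hw' (ri1_mem1 n w _ _ hq' h)
  rcases ri1_key 1 (Polynomial.X ^ d * p) _ hnd with h | h
  · exact Or.inl (ri1_mem1 n r _ _ hp' h)
  · refine Or.inr (ri1_mem1 n (r - w) (b + d) _ ?_ h)
    rw [map_sub, hp', hq']
    ring

private lemma ri1_deg (a b : ℕ) : (tt ^ a * uu ^ b : KK)
    = (algebraMap (Polynomial (ZMod 2)) KK) (Polynomial.X ^ a * (Polynomial.X + 1) ^ b) := by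
  rw [map_mul, ri1_tt, ri1_uu]

private lemma ri1_mne (a b : ℕ) : (tt ^ a * uu ^ b : KK) ≠ 0 :=
  mul_ne_zero (pow_ne_zero _ tt_ne) (pow_ne_zero _ uu_ne)

private lemma ri1_polydeg (p q : Polynomial (ZMod 2)) (hp : p ≠ 0) (hq : q ≠ 0)
    (h : p.natDegree = q.natDegree) (hne : p - q ≠ 0) :
    (p - q).natDegree < p.natDegree := by
  have hz : ∀ a : ZMod 2, a ≠ 0 → a = 1 := by decide
  have h1 : p.leadingCoeff = 1 := hz _ (Polynomial.leadingCoeff_ne_zero.2 hp)
  have h2 : q.leadingCoeff = 1 := hz _ (Polynomial.leadingCoeff_ne_zero.2 hq)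
  have h3 : p.degree = q.degree := by
    rw [Polynomial.degree_eq_natDegree hp, Polynomial.degree_eq_natDegree hq, h]
  have h4 := Polynomial.degree_sub_lt_left h3 hp (h1.trans h2.symm)
  exact Polynomial.natDegree_lt_natDegree hne h4

private lemma ri1_two (n : ℤ) {r w : KK} (hr : r ∈ AF2 n) (hw : w ∈ AF2 n)
    (hw' : w ∉ AF2 (n + 1)) : r ∈ AF2 (n + 1) ∨ r - w ∈ AF2 (n + 1) := by
  obtain ⟨hr1, hr2⟩ := hr
  obtain ⟨hw1, hw2⟩ := hw
  have hw0 : w ≠ 0 := by
    rintro rfl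
    exact hw' (AF2 (n + 1)).zero_mem
  have hwd : w.intDegree = -n - 1 := by
    rcases hw2 with h | h
    · exact absurd h hw0
    · by_contra hne
      exact hw' ⟨hw1, Or.inr (by omega)⟩
  by_cases hrm : r ∈ AF2 (n + 1)
  · exact Or.inl hrm
  right
  have hr0 : r ≠ 0 := by
    rintro rfl
    exact hrm (AF2 (n + 1)).zero_mem
  have hrd : r.intDegree = -n - 1 := by
    rcases hr2 with h | h
    · exact absurd h hr0
    · by_contra hne
      exact hrm ⟨hr1, Or.inr (by omega)⟩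
  refine ⟨RR.sub_mem hr1 hw1, ?_⟩
  by_cases h0 : r - w = 0
  · exact Or.inl h0
  right
  obtain ⟨a, b, p, hp⟩ := hr1
  obtain ⟨c, d, q, hq⟩ := hw1
  change (algebraMap (Polynomial (ZMod 2)) KK) p = _ at hp
  change (algebraMap (Polynomial (ZMod 2)) KK) q = _ at hq
  have hM := ri1_mne (a + c) (b + d)
  set M : KK := tt ^ (a + c) * uu ^ (b + d) with hMdef
  have hp' : (algebraMap (Polynomial (ZMod 2)) KK)
      (Polynomial.X ^ c * (Polynomial.X + 1) ^ d * p) = M * r := by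
    rw [map_mul, ← ri1_deg, hp, hMdef]
    ring
  have hq' : (algebraMap (Polynomial (ZMod 2)) KK)
      (Polynomial.X ^ a * (Polynomial.X + 1) ^ b * q) = M * w := by
    rw [map_mul, ← ri1_deg, hq, hMdef]
    ring
  generalize (Polynomial.X ^ c * (Polynomial.X + 1) ^ d * p) = P at hp'
  generalize (Polynomial.X ^ a * (Polynomial.X + 1) ^ b * q) = Q at hq'
  have hPQ : (algebraMap (Polynomial (ZMod 2)) KK) (P - Q) = M * (r - w) := by
    rw [map_sub, hp', hq']
    ring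
  have hP0 : P ≠ 0 := by
    rintro rfl
    rw [map_zero] at hp'
    exact mul_ne_zero hM hr0 hp'.symm
  have hQ0 : Q ≠ 0 := by
    rintro rfl
    rw [map_zero] at hq'
    exact mul_ne_zero hM hw0 hq'.symm
  have hPQ0 : P - Q ≠ 0 := by
    intro h
    rw [h, map_zero] at hPQ
    exact mul_ne_zero hM h0 hPQ.symm
  have e1 : (P.natDegree : ℤ) = M.intDegree + r.intDegree := by
    rw [← RatFunc.intDegree_mul hM hr0, ← hp', RatFunc.intDegree_polynomial]
  have e2 : (Q.natDegree : ℤ) = M.intDegree + w.intDegree := by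
    rw [← RatFunc.intDegree_mul hM hw0, ← hq', RatFunc.intDegree_polynomial]
  have e3 : ((P - Q).natDegree : ℤ) = M.intDegree + (r - w).intDegree := by
    rw [← RatFunc.intDegree_mul hM h0, ← hPQ, RatFunc.intDegree_polynomial]
  have e4 : P.natDegree = Q.natDegree := by
    have : (P.natDegree : ℤ) = Q.natDegree := by rw [e1, e2, hrd, hwd]
    exact_mod_cast this
  have e5 := ri1_polydeg P Q hP0 hQ0 e4 hPQ0
  omega

/-- The residue fields are `F_2`.
PROOF. `i = 0`: `f = uu ^ b * tt ^ (-n) * r`, `g = uu ^ b * tt ^ (-n) * w` are polynomials (same `b` for both), with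
`g` not divisible by `X`; if `X ∣ f` then `r ∈ AF 0 (n + 1)`, otherwise `X ∣ f + g` (values at `0` are `1` in `ZMod 2`). The same
for `i = 1` with `X + 1`. `i = 2`: if `intDegree r < -n - 1` then `r ∈ AF 2 (n + 1)`; otherwise `r`, `w` both have
`intDegree` equal to `-n - 1`; multiplied by `tt ^ a * uu ^ b` they are polynomials of the same degree over `F_2`, so
their difference is `0` or has smaller degree (`Polynomial.degree_sub_lt`). -/
theorem AF_step (i : Fin 3) (n : ℤ) {r w : KK} (hr : r ∈ AF i n) (hw : w ∈ AF i n)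
    (hw' : w ∉ AF i (n + 1)) : r ∈ AF i (n + 1) ∨ r - w ∈ AF i (n + 1) := by
  fin_cases i
  · exact ri1_zero n hr hw hw'
  · exact ri1_one n hr hw hw'
  · exact ri1_two n hr hw hw'

end Pool.Agent.W_bec814_h98
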