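import Pool.Agent.W_bec814_h98.RingA

/-!
# Unitriangular matrices with entries in a multiplicative family of subgroups
-/

set_option autoImplicit false

namespace Pool.Agent.W_bec814_h98

/-- the family `B` of additive subgroups is multiplicative -/
def MulFam (B : ℕ → AddSubgroup KK) : Prop := ∀ a b r s, r ∈ B a → s ∈ B b → r * s ∈ B (a + b)

/-- upper unitriangular with the `(i, j)` entry in `B (j - i)` -/
def UT (m : ℕ) (B : ℕ → AddSubgroup KK) (M : Matrix (Fin m) (Fin m) KK) : Prop :=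
  (∀ i, M i i = 1) ∧ (∀ i j, j < i → M i j = 0) ∧
    (∀ i j : Fin m, i < j → M i j ∈ B ((j : ℕ) - (i : ℕ)))

theorem UT_one (m : ℕ) (B : ℕ → AddSubgroup KK) : UT m B 1 := by
  refine ⟨fun i => Matrix.one_apply_eq i, fun i j hij => Matrix.one_apply_ne (ne_of_gt hij),
    fun i j hij => ?_⟩
  rw [Matrix.one_apply_ne (ne_of_lt hij)]
  exact (B _).zero_mem

/-- PROOF. `(M M') i j = ∑ k, M i k * M' k j`; only `i ≤ k ≤ j` contribute; for `i < j` the terms `k = i`, `k = j` are `M' i j`,
`M i j` and the others are in `B (k - i) B (j - k) ⊆ B (j - i)`. -/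
theorem UT_mul {m : ℕ} {B : ℕ → AddSubgroup KK} (hB : MulFam B) {M M' : Matrix (Fin m) (Fin m) KK}
    (h : UT m B M) (h' : UT m B M') : UT m B (M * M') := by
  obtain ⟨hd, hl, hu⟩ := h
  obtain ⟨hd', hl', hu'⟩ := h'
  refine ⟨fun i => ?_, fun i j hij => ?_, fun i j hij => ?_⟩
  · rw [Matrix.mul_apply, Finset.sum_eq_single i]
    · rw [hd, hd', one_mul]
    · intro k _ hk
      rcases lt_or_gt_of_ne hk with hk | hk
      · rw [hl i k hk, zero_mul]
      · rw [hl' k i hk, mul_zero]
    · intro h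
      exact absurd (Finset.mem_univ _) h
  · rw [Matrix.mul_apply]
    apply Finset.sum_eq_zero
    intro k _
    rcases lt_or_ge k i with hk | hk
    · rw [hl i k hk, zero_mul]
    · rw [hl' k j (lt_of_lt_of_le hij hk), mul_zero]
  · rw [Matrix.mul_apply]
    apply AddSubgroup.sum_mem
    intro k _
    rcases lt_trichotomy k i with hk | hk | hk
    · rw [hl i k hk, zero_mul]
      exact (B _).zero_mem
    · rw [hk, hd, one_mul]
      exact hu' i j hij
    · rcases lt_trichotomy k j with hk' | hk' | hk'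
      · have e : (j : ℕ) - (i : ℕ) = ((k : ℕ) - (i : ℕ)) + ((j : ℕ) - (k : ℕ)) := by
          have h1 : (i : ℕ) < k := hk
          have h2 : (k : ℕ) < j := hk'
          omega
        rw [e]
        exact hB _ _ _ _ (hu i k hk) (hu' k j hk')
      · rw [hk', hd', mul_one]
        exact hu i j hij
      · rw [hl' k j hk', mul_zero]
        exact (B _).zero_mem

private theorem U1_two (a : KK) : a + a = 0 := by
  have h1 : (2 : ZMod 2) = 0 := by decide
  have h2 : (algebraMap (ZMod 2) KK) 2 = 0 := by rw [h1, map_zero]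
  have h3 : (2 : KK) = 0 := by
    rw [← h2, map_ofNat]
  rw [← two_mul, h3, zero_mul]

private theorem U1_pow {m : ℕ} (M : Matrix (Fin m) (Fin m) KK) (k : ℕ) :
    M ^ (2 ^ k) = 1 + (M - 1) ^ (2 ^ k) := by
  induction k with
  | zero =>
    rw [pow_zero, pow_one, pow_one]
    abel
  | succ k ih =>
    rw [pow_succ, pow_mul, ih, pow_mul]
    generalize (M - 1) ^ (2 ^ k) = a
    have h2 : a + a = 0 := by
      ext i j
      exact U1_two _
    have e : (1 + a) ^ 2 = 1 + a ^ 2 + (a + a) := by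
      rw [pow_two, pow_two, add_mul, one_mul, mul_add, mul_one]
      abel
    rw [e, h2, add_zero]

/-- PROOF. The characteristic polynomial of `M` is `(X - 1) ^ m` (`Matrix.charpoly_of_upperTriangular`), so
`(M - 1) ^ m = 0` (Cayley-Hamilton), `(M - 1) ^ (2 ^ m) = 0` and `M ^ (2 ^ m) = 1` (characteristic `2`,
`sub_pow_char_pow_of_commute`). -/
theorem UT_pow {m : ℕ} {B : ℕ → AddSubgroup KK} {M : Matrix (Fin m) (Fin m) KK} (h : UT m B M) :
    M ^ (2 ^ m) = 1 := by
  have hbt : M.BlockTriangular id := fun i j hij => h.2.1 i j hij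
  have hc := Matrix.charpoly_of_upperTriangular M hbt
  have hc2 : M.charpoly = (Polynomial.X - Polynomial.C 1) ^ m := by
    rw [hc]
    rw [Finset.prod_congr rfl (fun i _ => by rw [h.1 i]), Finset.prod_const, Finset.card_univ,
      Fintype.card_fin]
  have h0 := Matrix.aeval_self_charpoly M
  rw [hc2, map_pow, map_sub, Polynomial.aeval_X, Polynomial.aeval_C, map_one] at h0
  have h1 : (M - 1) ^ (2 ^ m) = 0 := by
    have hle : m ≤ 2 ^ m := Nat.lt_two_pow_self.le
    obtain ⟨r, hr⟩ := Nat.exists_eq_add_of_le hle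
    rw [hr, pow_add, h0, zero_mul]
  rw [U1_pow, h1, add_zero]

/-- the group of these matrices -/
def UU (m : ℕ) (B : ℕ → AddSubgroup KK) (hB : MulFam B) : Subgroup (Matrix (Fin m) (Fin m) KK)ˣ where
  carrier := {g | UT m B (g : Matrix (Fin m) (Fin m) KK)}
  mul_mem' := fun h h' => UT_mul hB h h'
  one_mem' := UT_one m B
  inv_mem' := by
    intro g hg
    have hg' : UT m B (g : Matrix (Fin m) (Fin m) KK) := hg
    have h1 : g ^ (2 ^ m) = 1 := by
      ext1
      rw [Units.val_pow_eq_pow_val, Units.val_one]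
      exact UT_pow hg'
    have h2 : g⁻¹ = g ^ (2 ^ m - 1) := by
      rw [inv_eq_iff_mul_eq_one, ← pow_succ', Nat.sub_add_cancel Nat.one_le_two_pow, h1]
    have h3 : ∀ n : ℕ, UT m B ((g ^ n : (Matrix (Fin m) (Fin m) KK)ˣ) : Matrix (Fin m) (Fin m) KK) := by
      intro n
      induction n with
      | zero => simpa using UT_one m B
      | succ n ih =>
        rw [pow_succ, Units.val_mul]
        exact UT_mul hB ih hg'
    show UT m B _
    rw [h2]
    exact h3 _

/-- a unitriangular matrix is the value of a unit -/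
theorem UT_unit {m : ℕ} {B : ℕ → AddSubgroup KK} {M : Matrix (Fin m) (Fin m) KK} (h : UT m B M) :
    ∃ g : (Matrix (Fin m) (Fin m) KK)ˣ, (g : Matrix (Fin m) (Fin m) KK) = M := by
  have h1 := UT_pow h
  have h2 : M * M ^ (2 ^ m - 1) = 1 := by
    rw [← pow_succ', Nat.sub_add_cancel Nat.one_le_two_pow, h1]
  have h3 : M ^ (2 ^ m - 1) * M = 1 := by
    rw [← pow_succ, Nat.sub_add_cancel Nat.one_le_two_pow, h1]
  exact ⟨⟨M, M ^ (2 ^ m - 1), h2, h3⟩, rfl⟩

/-- the constant family `R` -/
noncomputable def famR : ℕ → AddSubgroup KK := fun _ => RR.toAddSubgroup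

theorem famR_mul : MulFam famR := fun _ _ _ _ hr hs => RR.mul_mem hr hs

/-- the family of the filtration `i` at height `h` -/
noncomputable def famF (i : Fin 3) (h : ℤ) : ℕ → AddSubgroup KK := fun w => AF i (w * h)

theorem famF_mul (i : Fin 3) (h : ℤ) : MulFam (famF i h) := by
  intro a b r s hr hs
  have := AF_mul i hr hs
  rw [← add_mul] at this
  exact_mod_cast this

/-- the unitriangular group over `R` -/
noncomputable def NN (m : ℕ) : Subgroup (Matrix (Fin m) (Fin m) KK)ˣ := UU m famR famR_mul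

/-- the filtrations of the unitriangular group -/
noncomputable def NF (m : ℕ) (i : Fin 3) (h : ℤ) : Subgroup (NN m) :=
  (UU m (famF i h) (famF_mul i h)).subgroupOf (NN m)

lemma mem_NF {m : ℕ} {i : Fin 3} {h : ℤ} {g : NN m} : g ∈ NF m i h ↔
    ∀ j k : Fin m, j < k →
      ((g : (Matrix (Fin m) (Fin m) KK)ˣ) : Matrix (Fin m) (Fin m) KK) j k ∈
        AF i (((k : ℕ) - (j : ℕ) : ℕ) * h) := by
  unfold NF
  rw [Subgroup.mem_subgroupOf]
  constructor
  · intro hg j k hjk
    have hg' : UT m (famF i h) ((g : (Matrix (Fin m) (Fin m) KK)ˣ) :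
        Matrix (Fin m) (Fin m) KK) := hg
    exact hg'.2.2 j k hjk
  · intro hg
    have hg' : UT m famR ((g : (Matrix (Fin m) (Fin m) KK)ˣ) :
        Matrix (Fin m) (Fin m) KK) := g.2
    exact ⟨hg'.1, hg'.2.1, fun j k hjk => hg j k hjk⟩

end Pool.Agent.W_bec814_h98
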