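import Pool.Agent.W_bec814_h98.U1

/-!
# The action of `ℤ²` on the unitriangular group
-/

set_option autoImplicit false

namespace Pool.Agent.W_bec814_h98

private lemma U2_ext {m : ℕ} {g h : NN m} (H : ∀ j k : Fin m,
    ((g : (Matrix (Fin m) (Fin m) KK)ˣ) : Matrix (Fin m) (Fin m) KK) j k =
      ((h : (Matrix (Fin m) (Fin m) KK)ˣ) : Matrix (Fin m) (Fin m) KK) j k) : g = h :=
  Subtype.ext (Units.ext (Matrix.ext H))

/-- the diagonal matrix -/
private noncomputable def U2_d (m : ℕ) (v : VV) : (Matrix (Fin m) (Fin m) KK)ˣ where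
  val := Matrix.diagonal (fun j : Fin m => cc v ^ (-(j : ℤ)))
  inv := Matrix.diagonal (fun j : Fin m => cc v ^ (j : ℤ))
  val_inv := by
    rw [Matrix.diagonal_mul_diagonal, ← Matrix.diagonal_one]
    congr 1
    funext j
    rw [← zpow_add₀ (cc_ne v), neg_add_cancel, zpow_zero]
  inv_val := by
    rw [Matrix.diagonal_mul_diagonal, ← Matrix.diagonal_one]
    congr 1
    funext j
    rw [← zpow_add₀ (cc_ne v), add_neg_cancel, zpow_zero]

private lemma U2_entry (m : ℕ) (v : VV) (g : (Matrix (Fin m) (Fin m) KK)ˣ) (j k : Fin m) :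
    ((U2_d m v * g * (U2_d m v)⁻¹ : (Matrix (Fin m) (Fin m) KK)ˣ) :
      Matrix (Fin m) (Fin m) KK) j k =
      cc v ^ ((k : ℤ) - (j : ℤ)) * (g : Matrix (Fin m) (Fin m) KK) j k := by
  have h1 : ((U2_d m v * g * (U2_d m v)⁻¹ : (Matrix (Fin m) (Fin m) KK)ˣ) :
      Matrix (Fin m) (Fin m) KK) = Matrix.diagonal (fun j : Fin m => cc v ^ (-(j : ℤ))) *
        (g : Matrix (Fin m) (Fin m) KK) * Matrix.diagonal (fun j : Fin m => cc v ^ (j : ℤ)) := rfl
  rw [h1, Matrix.mul_diagonal, Matrix.diagonal_mul, sub_eq_add_neg, zpow_add₀ (cc_ne v)]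
  ring

private lemma U2_mem (m : ℕ) (v : VV) {g : (Matrix (Fin m) (Fin m) KK)ˣ} (hg : g ∈ NN m) :
    U2_d m v * g * (U2_d m v)⁻¹ ∈ NN m := by
  have hg' : UT m famR (g : Matrix (Fin m) (Fin m) KK) := hg
  show UT m famR _
  refine ⟨fun i => ?_, fun i j hij => ?_, fun i j hij => ?_⟩
  · rw [U2_entry, sub_self, zpow_zero, one_mul]
    exact hg'.1 i
  · rw [U2_entry, hg'.2.1 i j hij, mul_zero]
  · rw [U2_entry]
    have h1 : (g : Matrix (Fin m) (Fin m) KK) i j ∈ RR := hg'.2.2 i j hij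
    have h2 : ((j : ℕ) : ℤ) - ((i : ℕ) : ℤ) = (((j : ℕ) - (i : ℕ) : ℕ) : ℤ) := by
      have : (i : ℕ) < (j : ℕ) := hij
      omega
    have h3 : cc v ^ (((j : ℕ) : ℤ) - ((i : ℕ) : ℤ)) ∈ RR := by
      rw [h2, zpow_natCast]
      exact RR.pow_mem (cc_mem v) _
    exact RR.mul_mem h3 h1

/-- conjugation -/
private noncomputable def U2_f (m : ℕ) (v : VV) : NN m →* NN m where
  toFun g := ⟨U2_d m v * (g : (Matrix (Fin m) (Fin m) KK)ˣ) * (U2_d m v)⁻¹, U2_mem m v g.2⟩
  map_one' := by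
    apply Subtype.ext
    simp
  map_mul' g h := by
    apply Subtype.ext
    simp [mul_assoc]

private lemma U2_f_entry (m : ℕ) (v : VV) (g : NN m) (j k : Fin m) :
    (((U2_f m v g : NN m) : (Matrix (Fin m) (Fin m) KK)ˣ) : Matrix (Fin m) (Fin m) KK) j k =
      cc v ^ ((k : ℤ) - (j : ℤ)) *
        ((g : (Matrix (Fin m) (Fin m) KK)ˣ) : Matrix (Fin m) (Fin m) KK) j k :=
  U2_entry m v _ j k

private lemma U2_f_mul (m : ℕ) (v w : VV) (g : NN m) :
    U2_f m v (U2_f m w g) = U2_f m (v * w) g := by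
  refine U2_ext fun j k => ?_
  rw [U2_f_entry, U2_f_entry, U2_f_entry, cc_mul, mul_zpow]
  ring

private lemma U2_f_one (m : ℕ) (g : NN m) : U2_f m 1 g = g := by
  refine U2_ext fun j k => ?_
  rw [U2_f_entry, cc_one, one_zpow, one_mul]

/-- PROOF. Conjugation by the diagonal matrix with entries `(cc v) ^ (-j)`, `j : Fin m`; the `(j, k)` entry of the conjugate
is `cc v ^ (k - j) * g j k`, in `R` by `cc_mem`. Multiplicative in `v` by `cc_mul`. -/
theorem exists_uact (m : ℕ) : ∃ φ : VV →* MulAut (NN m), ∀ v (g : NN m) (j k : Fin m),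
    (((φ v g : NN m) : (Matrix (Fin m) (Fin m) KK)ˣ) : Matrix (Fin m) (Fin m) KK) j k =
      cc v ^ ((k : ℤ) - (j : ℤ)) * ((g : (Matrix (Fin m) (Fin m) KK)ˣ) : Matrix (Fin m) (Fin m) KK) j k := by
  refine ⟨{ toFun := fun v =>
              { toFun := U2_f m v
                invFun := U2_f m v⁻¹
                left_inv := fun g => by rw [U2_f_mul, inv_mul_cancel, U2_f_one]
                right_inv := fun g => by rw [U2_f_mul, mul_inv_cancel, U2_f_one]
                map_mul' := fun g h => map_mul _ g h }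
            map_one' := ?_
            map_mul' := fun v w => ?_ }, fun v g j k => U2_f_entry m v g j k⟩
  · apply MulEquiv.ext
    intro g
    exact U2_f_one m g
  · apply MulEquiv.ext
    intro g
    exact (U2_f_mul m v w g).symm

/-- the action -/
noncomputable def uact (m : ℕ) : VV →* MulAut (NN m) := Classical.choose (exists_uact m)

lemma uact_apply {m : ℕ} (v : VV) (g : NN m) (j k : Fin m) :
    (((uact m v g : NN m) : (Matrix (Fin m) (Fin m) KK)ˣ) : Matrix (Fin m) (Fin m) KK) j k =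
      cc v ^ ((k : ℤ) - (j : ℤ)) * ((g : (Matrix (Fin m) (Fin m) KK)ˣ) : Matrix (Fin m) (Fin m) KK) j k :=
  Classical.choose_spec (exists_uact m) v g j k

end Pool.Agent.W_bec814_h98
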