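import Pool.Agent.W_bec814_h98.U3b1
import Pool.Agent.W_bec814_h98.RingI2

/-!
# Independence of the filtrations of the unitriangular group (U3b2)
-/

set_option autoImplicit false

namespace Pool.Agent.W_bec814_h98

/-- the entries -/
private def U3b2_en {m : ℕ} (g : NN m) (j k : Fin m) : KK :=
  ((g : (Matrix (Fin m) (Fin m) KK)ˣ) : Matrix (Fin m) (Fin m) KK) j k

private theorem U3b2_UT {m : ℕ} (g : NN m) :
    UT m famR ((g : (Matrix (Fin m) (Fin m) KK)ˣ) : Matrix (Fin m) (Fin m) KK) := g.2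

private theorem U3b2_Van_one (m d : ℕ) : Van m d 1 := by
  intro j k hjk _
  show (1 : Matrix (Fin m) (Fin m) KK) j k = 0
  exact Matrix.one_apply_ne hjk.ne

private theorem U3b2_Van_pow {m d : ℕ} (hd : 1 ≤ d) {g : NN m} (h : Van m d g) (n : ℕ) :
    Van m d (g ^ n) := by
  induction n with
  | zero =>
    rw [pow_zero]
    exact U3b2_Van_one m d
  | succ n ih =>
    rw [pow_succ]
    exact (Van_mul hd ih h).1

private theorem U3b2_Van_inv {m d : ℕ} (hd : 1 ≤ d) {g : NN m} (h : Van m d g) :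
    Van m d g⁻¹ := by
  have h1 : g ^ (2 ^ m) = 1 := by
    apply Subtype.ext
    apply Units.ext
    have h2 := UT_pow (U3b2_UT g)
    rw [SubmonoidClass.coe_pow, Units.val_pow_eq_pow_val]
    exact h2
  have h2 : g⁻¹ = g ^ (2 ^ m - 1) := by
    rw [inv_eq_iff_mul_eq_one, ← pow_succ', Nat.sub_add_cancel Nat.one_le_two_pow, h1]
  rw [h2]
  exact U3b2_Van_pow hd h _

private theorem U3b2_step {m : ℕ} {h : Fin 3 → ℤ} (hs : h 0 + h 1 + h 2 = 0) {y : Fin 3 → NN m}
    {d : ℕ} (hd : 1 ≤ d)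
    (hx : ∃ x : NN m, ∀ i : Fin 3, ∃ n ∈ NF m i (h i), ∃ u : NN m, Van m d u ∧
      (y i)⁻¹ * x = n * u) :
    ∃ x : NN m, ∀ i : Fin 3, ∃ n ∈ NF m i (h i), ∃ u : NN m, Van m (d + 1) u ∧
      (y i)⁻¹ * x = n * u := by
  classical
  obtain ⟨x, hx⟩ := hx
  choose n hn u hu he using hx
  obtain ⟨c, hc⟩ : ∃ c : Fin 3 → Fin m → KK, c = fun (i : Fin 3) (j : Fin m) =>
      if hj : (j : ℕ) + d < m then U3b2_en (u i) j ⟨(j : ℕ) + d, hj⟩ else 0 := ⟨_, rfl⟩
  have hcR : ∀ i j, c i j ∈ RR := by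
    intro i j
    rw [hc]
    simp only
    split_ifs with hj
    · have h1 := (U3b2_UT (u i)).2.2 j ⟨(j : ℕ) + d, hj⟩ (by
        rw [Fin.lt_def]
        simp only
        omega)
      exact h1
    · exact RR.zero_mem
  have hz : ∀ j : Fin m, ∃ r ∈ RR, ∀ i, r - (- c i j) ∈ AF i ((d : ℤ) * h i) := by
    intro j
    exact AF_indep (h := fun i => (d : ℤ) * h i)
      (by
        show (d : ℤ) * h 0 + (d : ℤ) * h 1 + (d : ℤ) * h 2 = 0
        rw [← mul_add, ← mul_add, hs, mul_zero])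
      (fun i => - c i j) (fun i => RR.neg_mem (hcR i j))
  choose z hzR hzF using hz
  obtain ⟨w, hw1, hw2⟩ := exists_super hd z hzR
  refine ⟨x * w, ?_⟩
  intro i
  obtain ⟨g, hg1, hg2⟩ := exists_super hd (fun j => c i j + z j)
    (fun j => RR.add_mem (hcR i j) (hzR j))
  have hgNF : g ∈ NF m i (h i) := by
    rw [mem_NF]
    intro j k hjk
    rw [hg2 j k hjk]
    split_ifs with hk
    · have h1 := hzF j i
      have h2 : ((k : ℕ) - (j : ℕ) : ℕ) = d := by omega
      rw [h2]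
      have h3 : z j - - c i j = c i j + z j := by ring
      rw [h3] at h1
      exact h1
    · exact (AF i _).zero_mem
  obtain ⟨hv1, hv2⟩ := Van_mul hd (hu i) hw1
  have hv3 : Van m d (g⁻¹ * (u i * w)) := (Van_mul hd (U3b2_Van_inv hd hg1) hv1).1
  have hv4 := (Van_mul hd hg1 hv3).2
  rw [mul_inv_cancel_left] at hv4
  refine ⟨n i * g, (NF m i (h i)).mul_mem (hn i) hgNF, g⁻¹ * (u i * w), ?_, ?_⟩
  · intro j k hjk hk
    by_cases hkd : (k : ℕ) < (j : ℕ) + d
    · exact hv3 j k hjk hkd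
    · have hk' : (k : ℕ) = (j : ℕ) + d := by omega
      have e1 := hv4 j k hk'
      have e2 := hv2 j k hk'
      rw [e2, hg2 j k hjk, if_pos hk', hw2 j k hjk, if_pos hk'] at e1
      have e3 : c i j = ((u i : (Matrix (Fin m) (Fin m) KK)ˣ) :
          Matrix (Fin m) (Fin m) KK) j k := by
        have hj : (j : ℕ) + d < m := by
          have := k.2
          omega
        rw [hc]
        simp only
        rw [dif_pos hj]
        have e4 : (⟨(j : ℕ) + d, hj⟩ : Fin m) = k := Fin.ext hk'.symm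
        rw [e4]
        rfl
      rw [e3] at e1
      have e5 := left_eq_add.1 e1
      exact e5
  · rw [← mul_assoc, he i, mul_assoc, mul_assoc, mul_inv_cancel_left]

/-- PROOF. For `d = 1, …, m` find `x_d` with `(y i)⁻¹ * x_d = n_i * u_i`, `n_i ∈ NF m i (h i)`, `Van m d u_i`, `i = 0, 1, 2`.
`d = 1`: `x_1 = 1`. From `d` to `d + 1`: let `c_i j` be the entry `(j, j + d)` of `u_i`; by `AF_indep` with heights
`d * h i` (sum `0`) choose `z j ∈ R` with `z j + c_i j ∈ AF i (d * h i)` for all `i` (`y i = - c_i j`), let `z` be the element of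
`exists_super` with entries `z j`, `x_(d+1) = x_d * z`. By `Van_mul` `u_i * z` has `Van m d` and entries
`c_i j + z j ∈ AF i (d * h i)`; with `n'_i` the element of `exists_super` with these entries (in `NF m i (h i)`),
`u_i * z = n'_i * u'_i` and `u'_i = n'_i⁻¹ * (u_i * z)` has `Van m (d + 1)` (apply `Van_mul` to `n'_i * u'_i`; `n'_i⁻¹ = n'_i ^ (2 ^ m - 1)`
or apply `Van_mul` to `n'_i⁻¹` first). For `d = m` (or `m + 1`) `u_i = 1`. -/
theorem NF_indep (m : ℕ) (h : Fin 3 → ℤ) (hs : h 0 + h 1 + h 2 = 0) (y : Fin 3 → NN m) :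
    ∃ x, ∀ i, (y i)⁻¹ * x ∈ NF m i (h i) := by
  have hall : ∀ d : ℕ, ∃ x : NN m, ∀ i : Fin 3, ∃ n ∈ NF m i (h i), ∃ u : NN m,
      Van m (d + 1) u ∧ (y i)⁻¹ * x = n * u := by
    intro d
    induction d with
    | zero =>
      refine ⟨1, fun i => ⟨1, (NF m i (h i)).one_mem, (y i)⁻¹, ?_, ?_⟩⟩
      · intro j k hjk hk
        rw [Fin.lt_def] at hjk
        omega
      · rw [mul_one, one_mul]
    | succ d ih => exact U3b2_step hs (by omega) ih
  obtain ⟨x, hx⟩ := hall m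
  refine ⟨x, fun i => ?_⟩
  obtain ⟨n, hn, u, hu, he⟩ := hx i
  rw [he]
  refine (NF m i (h i)).mul_mem hn ?_
  rw [mem_NF]
  intro j k hjk
  rw [hu j k hjk (by
    have := k.2
    omega)]
  exact (AF i _).zero_mem

end Pool.Agent.W_bec814_h98
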