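import Pool.Agent.W_bec814_h98.U3a
import Pool.Agent.W_bec814_h98.U3b2

/-!
# The horocyclic data of the unitriangular group
-/

set_option autoImplicit false

namespace Pool.Agent.W_bec814_h98

/-- the horocyclic data of the unitriangular group of degree `m` over `R` -/
noncomputable def UHoro (m : ℕ) : Horo (NN m) where
  act := uact m
  F := NF m
  anti := NF_anti m
  exh := NF_exh m
  equiv := NF_equiv m
  triv := NF_triv m
  indep := NF_indep m

end Pool.Agent.W_bec814_h98
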