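import Pool.Agent.W_bec814_h98.U2
import Pool.Agent.W_bec814_h98.RingT

/-!
# The filtrations of the unitriangular group: the easy axioms
-/

set_option autoImplicit false

namespace Pool.Agent.W_bec814_h98

private lemma U3a_anti_nat (i : Fin 3) (h : ℤ) (n : ℕ) : AF i (h + n) ≤ AF i h := by
  induction n with
  | zero => simp
  | succ n ih =>
    refine le_trans ?_ ih
    have := AF_anti i (h + n)
    rwa [add_assoc] at this

private lemma U3a_anti (i : Fin 3) {a b : ℤ} (hab : a ≤ b) : AF i b ≤ AF i a := by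
  obtain ⟨n, hn⟩ := Int.eq_ofNat_of_zero_le (sub_nonneg.2 hab)
  have hb : b = a + n := by
    rw [← hn]
    ring
  rw [hb]
  exact U3a_anti_nat i a n

private lemma U3a_cc_pow (v : VV) (n : ℕ) : cc (v ^ n) = cc v ^ n := by
  induction n with
  | zero => rw [pow_zero, pow_zero, cc_one]
  | succ n ih => rw [pow_succ, pow_succ, cc_mul, ih]

private lemma U3a_ht_pow (v : VV) (n : ℕ) (i : Fin 3) : ht (v ^ n) i = n * ht v i := by
  fin_cases i
  · simp [ht, toAdd_pow]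
  · simp [ht, toAdd_pow]
  · simp [ht, toAdd_pow]
    ring

theorem NF_anti (m : ℕ) (i : Fin 3) (h : ℤ) : NF m i (h + 1) ≤ NF m i h := by
  intro g hg
  rw [mem_NF] at hg ⊢
  intro j k hjk
  refine U3a_anti i ?_ (hg j k hjk)
  have h0 : (0 : ℤ) ≤ (((k : ℕ) - (j : ℕ) : ℕ) : ℤ) := Int.natCast_nonneg _
  nlinarith

/-- PROOF. For each entry `r ∈ R` and `w ≥ 1` one has `r ∈ AF i (w * h)` for all sufficiently small `h`
(`AF_exh`, `AF_anti`); there are finitely many entries. -/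
theorem NF_exh (m : ℕ) (i : Fin 3) (g : NN m) : ∃ h, g ∈ NF m i h := by
  have hg : UT m famR ((g : (Matrix (Fin m) (Fin m) KK)ˣ) : Matrix (Fin m) (Fin m) KK) := g.2
  have h1 : ∀ p : Fin m × Fin m, ∃ h : ℤ, p.1 < p.2 →
      ((g : (Matrix (Fin m) (Fin m) KK)ˣ) : Matrix (Fin m) (Fin m) KK) p.1 p.2 ∈ AF i h := by
    intro p
    by_cases hp : p.1 < p.2
    · obtain ⟨h, hh⟩ := AF_exh i (hg.2.2 p.1 p.2 hp)
      exact ⟨h, fun _ => hh⟩
    · exact ⟨0, fun h => absurd h hp⟩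
  choose f hf using h1
  refine ⟨-∑ p, |f p|, ?_⟩
  rw [mem_NF]
  intro j k hjk
  refine U3a_anti i ?_ (hf (j, k) hjk)
  have h2 : |f (j, k)| ≤ ∑ p, |f p| :=
    Finset.single_le_sum (f := fun p => |f p|) (fun p _ => abs_nonneg _) (Finset.mem_univ (j, k))
  have h3 : -|f (j, k)| ≤ f (j, k) := neg_abs_le _
  have h4 : (1 : ℤ) ≤ (((k : ℕ) - (j : ℕ) : ℕ) : ℤ) := by
    have : (j : ℕ) < (k : ℕ) := hjk
    omega
  have h5 : 0 ≤ ∑ p, |f p| := Finset.sum_nonneg fun p _ => abs_nonneg _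
  nlinarith

/-- PROOF. `uact_apply`, `mem_NF` and `AF_cc` for `v ^ w`, `w = k - j` (`cc (v ^ w) = cc v ^ w`, `ht (v ^ w) i = w * ht v i`). -/
theorem NF_equiv (m : ℕ) (v : VV) (i : Fin 3) (h : ℤ) (g : NN m) :
    uact m v g ∈ NF m i (h + ht v i) ↔ g ∈ NF m i h := by
  rw [mem_NF, mem_NF]
  refine forall_congr' fun j => forall_congr' fun k => forall_congr' fun hjk => ?_
  rw [uact_apply]
  have hlt : (j : ℕ) < (k : ℕ) := hjk
  have h1 : ((k : ℕ) : ℤ) - ((j : ℕ) : ℤ) = (((k : ℕ) - (j : ℕ) : ℕ) : ℤ) := by omega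
  rw [h1, zpow_natCast, ← U3a_cc_pow, mul_add, ← U3a_ht_pow]
  exact AF_cc _ _ _ _

/-- PROOF. `AF_triv` for every entry above the diagonal (heights `w * h i`, sum `0`). -/
theorem NF_triv (m : ℕ) (h : Fin 3 → ℤ) (hs : h 0 + h 1 + h 2 = 0) (g : NN m)
    (hg : ∀ i, g ∈ NF m i (h i)) : g = 1 := by
  have hu : UT m famR ((g : (Matrix (Fin m) (Fin m) KK)ˣ) : Matrix (Fin m) (Fin m) KK) := g.2
  apply Subtype.ext
  apply Units.ext
  ext j k
  rcases lt_trichotomy j k with hjk | hjk | hjk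
  · have h1 : ((g : (Matrix (Fin m) (Fin m) KK)ˣ) : Matrix (Fin m) (Fin m) KK) j k = 0 := by
      refine AF_triv (h := fun i => (((k : ℕ) - (j : ℕ) : ℕ) : ℤ) * h i) ?_ fun i => ?_
      · rw [← mul_add, ← mul_add, hs, mul_zero]
      · exact mem_NF.1 (hg i) j k hjk
    rw [h1]
    exact (Matrix.one_apply_ne (ne_of_lt hjk)).symm
  · subst hjk
    rw [hu.1 j]
    exact (Matrix.one_apply_eq j).symm
  · rw [hu.2.1 j k hjk]
    exact (Matrix.one_apply_ne (ne_of_gt hjk)).symm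

end Pool.Agent.W_bec814_h98
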