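import Pool.Agent.W_bec814_h98.U2

/-!
# Independence of the filtrations of the unitriangular group (U3b1)
-/

set_option autoImplicit false

namespace Pool.Agent.W_bec814_h98

/-- Zeros on the first superdiagonals: `g j k = 0` for `j < k < j + d`. -/
def Van (m d : ℕ) (g : NN m) : Prop := ∀ j k : Fin m, j < k → (k : ℕ) < (j : ℕ) + d →
  ((g : (Matrix (Fin m) (Fin m) KK)ˣ) : Matrix (Fin m) (Fin m) KK) j k = 0

private lemma U3b1_mul {m : ℕ} {G G' : Matrix (Fin m) (Fin m) KK} (h : UT m famR G)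
    (h' : UT m famR G') {j k : Fin m} (hjk : j < k) (hz : ∀ l, j < l → l < k → G j l = 0) :
    (G * G') j k = G j k + G' j k := by
  rw [Matrix.mul_apply, Fintype.sum_eq_add k j (ne_of_gt hjk)]
  · rw [h'.1 k, h.1 j, mul_one, one_mul]
  · rintro l ⟨h1, h2⟩
    rcases lt_trichotomy l j with hl | hl | hl
    · rw [h.2.1 j l hl, zero_mul]
    · exact absurd hl h2
    rcases lt_trichotomy l k with hl2 | hl2 | hl2
    · rw [hz l hl hl2, zero_mul]
    · exact absurd hl2 h1
    · rw [h'.2.1 l k hl2, mul_zero]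

/-- On the superdiagonal `d` the group law is additive and `Van` is a subgroup condition.
PROOF. In `(g g') j k` with `k = j + d` only the terms `j` and `k` survive. -/
theorem Van_mul {m d : ℕ} (hd : 1 ≤ d) {g g' : NN m} (h : Van m d g) (h' : Van m d g') :
    Van m d (g * g') ∧ ∀ j k : Fin m, (k : ℕ) = (j : ℕ) + d →
      (((g * g' : NN m) : (Matrix (Fin m) (Fin m) KK)ˣ) : Matrix (Fin m) (Fin m) KK) j k =
      ((g : (Matrix (Fin m) (Fin m) KK)ˣ) : Matrix (Fin m) (Fin m) KK) j k +
      ((g' : (Matrix (Fin m) (Fin m) KK)ˣ) : Matrix (Fin m) (Fin m) KK) j k := by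
  have hg : UT m famR ((g : (Matrix (Fin m) (Fin m) KK)ˣ) : Matrix (Fin m) (Fin m) KK) := g.2
  have hg' : UT m famR ((g' : (Matrix (Fin m) (Fin m) KK)ˣ) : Matrix (Fin m) (Fin m) KK) := g'.2
  have hmul : (((g * g' : NN m) : (Matrix (Fin m) (Fin m) KK)ˣ) : Matrix (Fin m) (Fin m) KK) =
      ((g : (Matrix (Fin m) (Fin m) KK)ˣ) : Matrix (Fin m) (Fin m) KK) *
      ((g' : (Matrix (Fin m) (Fin m) KK)ˣ) : Matrix (Fin m) (Fin m) KK) := rfl
  constructor
  · intro j k hjk hk
    rw [hmul, U3b1_mul hg hg' hjk, h j k hjk hk, h' j k hjk hk, add_zero]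
    intro l h1 h2
    exact h j l h1 (lt_trans (Fin.lt_def.1 h2) hk)
  · intro j k hk
    have hjk : j < k := by
      rw [Fin.lt_def]
      omega
    rw [hmul, U3b1_mul hg hg' hjk]
    intro l h1 h2
    refine h j l h1 ?_
    rw [← hk]
    exact Fin.lt_def.1 h2

/-- The matrix with prescribed entries in `R` on the superdiagonal `d` and zeros elsewhere above the diagonal.
PROOF. It satisfies `UT m famR`; use `UT_unit`. -/
theorem exists_super {m d : ℕ} (hd : 1 ≤ d) (c : Fin m → KK) (hc : ∀ j, c j ∈ RR) :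
    ∃ g : NN m, Van m d g ∧ ∀ j k : Fin m, j < k →
      ((g : (Matrix (Fin m) (Fin m) KK)ˣ) : Matrix (Fin m) (Fin m) KK) j k =
        if (k : ℕ) = (j : ℕ) + d then c j else 0 := by
  classical
  set M : Matrix (Fin m) (Fin m) KK := fun j k =>
    if j = k then 1 else if (k : ℕ) = (j : ℕ) + d then c j else 0 with hM
  have hup : ∀ j k : Fin m, j < k → M j k = if (k : ℕ) = (j : ℕ) + d then c j else 0 := by
    intro j k hjk
    have : j ≠ k := ne_of_lt hjk
    simp only [hM, if_neg this]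
  have hUT : UT m famR M := by
    refine ⟨fun i => ?_, fun i j hij => ?_, fun i j hij => ?_⟩
    · simp only [hM, if_true]
    · have h1 : i ≠ j := ne_of_gt hij
      have h2 : ¬ (j : ℕ) = (i : ℕ) + d := by
        rw [Fin.lt_def] at hij
        omega
      simp only [hM, if_neg h1, if_neg h2]
    · rw [hup i j hij]
      change _ ∈ RR
      split_ifs
      · exact hc i
      · exact RR.zero_mem
  obtain ⟨g, hg⟩ := UT_unit hUT
  have hgN : g ∈ NN m := by
    change UT m famR (g : Matrix (Fin m) (Fin m) KK)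
    rw [hg]
    exact hUT
  refine ⟨⟨g, hgN⟩, ?_, ?_⟩
  · intro j k hjk hk
    change (g : Matrix (Fin m) (Fin m) KK) j k = 0
    rw [hg, hup j k hjk, if_neg (ne_of_lt hk)]
  · intro j k hjk
    change (g : Matrix (Fin m) (Fin m) KK) j k = _
    rw [hg, hup j k hjk]

end Pool.Agent.W_bec814_h98
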