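import Pool.Agent.W_bec814_h98.Defs

/-!
# Word lengths
-/

set_option autoImplicit false

namespace Pool.Agent.W_bec814_h98

/-- Every element has a word (so `wlen` is attained).
PROOF. `Subgroup.closure_induction` or `Subgroup.exists_list_of_mem_closure`, then `Nat.sInf_mem`. -/
theorem wlen_spec {G : Type} [Group G] (S : Finset G) (hS : Subgroup.closure (S : Set G) = ⊤) (g : G) :
    ∃ l : List G, l.length = wlen S g ∧ (∀ x ∈ l, x ∈ S ∨ x⁻¹ ∈ S) ∧ l.prod = g := by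
  have hg : g ∈ Subgroup.closure (S : Set G) := by
    rw [hS]
    exact Subgroup.mem_top g
  obtain ⟨l, hl, hp⟩ : ∃ l : List G, (∀ x ∈ l, x ∈ S ∨ x⁻¹ ∈ S) ∧ l.prod = g := by
    rw [← Subgroup.mem_toSubmonoid, Subgroup.closure_toSubmonoid] at hg
    obtain ⟨l, h1, h2⟩ := Submonoid.exists_list_of_mem_closure hg
    exact ⟨l, fun x hx => by simpa using h1 x hx, h2⟩
  exact Nat.sInf_mem (s := {m : ℕ | ∃ l : List G, l.length = m ∧
    (∀ x ∈ l, x ∈ S ∨ x⁻¹ ∈ S) ∧ l.prod = g}) ⟨l.length, l, rfl, hl, hp⟩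

theorem wlen_le {G : Type} [Group G] (S : Finset G) {g : G} (l : List G)
    (hl : ∀ x ∈ l, x ∈ S ∨ x⁻¹ ∈ S) (hp : l.prod = g) : wlen S g ≤ l.length :=
  Nat.sInf_le ⟨l, rfl, hl, hp⟩

private theorem Wl_bij_aux {G H : Type} [Group G] [Group H] (S : Finset G) (T : Finset H)
    (hSi : ∀ g ∈ S, g⁻¹ ∈ S) (Θ : G → H)
    (h : ∀ a b : G, a⁻¹ * b ∈ S → (Θ a)⁻¹ * Θ b ∈ T) (l : List G) :
    ∀ a b : G, (∀ x ∈ l, x ∈ S ∨ x⁻¹ ∈ S) → l.prod = a⁻¹ * b →
      ∃ l' : List H, l'.length = l.length ∧ (∀ x ∈ l', x ∈ T ∨ x⁻¹ ∈ T) ∧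
        l'.prod = (Θ a)⁻¹ * Θ b := by
  induction l with
  | nil =>
    intro a b _ hp
    have hab : a = b := by
      rw [List.prod_nil] at hp
      exact inv_mul_eq_one.1 hp.symm
    refine ⟨[], rfl, by simp, ?_⟩
    rw [hab, List.prod_nil, inv_mul_cancel]
  | cons s l ih =>
    intro a b hl hp
    have hs : s ∈ S := by
      rcases hl s List.mem_cons_self with h1 | h1
      · exact h1
      · have h2 := hSi _ h1
        rwa [inv_inv] at h2
    obtain ⟨l', h1, h2, h3⟩ := ih (a * s) b (fun x hx => hl x (List.mem_cons_of_mem s hx)) (by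
      rw [List.prod_cons] at hp
      rw [mul_inv_rev, mul_assoc, ← hp, inv_mul_cancel_left])
    refine ⟨((Θ a)⁻¹ * Θ (a * s)) :: l', by simp [h1], ?_, ?_⟩
    · intro x hx
      rcases List.mem_cons.1 hx with rfl | hx
      · exact Or.inl (h a (a * s) (by rw [inv_mul_cancel_left]; exact hs))
      · exact h2 x hx
    · rw [List.prod_cons, h3]
      group

/-- A bijection which respects `a⁻¹ * b ∈ S` for symmetric finite generating sets preserves the word metric.
PROOF. Both inequalities by symmetry (use `Θ.symm`). If `a⁻¹ * b = s_1 ⋯ s_n` with `s_i ∈ S` then the points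
`a_i = a s_1 ⋯ s_i` satisfy `a_(i-1)⁻¹ * a_i ∈ S`, so `(Θ a_(i-1))⁻¹ * Θ a_i ∈ T` and the product of these is
`(Θ a)⁻¹ * Θ b`. (Induction on the list.) -/
theorem wlen_bij {G H : Type} [Group G] [Group H] (S : Finset G) (T : Finset H)
    (hS : Subgroup.closure (S : Set G) = ⊤) (hT : Subgroup.closure (T : Set H) = ⊤)
    (hSi : ∀ g ∈ S, g⁻¹ ∈ S) (hTi : ∀ g ∈ T, g⁻¹ ∈ T) (Θ : G ≃ H)
    (h : ∀ a b : G, a⁻¹ * b ∈ S ↔ (Θ a)⁻¹ * Θ b ∈ T) (a b : G) :
    wlen T ((Θ a)⁻¹ * Θ b) = wlen S (a⁻¹ * b) := by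
  apply le_antisymm
  · obtain ⟨l, h1, h2, h3⟩ := wlen_spec S hS (a⁻¹ * b)
    obtain ⟨l', h4, h5, h6⟩ := Wl_bij_aux S T hSi Θ (fun a b => (h a b).1) l a b h2 h3
    rw [← h1, ← h4]
    exact wlen_le T l' h5 h6
  · obtain ⟨l, h1, h2, h3⟩ := wlen_spec T hT ((Θ a)⁻¹ * Θ b)
    obtain ⟨l', h4, h5, h6⟩ := Wl_bij_aux T S hTi Θ.symm (fun x y hxy => by
      refine (h _ _).2 ?_
      rwa [Equiv.apply_symm_apply, Equiv.apply_symm_apply]) l (Θ a) (Θ b) h2 h3
    rw [Equiv.symm_apply_apply, Equiv.symm_apply_apply] at h6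
    rw [← h1, ← h4]
    exact wlen_le S l' h5 h6

private theorem Wl_mul {H : Type} [Group H] (T : Finset H)
    (hT : Subgroup.closure (T : Set H) = ⊤) (x y : H) : wlen T (x * y) ≤ wlen T x + wlen T y := by
  obtain ⟨l, h1, h2, h3⟩ := wlen_spec T hT x
  obtain ⟨l', h4, h5, h6⟩ := wlen_spec T hT y
  have h7 := wlen_le T (g := x * y) (l ++ l') (fun z hz => by
    rcases List.mem_append.1 hz with hz | hz
    · exact h2 z hz
    · exact h5 z hz) (by rw [List.prod_append, h3, h6])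
  rwa [List.length_append, h1, h4] at h7

private theorem Wl_inv {H : Type} [Group H] (T : Finset H)
    (hT : Subgroup.closure (T : Set H) = ⊤) (x : H) : wlen T x⁻¹ ≤ wlen T x := by
  obtain ⟨l, h1, h2, h3⟩ := wlen_spec T hT x
  have h7 := wlen_le T (g := x⁻¹) (l.map (fun z => z⁻¹)).reverse (fun z hz => by
    rw [List.mem_reverse, List.mem_map] at hz
    obtain ⟨w, hw, rfl⟩ := hz
    rw [inv_inv]
    exact (h2 w hw).symm) (by rw [← h3, List.prod_inv_reverse])
  rwa [List.length_reverse, List.length_map, h1] at h7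

/-- Homomorphisms are Lipschitz.
PROOF. `K = ∑ s ∈ S, wlen T (ι s)` (or the maximum); a product of `m` letters from `S` and `S⁻¹` is mapped to a product of
`m` words of length at most `K` (note `wlen T x⁻¹ = wlen T x`: reverse and invert the word). -/
theorem wlen_hom {G H : Type} [Group G] [Group H] (S : Finset G) (T : Finset H)
    (hS : Subgroup.closure (S : Set G) = ⊤) (hT : Subgroup.closure (T : Set H) = ⊤) (ι : G →* H) :
    ∃ K : ℕ, ∀ g, wlen T (ι g) ≤ K * wlen S g := by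
  refine ⟨∑ s ∈ S, wlen T (ι s), fun g => ?_⟩
  obtain ⟨l, h1, h2, h3⟩ := wlen_spec S hS g
  rw [← h1, ← h3]
  clear h1 h3
  have hK : ∀ s ∈ S, wlen T (ι s) ≤ ∑ s ∈ S, wlen T (ι s) := fun s hs =>
    Finset.single_le_sum (f := fun s => wlen T (ι s)) (fun _ _ => Nat.zero_le _) hs
  induction l with
  | nil =>
    have h4 := wlen_le T (g := (1 : H)) [] (by simp) List.prod_nil
    simpa using h4
  | cons s l ih =>
    have h5 := ih (fun x hx => h2 x (List.mem_cons_of_mem s hx))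
    have h6 : wlen T (ι s) ≤ ∑ s ∈ S, wlen T (ι s) := by
      rcases h2 s List.mem_cons_self with h7 | h7
      · exact hK s h7
      · have h8 := Wl_inv T hT (ι s⁻¹)
        rw [← map_inv, inv_inv] at h8
        exact h8.trans (hK _ h7)
    have h9 := Wl_mul T hT (ι s) (ι l.prod)
    rw [List.prod_cons, map_mul, List.length_cons]
    calc wlen T (ι s * ι l.prod) ≤ wlen T (ι s) + wlen T (ι l.prod) := h9
      _ ≤ (∑ s ∈ S, wlen T (ι s)) + (∑ s ∈ S, wlen T (ι s)) * l.length := add_le_add h6 h5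
      _ = (∑ s ∈ S, wlen T (ι s)) * (l.length + 1) := by ring

end Pool.Agent.W_bec814_h98
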